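import Pool.Agent.Helper43K9.AC.Uni
import Pool.Agent.R889.PZ.GAbs

/-!
Absorption by compositions of substitutions with an acyclic dominating matrix, in all letter orders.
-/

set_option autoImplicit false

namespace Pool.Agent.Helper43K9.AC
open Pool.Agent.H812R2.PI Pool.Agent.TH100.Pisot Pool.Agent.R889.PZ
open scoped BigOperators

variable {m : ℕ}

/-- `ρ ∘ τ` with `ρ` of determinant `± 1` and images of length at most `T`, where for some `i` and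
`k ≥ K` the substitution `τ` has incidence matrix `M i ^ k` and discrepancy at most `B`, or is a
composition of `k` substitutions with incidence matrix `M i` -/
def OBlock {ι : Type*} (M : ι → Matrix (Fin (m+1)) (Fin (m+1)) ℤ) (u : ι → Fin (m+1) → ℝ)
    (B : ℝ) (T K : ℕ) (τ : Fin (m+1) → List (Fin (m+1))) : Prop :=
  ∃ ρ τ' : Fin (m+1) → List (Fin (m+1)), τ = comp ρ τ' ∧
    ((inc ρ).det = 1 ∨ (inc ρ).det = -1) ∧ (∀ a, (ρ a).length ≤ T) ∧
    ∃ i k, K ≤ k ∧ (τ' ∈ SubSet (u i) (M i ^ k) B ∨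
      ∃ L : List (Fin (m+1) → List (Fin (m+1))), L.length = k ∧ (∀ t ∈ L, inc t = M i) ∧
        τ' = compList L)

/-- prefixes of the compositions of substitutions with the same matrix -/
theorem comp_prefix {M : Matrix (Fin (m+1)) (Fin (m+1)) ℤ} (hnn : ∀ i j, 0 ≤ M i j) (P : PD M) :
    ∃ Bs : ℝ, ∀ L : List (Fin (m+1) → List (Fin (m+1))), (∀ t ∈ L, inc t = M) →
      ∀ a j, P.N (rv (ab ((compList L a).take j))) ≤ Bs := by
  have hr : 0 < 1 - P.rho := by linarith [P.rho_lt]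
  obtain ⟨B1, hB1⟩ : ∃ B1 : ℝ, B1 = P.c * ∑ i, ∑ j, ((M i j : ℤ) : ℝ) := ⟨_, rfl⟩
  have hB10 : 0 ≤ B1 := by
    rw [hB1]
    refine mul_nonneg P.c_pos.le (Finset.sum_nonneg fun i _ => Finset.sum_nonneg fun j _ => ?_)
    exact_mod_cast hnn i j
  refine ⟨B1 / (1 - P.rho) + ∑ a : Fin (m+1), P.N (rv (ev a)), fun L hL a j => ?_⟩
  refine (compList_prefix P L B1 hB10 ?_ a j).trans ?_
  · intro τ hτ
    refine ⟨hL τ hτ, fun a k => ?_⟩
    rw [hB1]
    exact JFin_BT P hnn τ (hL τ hτ) a k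
  · have := Finset.single_le_sum (f := fun a : Fin (m+1) => P.N (rv (ev a)))
      (fun i _ => P.N_nonneg _) (Finset.mem_univ a)
    linarith

/-- constants for a finite family of Pisot matrices -/
theorem family_consts2 {ι : Type*} [Fintype ι] (M : ι → Matrix (Fin (m+1)) (Fin (m+1)) ℤ)
    (R : ∀ i, PD (M i)) (T : ℕ) (Bs : ι → ℝ) :
    ∃ κ E Q : ℝ, 1 ≤ κ ∧ 1 + κ ≤ E ∧ 0 < Q ∧ ((m:ℝ) + 1) * (2 + κ) < Q ∧ ∃ K : ℕ,
      ∀ i, ∀ k ≥ K, ∀ ρ : Fin (m+1) → List (Fin (m+1)), (inc ρ).det ≠ 0 →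
        (∀ a, (ρ a).length ≤ T) → ∀ τ : Fin (m+1) → List (Fin (m+1)), inc τ = M i ^ k →
        (∀ a j, (R i).N (rv (ab ((τ a).take j))) ≤ Bs i) → Blk κ E Q (comp ρ τ) := by
  classical
  have hall := fun i => blk_sub (R i) T (Bs i)
  choose κi hκi1 hblki using hall
  obtain ⟨κ, hκd⟩ : ∃ κ : ℝ, κ = 1 + ∑ i, κi i := ⟨_, rfl⟩
  have hs0 : 0 ≤ ∑ i, κi i := Finset.sum_nonneg fun i _ => zero_le_one.trans (hκi1 i)
  have hκi : ∀ i, κ ≥ κi i := by
    intro i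
    have := Finset.single_le_sum (f := κi) (fun i _ => zero_le_one.trans (hκi1 i))
      (Finset.mem_univ i)
    rw [hκd]
    linarith
  have hκ : 1 ≤ κ := by rw [hκd]; linarith
  have hall2 := fun i => hblki i κ (hκi i)
  choose Ei hEi1 hblki using hall2
  obtain ⟨E, hEd⟩ : ∃ E : ℝ, E = (1 + κ) + ∑ i, Ei i := ⟨_, rfl⟩
  have hs1 : 0 ≤ ∑ i, Ei i := Finset.sum_nonneg fun i _ => by linarith [hEi1 i]
  have hEi : ∀ i, E ≥ Ei i := by
    intro i
    have := Finset.single_le_sum (f := Ei) (fun i _ => by linarith [hEi1 i])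
      (Finset.mem_univ i)
    rw [hEd]
    linarith
  have hE : 1 + κ ≤ E := by rw [hEd]; linarith
  obtain ⟨Q, hQ⟩ : ∃ Q : ℝ, Q = ((m:ℝ) + 1) * (2 + κ) + 1 := ⟨_, rfl⟩
  have hall3 := fun i => hblki i E (hEi i) Q
  choose Ki hKi using hall3
  have hm0 : (0:ℝ) ≤ m := Nat.cast_nonneg m
  refine ⟨κ, E, Q, hκ, hE, by rw [hQ]; positivity, by rw [hQ]; linarith, ∑ i, Ki i, ?_⟩
  intro i k hk ρ hdet hT τ hτ hpre
  have h1 : Ki i ≤ ∑ i, Ki i := Finset.single_le_sum (f := Ki) (fun i _ => Nat.zero_le _)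
    (Finset.mem_univ i)
  exact hKi i k (h1.trans hk) ρ hdet hT τ hτ hpre

/-- compositions of blocks -/
theorem oblocks_good {ι : Type*} [Fintype ι] (M : ι → Matrix (Fin (m+1)) (Fin (m+1)) ℤ)
    (hnn : ∀ i a b, 0 ≤ M i a b) (hM : ∀ i, PisotMat (M i)) (R : ∀ i, PD (M i)) (T : ℕ) (B : ℝ) :
    ∃ K : ℕ, ∀ l : List (Fin (m+1) → List (Fin (m+1))),
      (∀ τ ∈ l, OBlock M (fun i => (R i).u) B T K τ) →
      (∃ i ν, Ac (M i) ν ∧ ∃ (ρ : Fin (m+1) → List (Fin (m+1)))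
        (L : List (Fin (m+1) → List (Fin (m+1)))), (inc ρ).det ≠ 0 ∧ K ≤ L.length ∧
        (∀ t ∈ L, inc t = M i) ∧ comp ρ (compList L) ∈ l) →
      PisotMat (inc (compList l)) ∧
      ∀ P' : PD (inc (compList l)), Pool.Agent.R889.PZ.Good P'.ell (compList l) := by
  classical
  have hp := fun i => comp_prefix (hnn i) (R i)
  choose Bp hBp using hp
  obtain ⟨κ, E, Q, hκ, hE, hQ0, hQ, K0, hK0⟩ := family_consts2 M R T
    (fun i => max ((R i).c * |B|) (Bp i))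
  obtain ⟨D, hD⟩ : ∃ D : ℝ, D = (16 * (2 + (1 + κ) * ((m:ℝ) + 1)) ^ 2 + 4) * (2 * E) + κ :=
    ⟨_, rfl⟩
  have hall1 := fun i => hb_hit (R i) D
  choose K1 hK1 using hall1
  have hall2 : ∀ i, ∃ K : ℕ, (∃ ν, Ac (M i) ν) →
      ∀ L : List (Fin (m+1) → List (Fin (m+1))), (∀ t ∈ L, inc t = M i) → K ≤ L.length →
      (R i).Hit (compList L) ((R i).c * (2 * D)) := by
    intro i
    by_cases h : ∃ ν, Ac (M i) ν
    · obtain ⟨ν, hν⟩ := h
      obtain ⟨K, hK⟩ := unif_hit hν (R i) ((R i).c * (2 * D))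
      exact ⟨K, fun _ => hK⟩
    · exact ⟨0, fun h' => absurd h' h⟩
  choose K2 hK2 using hall2
  refine ⟨K0 + ∑ i, K1 i + ∑ i, K2 i, fun l hl hex => ?_⟩
  obtain ⟨i, ν, hν, ρ0, L0, hdet0, hL0, hL0M, hmem⟩ := hex
  have hKi : K1 i ≤ ∑ i, K1 i := Finset.single_le_sum (f := K1) (fun i _ => Nat.zero_le _)
    (Finset.mem_univ i)
  have hni : K2 i ≤ ∑ i, K2 i := Finset.single_le_sum (f := K2) (fun i _ => Nat.zero_le _)
    (Finset.mem_univ i)
  have hb : ∀ τ ∈ l, Blk κ E Q τ := by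
    intro τ hτ
    obtain ⟨ρ, τ', rfl, hdet, hT, i, k, hk, h⟩ := hl τ hτ
    have hdet' : (inc ρ).det ≠ 0 := by
      rcases hdet with h | h <;> rw [h] <;> norm_num
    rcases h with hi | ⟨L, hLk, hLM, rfl⟩
    · refine hK0 i k (by omega) ρ hdet' hT τ' hi.1 fun a j => ?_
      exact (GFin_dis_N (R i) |B| (abs_nonneg B) _ ((hi.2 a j).trans (sq_abs B).ge)).trans
        (le_max_left _ _)
    · refine hK0 i k (by omega) ρ hdet' hT _ ?_ fun a j => (hBp i L hLM a j).trans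
        (le_max_right _ _)
      rw [inc_compList _ _ hLM, hLk]
  have hd : ∀ τ ∈ l, (inc τ).det = 1 ∨ (inc τ).det = -1 := by
    intro τ hτ
    obtain ⟨ρ, τ', rfl, hdet, hT, i, k, hk, h⟩ := hl τ hτ
    rw [inc_comp, Matrix.det_mul]
    have h1 : (inc τ').det = 1 ∨ (inc τ').det = -1 := by
      rcases h with hi | ⟨L, hLk, hLM, rfl⟩
      · rw [hi.1]
        exact det_pow_pm _ (hM i).2.1 k
      · rw [inc_compList _ _ hLM]
        exact det_pow_pm _ (hM i).2.1 _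
    rcases hdet with h2 | h2 <;> rcases h1 with h3 | h3 <;> rw [h2, h3] <;> norm_num
  have hne : l ≠ [] := List.ne_nil_of_mem hmem
  have hpis : PisotMat (inc (compList l)) := list_pisot hQ hκ _ hb hne hd
  refine ⟨hpis, fun P' => ?_⟩
  obtain ⟨l1, l2, hl12⟩ := List.append_of_mem hmem
  have hl3 : l = l1 ++ [comp ρ0 (compList L0)] ++ l2 := by
    rw [hl12]
    simp
  subst hl3
  refine list_good2 hQ0 hE l1 l2 _ hb ?_ hpis P'
  have h1 := hK1 i L0.length (by omega) ρ0 hdet0 (compList L0) (inc_compList _ _ hL0M)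
    (hK2 i ⟨ν, hν⟩ L0 hL0M (by omega))
  rw [hD] at h1
  exact h1

/-- final form -/
theorem oblocks {ι : Type*} [Fintype ι] (M : ι → Matrix (Fin (m+1)) (Fin (m+1)) ℤ)
    (hnn : ∀ i a b, 0 ≤ M i a b) (hM : ∀ i, PisotMat (M i)) (lam : ι → ℝ) (hlam : ∀ i, 1 < lam i)
    (u : ι → Fin (m+1) → ℝ) (hu : ∀ i a, ∑ b, (M i a b : ℝ) * u i b = lam i * u i a)
    (husum : ∀ i, ∑ a, u i a = 1) (T : ℕ) (B : ℝ) :
    ∃ K : ℕ, ∀ l : List (Fin (m+1) → List (Fin (m+1))),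
      (∀ τ ∈ l, OBlock M u B T K τ) →
      (∃ i ν, Ac (M i) ν ∧ ∃ (ρ : Fin (m+1) → List (Fin (m+1)))
        (L : List (Fin (m+1) → List (Fin (m+1)))), ((inc ρ).det = 1 ∨ (inc ρ).det = -1) ∧
        K ≤ L.length ∧ (∀ t ∈ L, inc t = M i) ∧ comp ρ (compList L) ∈ l) →
      PisotMat (inc (compList l)) ∧ Coinc (compList l) ∧ SemiConjToral (compList l) := by
  have hall : ∀ i, ∃ R : PD (M i), R.u = u i := fun i => by
    obtain ⟨R, h, -⟩ := exists_PD (M i) (hnn i) (hM i) (lam i) (hlam i) (u i) (hu i) (husum i)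
    exact ⟨R, h⟩
  choose R hR using hall
  have hR' : (fun i => (R i).u) = u := funext hR
  obtain ⟨K, hK⟩ := oblocks_good M hnn hM R T B
  rw [hR'] at hK
  refine ⟨K, fun l hl hex => ?_⟩
  obtain ⟨i, ν, hν, ρ, L, hdet, hL, hLM, hmem⟩ := hex
  obtain ⟨h1, h2⟩ := hK l hl ⟨i, ν, hν, ρ, L,
    by rcases hdet with h | h <;> rw [h] <;> norm_num, hL, hLM, hmem⟩
  obtain ⟨lam', u', hlam', hu', hs'⟩ := exists_u (inc (compList l)) (inc_nonneg _) h1
  obtain ⟨P', -, -⟩ := exists_PD (inc (compList l)) (inc_nonneg _) h1 lam' hlam' u' hu' hs'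
  have h3 := h2 P'
  exact ⟨h1, (coinc_iff P').2 h3.2.1, h3.2.2⟩

end Pool.Agent.Helper43K9.AC
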