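import Pool.Agent.Helper43K9.AC.UniC

/-!
Absorption by compositions of substitutions with the same matrix, if all such compositions have
coincidences.
-/

set_option autoImplicit false

namespace Pool.Agent.Helper43K9.AC
open Pool.Agent.H812R2.PI Pool.Agent.TH100.Pisot Pool.Agent.R889.PZ
open Pool.Agent.Y316.Pisot (hh Ov hh_zero compList_flatten)
open scoped BigOperators

variable {m : ℕ}

/-- All compositions of (one or more) members of `F` satisfy the geometric coincidence condition. -/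
def CoincAll (F : Set (Fin (m+1) → List (Fin (m+1)))) : Prop :=
  ∀ l : List (Fin (m+1) → List (Fin (m+1))), l ≠ [] → (∀ t ∈ l, t ∈ F) → Coinc (compList l)

/-- coincidences from common edges -/
theorem gcc_of_cm {σ : Fin (m+1) → List (Fin (m+1))} (P : PD (inc σ))
    (h : ∀ a b v, 0 < P.OV (0, a) (v, b) → ∃ n,
      Pool.Agent.Helper65K9.PSC.Cm σ n a b v) : Coinc σ := by
  refine ⟨P.lam, P.ell, P.ell_pos, P.ell_M, fun a b v hov => ?_⟩
  obtain ⟨n, e, h1, h2⟩ := h a b v ((ov_pos_iff P a b v).2 hov)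
  exact ⟨n, e, h1, by rw [← inc_iter]; exact h2⟩

/-- acyclic dominating matrices -/
theorem coincAll_of_ac {M : Matrix (Fin (m+1)) (Fin (m+1)) ℤ} {ν : ℕ} (h : Ac M ν) :
    CoincAll {t | inc t = M} := by
  intro l hne hl'
  have hl : ∀ t ∈ l, inc t = M := fun t ht => hl' t ht
  have hpis : PisotMat M := pis m M ν h
  have hlen : 1 ≤ l.length := List.length_pos_iff.2 hne
  have hinc : inc (compList l) = M ^ l.length := inc_compList _ _ hl
  obtain ⟨lam, u, hlam, hu, husum⟩ := exists_u M h.nn hpis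
  obtain ⟨P, -, -⟩ := exists_PD M h.nn hpis lam hlam u hu husum
  obtain ⟨Q, hQ⟩ : ∃ Q : PD (inc (compList l)), Q.ell = P.ell := by
    rw [hinc]
    exact ⟨P.pow _ hlen, rfl⟩
  refine ⟨Q.lam, Q.ell, Q.ell_pos, Q.ell_M, fun a b v hov => ?_⟩
  rw [hQ] at hov
  obtain ⟨K, hK⟩ := unif_pair h P a b v ((ov_pos_iff P a b v).2 hov)
  obtain ⟨e, h1, h2⟩ := hK _ (inc_mem hl K) (by
    rw [len_flatten]
    exact Nat.le_mul_of_pos_right _ hlen)
  rw [compList_flatten] at h1 h2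
  exact ⟨K, e, h1, by rw [← inc_iter]; exact h2⟩

/-- compositions of blocks -/
theorem cblocks_good {ι : Type*} [Fintype ι] (M : ι → Matrix (Fin (m+1)) (Fin (m+1)) ℤ)
    (hnn : ∀ i a b, 0 ≤ M i a b) (hM : ∀ i, PisotMat (M i)) (R : ∀ i, PD (M i))
    (F : ι → Set (Fin (m+1) → List (Fin (m+1)))) (hFM : ∀ i, ∀ t ∈ F i, inc t = M i)
    (hFC : ∀ i, CoincAll (F i)) (T : ℕ) (B : ℝ) :
    ∃ K : ℕ, ∀ l : List (Fin (m+1) → List (Fin (m+1))),
      (∀ τ ∈ l, OBlock M (fun i => (R i).u) B T K τ) →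
      (∃ i, ∃ (ρ : Fin (m+1) → List (Fin (m+1)))
        (L : List (Fin (m+1) → List (Fin (m+1)))), (inc ρ).det ≠ 0 ∧ K ≤ L.length ∧
        (∀ t ∈ L, t ∈ F i) ∧ comp ρ (compList L) ∈ l) →
      PisotMat (inc (compList l)) ∧
      ∀ P' : PD (inc (compList l)), Pool.Agent.R889.PZ.Good P'.ell (compList l) := by
  classical
  have hp := fun i => comp_prefix (hnn i) (R i)
  choose Bp hBp using hp
  obtain ⟨κ, E, Q, hκ, hE, hQ0, hQ, K0, hK0⟩ := family_consts2 M R T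
    (fun i => max ((R i).c * |B|) (Bp i))
  obtain ⟨D, hD⟩ : ∃ D : ℝ, D = (16 * (2 + (1 + κ) * ((m:ℝ) + 1)) ^ 2 + 4) * (2 * E) + κ :=
    ⟨_, rfl⟩
  have hall1 := fun i => hb_hit (R i) D
  choose K1 hK1 using hall1
  have hall2 : ∀ i, ∃ K : ℕ,
      ∀ L : List (Fin (m+1) → List (Fin (m+1))), (∀ t ∈ L, t ∈ F i) → K ≤ L.length →
      (R i).Hit (compList L) ((R i).c * (2 * D)) := by
    intro i
    have hdet : (M i).det ≠ 0 := by
      rcases (hM i).2.1 with h | h <;> rw [h] <;> norm_num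
    refine unif_of_set (hnn i) hdet (R i) (F i) (hFM i) (fun l hl hlF => ?_)
      ((R i).c * (2 * D))
    have hinc : inc (compList l) = M i ^ l.length :=
      inc_compList _ _ fun t ht => hFM i t (hlF t ht)
    obtain ⟨Q', hQ'⟩ : ∃ Q' : PD (inc (compList l)), Q'.ell = (R i).ell := by
      rw [hinc]
      exact ⟨(R i).pow _ (List.length_pos_iff.2 hl), rfl⟩
    rw [← hQ']
    exact (coinc_iff Q').1 (hFC i l hl hlF)
  choose K2 hK2 using hall2
  refine ⟨K0 + ∑ i, K1 i + ∑ i, K2 i, fun l hl hex => ?_⟩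
  obtain ⟨i, ρ0, L0, hdet0, hL0, hL0F, hmem⟩ := hex
  have hL0M : ∀ t ∈ L0, inc t = M i := fun t ht => hFM i t (hL0F t ht)
  have hKi : K1 i ≤ ∑ i, K1 i := Finset.single_le_sum (f := K1) (fun i _ => Nat.zero_le _)
    (Finset.mem_univ i)
  have hni : K2 i ≤ ∑ i, K2 i := Finset.single_le_sum (f := K2) (fun i _ => Nat.zero_le _)
    (Finset.mem_univ i)
  have hb : ∀ τ ∈ l, Blk κ E Q τ := by
    intro τ hτ
    obtain ⟨ρ, τ', rfl, hdet, hT, i, k, hk, h⟩ := hl τ hτ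
    have hdet' : (inc ρ).det ≠ 0 := by
      rcases hdet with h | h <;> rw [h] <;> norm_num
    rcases h with hi | ⟨L, hLk, hLM, rfl⟩
    · refine hK0 i k (by omega) ρ hdet' hT τ' hi.1 fun a j => ?_
      exact (GFin_dis_N (R i) |B| (abs_nonneg B) _ ((hi.2 a j).trans (sq_abs B).ge)).trans
        (le_max_left _ _)
    · refine hK0 i k (by omega) ρ hdet' hT _ ?_ fun a j => (hBp i L hLM a j).trans
        (le_max_right _ _)
      rw [inc_compList _ _ hLM, hLk]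
  have hd : ∀ τ ∈ l, (inc τ).det = 1 ∨ (inc τ).det = -1 := by
    intro τ hτ
    obtain ⟨ρ, τ', rfl, hdet, hT, i, k, hk, h⟩ := hl τ hτ
    rw [inc_comp, Matrix.det_mul]
    have h1 : (inc τ').det = 1 ∨ (inc τ').det = -1 := by
      rcases h with hi | ⟨L, hLk, hLM, rfl⟩
      · rw [hi.1]
        exact det_pow_pm _ (hM i).2.1 k
      · rw [inc_compList _ _ hLM]
        exact det_pow_pm _ (hM i).2.1 _
    rcases hdet with h2 | h2 <;> rcases h1 with h3 | h3 <;> rw [h2, h3] <;> norm_num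
  have hne : l ≠ [] := List.ne_nil_of_mem hmem
  have hpis : PisotMat (inc (compList l)) := list_pisot hQ hκ _ hb hne hd
  refine ⟨hpis, fun P' => ?_⟩
  obtain ⟨l1, l2, hl12⟩ := List.append_of_mem hmem
  have hl3 : l = l1 ++ [comp ρ0 (compList L0)] ++ l2 := by
    rw [hl12]
    simp
  subst hl3
  refine list_good2 hQ0 hE l1 l2 _ hb ?_ hpis P'
  have h1 := hK1 i L0.length (by omega) ρ0 hdet0 (compList L0) (inc_compList _ _ hL0M)
    (hK2 i L0 hL0F (by omega))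
  rw [hD] at h1
  exact h1

/-- final form -/
theorem cblocks {ι : Type*} [Fintype ι] (M : ι → Matrix (Fin (m+1)) (Fin (m+1)) ℤ)
    (hnn : ∀ i a b, 0 ≤ M i a b) (hM : ∀ i, PisotMat (M i)) (lam : ι → ℝ) (hlam : ∀ i, 1 < lam i)
    (u : ι → Fin (m+1) → ℝ) (hu : ∀ i a, ∑ b, (M i a b : ℝ) * u i b = lam i * u i a)
    (husum : ∀ i, ∑ a, u i a = 1)
    (F : ι → Set (Fin (m+1) → List (Fin (m+1)))) (hFM : ∀ i, ∀ t ∈ F i, inc t = M i)
    (hFC : ∀ i, CoincAll (F i)) (T : ℕ) (B : ℝ) :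
    ∃ K : ℕ, ∀ l : List (Fin (m+1) → List (Fin (m+1))),
      (∀ τ ∈ l, OBlock M u B T K τ) →
      (∃ i, ∃ (ρ : Fin (m+1) → List (Fin (m+1)))
        (L : List (Fin (m+1) → List (Fin (m+1)))), ((inc ρ).det = 1 ∨ (inc ρ).det = -1) ∧
        K ≤ L.length ∧ (∀ t ∈ L, t ∈ F i) ∧ comp ρ (compList L) ∈ l) →
      PisotMat (inc (compList l)) ∧ Coinc (compList l) ∧ SemiConjToral (compList l) := by
  have hall : ∀ i, ∃ R : PD (M i), R.u = u i := fun i => by
    obtain ⟨R, h, -⟩ := exists_PD (M i) (hnn i) (hM i) (lam i) (hlam i) (u i) (hu i) (husum i)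
    exact ⟨R, h⟩
  choose R hR using hall
  have hR' : (fun i => (R i).u) = u := funext hR
  obtain ⟨K, hK⟩ := cblocks_good M hnn hM R F hFM hFC T B
  rw [hR'] at hK
  refine ⟨K, fun l hl hex => ?_⟩
  obtain ⟨i, ρ, L, hdet, hL, hLM, hmem⟩ := hex
  obtain ⟨h1, h2⟩ := hK l hl ⟨i, ρ, L,
    by rcases hdet with h | h <;> rw [h] <;> norm_num, hL, hLM, hmem⟩
  obtain ⟨lam', u', hlam', hu', hs'⟩ := exists_u (inc (compList l)) (inc_nonneg _) h1
  obtain ⟨P', -, -⟩ := exists_PD (inc (compList l)) (inc_nonneg _) h1 lam' hlam' u' hu' hs'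
  have h3 := h2 P'
  exact ⟨h1, (coinc_iff P').2 h3.2.1, h3.2.2⟩

end Pool.Agent.Helper43K9.AC
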