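import Pool.Agent.Helper43K9.AC.Defs

/-!
Basic facts on the forms `qq M s` and on heights.
-/

set_option autoImplicit false

namespace Pool.Agent.Helper43K9.AC
open Pool.Agent.H812R2.PI Pool.Agent.Y316.Pisot Pool.Agent.Helper65K9.PSC
open scoped BigOperators

variable {m : ℕ} {M : Matrix (Fin (m+1)) (Fin (m+1)) ℤ} {ν : ℕ}

theorem rw0_add (M : Matrix (Fin (m+1)) (Fin (m+1)) ℤ) (x y : Fin (m+1) → ℤ) :
    rw0 M (x + y) = rw0 M x + rw0 M y := by
  unfold rw0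
  rw [← Finset.sum_add_distrib]
  refine Finset.sum_congr rfl fun j _ => ?_
  split_ifs
  · simp
  · rw [Pi.add_apply]; ring

theorem rw0_smul (M : Matrix (Fin (m+1)) (Fin (m+1)) ℤ) (c : ℤ) (x : Fin (m+1) → ℤ) :
    rw0 M (c • x) = c * rw0 M x := by
  unfold rw0
  rw [Finset.mul_sum]
  refine Finset.sum_congr rfl fun j _ => ?_
  split_ifs
  · simp
  · rw [Pi.smul_apply, smul_eq_mul]; ring

theorem qq_add (s : ℕ) (x y : Fin (m+1) → ℤ) : qq M s (x + y) = qq M s x + qq M s y := by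
  unfold qq
  rw [Matrix.mulVec_add, rw0_add]

theorem qq_smul (s : ℕ) (c : ℤ) (x : Fin (m+1) → ℤ) : qq M s (c • x) = c * qq M s x := by
  unfold qq
  rw [Matrix.mulVec_smul, rw0_smul]

theorem qq_neg (s : ℕ) (x : Fin (m+1) → ℤ) : qq M s (-x) = -qq M s x := by
  have := qq_smul (M := M) s (-1) x
  simpa using this

theorem qq_zero_vec (s : ℕ) : qq M s 0 = 0 := by
  have := qq_smul (M := M) s 0 0
  simpa using this

theorem qq_succ (s : ℕ) (x : Fin (m+1) → ℤ) : qq M (s+1) x = qq M s ((Nz M).mulVec x) := by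
  unfold qq
  rw [pow_succ, ← Matrix.mulVec_mulVec]

theorem qq_zero (x : Fin (m+1) → ℤ) : qq M 0 x = rw0 M x := by
  unfold qq
  rw [pow_zero, Matrix.one_mulVec]

theorem Nz_zero (x : Fin (m+1) → ℤ) : (Nz M).mulVec x 0 = 0 := by
  simp [Matrix.mulVec, dotProduct, Nz]

theorem mulVec_zero' (x : Fin (m+1) → ℤ) : M.mulVec x 0 = M 0 0 * x 0 + rw0 M x := by
  simp only [Matrix.mulVec, dotProduct, rw0]
  rw [Fin.sum_univ_succ, Fin.sum_univ_succ (f := fun j => if j = 0 then 0 else M 0 j * x j)]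
  simp [Fin.succ_ne_zero]

theorem mulVec_pos' {i : Fin (m+1)} (hi : i ≠ 0) (x : Fin (m+1) → ℤ) :
    M.mulVec x i = x 0 * col M i + (Nz M).mulVec x i := by
  simp only [Matrix.mulVec, dotProduct, Nz, col]
  rw [Fin.sum_univ_succ, Fin.sum_univ_succ (f := fun j => (if i = 0 ∨ j = 0 then 0 else M i j) * x j)]
  simp [Fin.succ_ne_zero, hi, mul_comm]

theorem Nz_congr {x y : Fin (m+1) → ℤ} (h : ∀ i, i ≠ 0 → x i = y i) :
    (Nz M).mulVec x = (Nz M).mulVec y := by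
  funext i
  simp only [Matrix.mulVec, dotProduct, Nz]
  refine Finset.sum_congr rfl fun j _ => ?_
  by_cases hj : j = 0
  · simp [hj]
  · rw [h j hj]

theorem rw0_congr {x y : Fin (m+1) → ℤ} (h : ∀ i, i ≠ 0 → x i = y i) : rw0 M x = rw0 M y := by
  unfold rw0
  refine Finset.sum_congr rfl fun j _ => ?_
  by_cases hj : j = 0
  · simp [hj]
  · rw [h j hj]

theorem qq_congr {x y : Fin (m+1) → ℤ} (s : ℕ) (h : ∀ i, i ≠ 0 → x i = y i) :
    qq M s x = qq M s y := by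
  cases s with
  | zero => rw [qq_zero, qq_zero, rw0_congr h]
  | succ s => rw [qq_succ, qq_succ, Nz_congr h]

theorem qq_mulVec (s : ℕ) (v : Fin (m+1) → ℤ) :
    qq M s (M.mulVec v) = v 0 * cc M s + qq M (s+1) v := by
  rw [qq_congr (y := v 0 • col M + (Nz M).mulVec v) s fun i hi => by
    rw [mulVec_pos' hi]; rfl, qq_add, qq_smul, qq_succ]
  rfl

theorem abs_rw0_le (hM : ∀ i j, 0 ≤ M i j) {x y : Fin (m+1) → ℤ}
    (h : ∀ i, i ≠ 0 → |x i| ≤ y i) : |rw0 M x| ≤ rw0 M y := by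
  unfold rw0
  refine (Finset.abs_sum_le_sum_abs _ _).trans (Finset.sum_le_sum fun j _ => ?_)
  by_cases hj : j = 0
  · simp [hj]
  · rw [if_neg hj, if_neg hj, abs_mul, abs_of_nonneg (hM 0 j)]
    exact mul_le_mul_of_nonneg_left (h j hj) (hM 0 j)

theorem abs_Nz_le (hM : ∀ i j, 0 ≤ M i j) {x y : Fin (m+1) → ℤ}
    (h : ∀ i, i ≠ 0 → |x i| ≤ y i) (i : Fin (m+1)) :
    |(Nz M).mulVec x i| ≤ (Nz M).mulVec y i := by
  simp only [Matrix.mulVec, dotProduct, Nz]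
  refine (Finset.abs_sum_le_sum_abs _ _).trans (Finset.sum_le_sum fun j _ => ?_)
  by_cases hj : j = 0
  · simp [hj]
  · by_cases hi : i = 0
    · simp [hi]
    · rw [if_neg (by tauto), abs_mul, abs_of_nonneg (hM i j)]
      exact mul_le_mul_of_nonneg_left (h j hj) (hM i j)

theorem abs_qq_le (hM : ∀ i j, 0 ≤ M i j) (s : ℕ) : ∀ {x y : Fin (m+1) → ℤ},
    (∀ i, i ≠ 0 → |x i| ≤ y i) → |qq M s x| ≤ qq M s y := by
  induction s with
  | zero => intro x y h; rw [qq_zero, qq_zero]; exact abs_rw0_le hM h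
  | succ s ih =>
    intro x y h
    rw [qq_succ, qq_succ]
    exact ih fun i _ => abs_Nz_le hM h i

theorem col_nonneg (hM : ∀ i j, 0 ≤ M i j) (i : Fin (m+1)) : 0 ≤ col M i := by
  unfold col
  split_ifs
  · exact le_rfl
  · exact hM _ _

theorem cc_nonneg (hM : ∀ i j, 0 ≤ M i j) (s : ℕ) : 0 ≤ cc M s :=
  (abs_nonneg _).trans (abs_qq_le hM s fun i _ => (abs_of_nonneg (col_nonneg hM i)).le)

theorem CC_nonneg (hM : ∀ i j, 0 ≤ M i j) (ν s : ℕ) : 0 ≤ CC M ν s :=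
  Finset.sum_nonneg fun l _ => cc_nonneg hM l

theorem qq_ge (h : Nz M ^ ν = 0) {s : ℕ} (hs : ν ≤ s) (x : Fin (m+1) → ℤ) : qq M s x = 0 := by
  unfold qq
  obtain ⟨k, rfl⟩ := Nat.exists_eq_add_of_le hs
  rw [pow_add, h, zero_mul, Matrix.zero_mulVec]
  simp [rw0]

theorem cc_ge (h : Nz M ^ ν = 0) {s : ℕ} (hs : ν ≤ s) : cc M s = 0 := qq_ge h hs _

theorem CC_ge {s : ℕ} (hs : ν ≤ s) : CC M ν s = 0 := by
  unfold CC
  rw [Finset.Ico_eq_empty_of_le hs, Finset.sum_empty]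

theorem CC_succ (h : Nz M ^ ν = 0) (s : ℕ) : CC M ν s = cc M s + CC M ν (s+1) := by
  rcases lt_or_ge s ν with hs | hs
  · exact Finset.sum_eq_sum_Ico_succ_bot hs _
  · rw [CC_ge hs, CC_ge (by omega), cc_ge h hs]; rfl

theorem CC_le (hM : ∀ i j, 0 ≤ M i j) (h : Nz M ^ ν = 0) (s : ℕ) : CC M ν s ≤ CC M ν 0 := by
  induction s with
  | zero => exact le_rfl
  | succ s ih =>
    have h1 := CC_succ h s
    have h2 := cc_nonneg hM s
    linarith

theorem cc_le (hM : ∀ i j, 0 ≤ M i j) (h : Nz M ^ ν = 0) (s : ℕ) : cc M s ≤ CC M ν 0 := by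
  have h1 := CC_succ h s
  have h2 := CC_nonneg hM ν (s+1)
  have h3 := CC_le hM h s
  linarith

/-- the forms separate the vectors without coordinate `0` -/
theorem eq_zero_of_qq (hdet : M.det ≠ 0) (h : Nz M ^ ν = 0) {v : Fin (m+1) → ℤ} (h0 : v 0 = 0)
    (hq : ∀ s, qq M s v = 0) : v = 0 := by
  have key : ∀ k : ℕ, ∀ v : Fin (m+1) → ℤ, v 0 = 0 → (∀ s, qq M s v = 0) →
      (M ^ k).mulVec v = (Nz M ^ k).mulVec v := by
    intro k
    induction k with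
    | zero => intro v _ _; rw [pow_zero, pow_zero]
    | succ k ih =>
      intro v h0 hq
      have h1 : M.mulVec v = (Nz M).mulVec v := by
        funext i
        by_cases hi : i = 0
        · rw [hi, mulVec_zero', Nz_zero, h0, ← qq_zero, hq 0]; simp
        · rw [mulVec_pos' hi, h0]; simp
      rw [pow_succ, pow_succ, ← Matrix.mulVec_mulVec, ← Matrix.mulVec_mulVec, h1]
      exact ih _ (Nz_zero v) fun s => by rw [← qq_succ]; exact hq _
  have h1 := key ν v h0 hq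
  rw [h, Matrix.zero_mulVec] at h1
  exact Matrix.eq_zero_of_mulVec_eq_zero (by rw [Matrix.det_pow]; exact pow_ne_zero _ hdet) h1

/-! ### heights -/

section ht
variable {φ : Fin (m+1) → ℝ} {β : ℝ}

theorem hh_M (hβ : ∀ j, ∑ i, φ i * (M i j : ℝ) = β * φ j) (x : Fin (m+1) → ℤ) :
    hh φ (M.mulVec x) = β * hh φ x := by
  simp only [hh, Matrix.mulVec, dotProduct, Int.cast_sum, Int.cast_mul, Finset.mul_sum]
  rw [Finset.sum_comm]
  refine Finset.sum_congr rfl fun j _ => ?_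
  rw [← mul_assoc, ← hβ j, Finset.sum_mul]
  exact Finset.sum_congr rfl fun i _ => by ring

theorem hh_smul' (c : ℤ) (x : Fin (m+1) → ℤ) : hh φ (c • x) = c * hh φ x := by
  simp only [hh, Pi.smul_apply, smul_eq_mul, Int.cast_mul, Finset.mul_sum]
  exact Finset.sum_congr rfl fun i _ => by ring

theorem M_dec (x : Fin (m+1) → ℤ) :
    M.mulVec x = (M 0 0 * x 0 + rw0 M x) • ev 0 + (x 0 • col M + (Nz M).mulVec x) := by
  funext i
  by_cases hi : i = 0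
  · rw [hi, mulVec_zero']
    simp [ev, Nz_zero, col]
  · rw [mulVec_pos' hi]
    simp [ev, hi]

/-- the height of a vector without coordinate `0` -/
theorem hh_Nz (hβ : ∀ j, ∑ i, φ i * (M i j : ℝ) = β * φ j) {x : Fin (m+1) → ℤ} (h0 : x 0 = 0) :
    β * hh φ x = φ 0 * (qq M 0 x : ℝ) + hh φ ((Nz M).mulVec x) := by
  rw [← hh_M hβ, M_dec, h0, hh_add, hh_smul', hh_ev, zero_smul, zero_add, mul_zero, zero_add,
    qq_zero]
  ring

theorem hh_small (hφ : 0 < φ 0) (hβ1 : 1 < β) (hβ : ∀ j, ∑ i, φ i * (M i j : ℝ) = β * φ j) {A : ℝ}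
    (hA : 0 ≤ A) (n : ℕ) : ∀ x : Fin (m+1) → ℤ, (Nz M ^ n).mulVec x = 0 → x 0 = 0 →
    (∀ s, |(qq M s x : ℝ)| ≤ A) → (β - 1) * |hh φ x| ≤ φ 0 * A := by
  induction n with
  | zero =>
    intro x h _ _
    rw [pow_zero, Matrix.one_mulVec] at h
    rw [h, hh_zero, abs_zero, mul_zero]
    positivity
  | succ n ih =>
    intro x h h0 hq
    have h1 := ih ((Nz M).mulVec x) (by rw [Matrix.mulVec_mulVec, ← pow_succ]; exact h)
      (Nz_zero x) (fun s => by rw [← qq_succ]; exact hq _)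
    have h2 := hh_Nz hβ h0
    have h3 : β * |hh φ x| ≤ φ 0 * A + |hh φ ((Nz M).mulVec x)| := by
      have h4 : β * |hh φ x| = |β * hh φ x| := by
        rw [abs_mul, abs_of_pos (by linarith : (0:ℝ) < β)]
      rw [h4, h2]
      refine (abs_add_le _ _).trans ?_
      rw [abs_mul, abs_of_pos hφ]
      have := mul_le_mul_of_nonneg_left (hq 0) hφ.le
      linarith
    have h5 : β * ((β - 1) * |hh φ x|) ≤ β * (φ 0 * A) := by
      have := mul_le_mul_of_nonneg_left h3 (by linarith : (0:ℝ) ≤ β - 1)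
      nlinarith
    exact le_of_mul_le_mul_left h5 (by linarith)

end ht

/-- heights for an acyclic matrix -/
structure Hd (M : Matrix (Fin (m+1)) (Fin (m+1)) ℤ) (ν : ℕ) (φ : Fin (m+1) → ℝ) (β : ℝ) :
    Prop where
  ac : Ac M ν
  pos : ∀ i, 0 < φ i
  eig : ∀ j, ∑ i, φ i * (M i j : ℝ) = β * φ j

section hd
variable {φ : Fin (m+1) → ℝ} {β : ℝ}

theorem Ac.det_ne (h : Ac M ν) : M.det ≠ 0 := by
  rcases h.det with h | h <;> rw [h] <;> norm_num

theorem Ac.W0 (h : Ac M ν) : 0 ≤ CC M ν 0 := CC_nonneg h.nn _ _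

theorem Hd.beta_ge (h : Hd M ν φ β) : (M 0 0 : ℝ) ≤ β := by
  have h0 := h.pos 0
  have h1 := h.eig 0
  have h2 : φ 0 * (M 0 0 : ℝ) ≤ ∑ i, φ i * (M i 0 : ℝ) :=
    Finset.single_le_sum (f := fun i => φ i * (M i 0 : ℝ))
      (fun i _ => mul_nonneg (h.pos i).le (by exact_mod_cast h.ac.nn i 0)) (Finset.mem_univ 0)
  rw [h1, mul_comm] at h2
  exact le_of_mul_le_mul_right h2 h0

theorem Hd.dom (h : Hd M ν φ β) : 8 * ((CC M ν 0 : ℝ) + 1) ≤ (M 0 0 : ℝ) := by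
  exact_mod_cast h.ac.dom

theorem Hd.W0 (h : Hd M ν φ β) : (0:ℝ) ≤ (CC M ν 0 : ℝ) := by exact_mod_cast h.ac.W0

theorem Hd.beta_one (h : Hd M ν φ β) : 1 < β := by
  have := h.beta_ge
  have := h.dom
  have := h.W0
  linarith

theorem Hd.small (h : Hd M ν φ β) {x : Fin (m+1) → ℤ} (h0 : x 0 = 0) {A : ℤ} (hA : 0 ≤ A)
    (hq : ∀ s, |qq M s x| ≤ A) : (8 * (CC M ν 0 : ℝ) + 7) * |hh φ x| ≤ φ 0 * (A : ℝ) := by
  have h1 := hh_small (h.pos 0) h.beta_one h.eig (A := A) (by exact_mod_cast hA) ν x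
    (by rw [h.ac.nil, Matrix.zero_mulVec]) h0 (fun s => by exact_mod_cast hq s)
  have h2 := h.beta_ge
  have h3 := h.dom
  refine le_trans (mul_le_mul_of_nonneg_right ?_ (abs_nonneg _)) h1
  linarith

/-- vectors without coordinate `0` which are smaller than the column -/
theorem Hd.small_col (h : Hd M ν φ β) {x : Fin (m+1) → ℤ} (h0 : x 0 = 0)
    (hq : ∀ i, i ≠ 0 → |x i| ≤ col M i) : 8 * |hh φ x| ≤ φ 0 := by
  have h1 := h.small h0 h.ac.W0 (fun s => (abs_qq_le h.ac.nn s hq).trans (cc_le h.ac.nn h.ac.nil s))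
  have h2 := h.W0
  have h3 := h.pos 0
  have h4 : (8 * (CC M ν 0 : ℝ) + 7) * (8 * |hh φ x|) ≤ (8 * (CC M ν 0 : ℝ) + 7) * φ 0 := by
    nlinarith
  exact le_of_mul_le_mul_left h4 (by linarith)

theorem Hd.beta_le (h : Hd M ν φ β) : 8 * β ≤ 8 * (M 0 0 : ℝ) + 1 := by
  have h0 := h.pos 0
  have h1 : β * φ 0 = (M 0 0 : ℝ) * φ 0 + hh φ (col M) := by
    rw [← h.eig 0]
    simp only [hh, col]
    rw [Fin.sum_univ_succ, Fin.sum_univ_succ (f := fun i => φ i * ((if i = 0 then 0 else M i 0 : ℤ) : ℝ))]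
    simp [Fin.succ_ne_zero]
    ring
  have h2 := h.small_col (x := col M) (by simp [col])
    (fun i _ => (abs_of_nonneg (col_nonneg h.ac.nn i)).le)
  have h3 := le_abs_self (hh φ (col M))
  have h4 : (8 * β) * φ 0 ≤ (8 * (M 0 0 : ℝ) + 1) * φ 0 := by linarith
  exact le_of_mul_le_mul_right h4 h0

/-- the coordinate `0` is controlled by the height -/
theorem Hd.coord (h : Hd M ν φ β) {v : Fin (m+1) → ℤ} {A : ℤ} (hA : 0 ≤ A)
    (hq : ∀ s, |qq M s v| ≤ A) (hv : 8 * |hh φ v| ≤ 5 * φ 0) :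
    8 * (8 * CC M ν 0 + 7) * |v 0| ≤ 5 * (8 * CC M ν 0 + 7) + 8 * A := by
  have h0 := h.pos 0
  obtain ⟨w, hw⟩ : ∃ w : Fin (m+1) → ℤ, w = v - v 0 • ev 0 := ⟨_, rfl⟩
  have hw0 : w 0 = 0 := by rw [hw]; simp [ev]
  have hwq : ∀ s, |qq M s w| ≤ A := by
    intro s
    rw [qq_congr (y := v) s fun i hi => by rw [hw]; simp [ev, hi]]
    exact hq s
  have h1 := h.small hw0 hA hwq
  have h2 : hh φ v = (v 0 : ℝ) * φ 0 + hh φ w := by
    rw [hw, hh_sub, hh_smul', hh_ev]; ring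
  have h3 : |(v 0 : ℝ)| * φ 0 ≤ |hh φ v| + |hh φ w| := by
    have h8 : |(v 0 : ℝ)| * φ 0 = |(v 0 : ℝ) * φ 0| := by rw [abs_mul, abs_of_pos h0]
    have : (v 0 : ℝ) * φ 0 = hh φ v - hh φ w := by rw [h2]; ring
    rw [h8, this]
    exact abs_sub _ _
  have h4 := h.W0
  have h5 : (8 * (8 * (CC M ν 0 : ℝ) + 7) * |(v 0 : ℝ)|) * φ 0 ≤
      (5 * (8 * (CC M ν 0 : ℝ) + 7) + 8 * (A : ℝ)) * φ 0 := by
    have h6 := mul_le_mul_of_nonneg_left h3 (by linarith : (0:ℝ) ≤ 8 * (8 * (CC M ν 0 : ℝ) + 7))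
    have h7 := mul_le_mul_of_nonneg_left hv (by linarith : (0:ℝ) ≤ 8 * (CC M ν 0 : ℝ) + 7)
    nlinarith
  have h6 := le_of_mul_le_mul_right h5 h0
  exact_mod_cast h6

end hd

end Pool.Agent.Helper43K9.AC
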