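import Pool.Agent.Helper43K9.AC.AllC
import Pool.Agent.Helper65K9.PSC.DecMain

/-!
Coincidences for companion matrices in all letter orders. The proofs are those of helper65 in
`Pool/Agent/Helper65K9/PSC` (`abstract`, `dom_semi`, `dec_semi`) with the common edges as conclusion.
-/

set_option autoImplicit false

namespace Pool.Agent.Helper43K9.AC
open Pool.Agent.H812R2.PI Pool.Agent.Y316.Pisot Pool.Agent.Helper65K9.PSC
open Pool.Agent.R889.PZ (Coinc)
open scoped BigOperators

variable {m : ℕ}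

/-- the abstract theorem: `l = t₀ :: l₀ = l₁ ++ [t₁]` -/
theorem abstractC {l l₀ l₁ : List (Fin (m+1) → List (Fin (m+1)))}
    {t₀ t₁ : Fin (m+1) → List (Fin (m+1))} (h₀ : l = t₀ :: l₀) (h₁ : l = l₁ ++ [t₁])
    (hl : LvL l) {p₀ q₀ p₁ q₁ : ℕ} (ht₀ : Lv t₀ p₀ q₀) (hpq₀ : 3 ≤ max p₀ q₀)
    (ht₁ : Lv t₁ p₁ q₁) (hpq₁ : 3 ≤ max p₁ q₁)
    (P : PD (inc (compList l))) (hdet : IsUnit (inc (compList l)).det)
    (hle : ∀ i, P.ell i ≤ P.ell 0) (hle₀ : ∀ i, pull P.ell t₀ i ≤ pull P.ell t₀ 0)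
    (hle₁ : ∀ i, pull P.ell (compList l₁) i ≤ pull P.ell (compList l₁) 0)
    (hzf : ∃ H < 2 * P.ell 0, ∀ n b, ZF P.ell H (compList ((List.replicate (n+1) l).flatten) b))
    (hzf₀ : ∃ H < 2 * pull P.ell t₀ 0, ∀ n a,
      ZF (pull P.ell t₀) H (compList (l₀ ++ (List.replicate (n+1) l).flatten) a))
    (hex : ∀ r, P.lam * |hh P.ell r| ≤ (((inc t₁ 0 0 : ℤ) : ℝ) - 1) * pull P.ell (compList l₁) 0 →
      ∃ n₀, ∀ n ≥ n₀, Ex P.ell ((List.replicate n l).flatten) r) :
    ∀ a b v, 0 < P.OV (0, a) (v, b) → ∃ n, Cm (compList l) n a b v := by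
  have _hne := hl.ne
  have hlam : 0 < P.lam := lt_trans one_pos P.lam_gt
  intro a b v hov
  -- the overlap
  obtain ⟨δ, hδ, P0, hP0, hP1, hP2, hP3⟩ : ∃ δ : ℝ, 0 < δ ∧ ∃ P0 : ℝ, 0 ≤ P0 ∧ hh P.ell v ≤ P0 ∧
      P0 + δ ≤ P.ell a ∧ P0 + δ ≤ hh P.ell v + P.ell b := by
    unfold PD.OV ovl at hov
    simp only [ht_zero, zero_add] at hov
    rw [ht_eq] at hov
    rcases lt_max_iff.1 hov with h | h
    · exact absurd h (lt_irrefl _)
    · refine ⟨_, h, max 0 (hh P.ell v), le_max_left _ _, le_max_right _ _, ?_, ?_⟩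
      · have := min_le_left (P.ell a) (hh P.ell v + P.ell b)
        linarith
      · have := min_le_right (P.ell a) (hh P.ell v + P.ell b)
        linarith
  obtain ⟨n2, hn2⟩ : ∃ n2 : ℕ, 4 * pull P.ell t₀ 0 ≤ P.lam ^ n2 * δ := by
    have h2 : Filter.Tendsto (fun n : ℕ => P.lam ^ n * δ) Filter.atTop Filter.atTop :=
      (tendsto_pow_atTop_atTop_of_one_lt P.lam_gt).atTop_mul_const hδ
    exact (h2.eventually (Filter.eventually_ge_atTop (4 * pull P.ell t₀ 0))).exists
  obtain ⟨n, hn⟩ : ∃ n, n = n2 + 2 := ⟨_, rfl⟩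
  have hn3 : 4 * pull P.ell t₀ 0 ≤ P.lam ^ n * δ := by
    refine hn2.trans (mul_le_mul_of_nonneg_right ?_ hδ.le)
    exact pow_le_pow_right₀ P.lam_gt.le (by omega)
  -- the list
  have hsplit : (List.replicate n l).flatten = t₀ :: (l₀ ++ (List.replicate (n2+1) l).flatten) := by
    rw [hn, flatten_succ]
    conv_lhs => rw [h₀]
    rw [List.cons_append, ← h₀]
  obtain ⟨W, hW⟩ : ∃ W, W = compList (l₀ ++ (List.replicate (n2+1) l).flatten) := ⟨_, rfl⟩
  have hcomp : iter (compList l) n = comp t₀ W := by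
    rw [← compList_flatten, hsplit, hW]; rfl
  have hψ : ∀ v, hh (pull P.ell t₀) ((inc W).mulVec v) = P.lam ^ n * hh P.ell v := by
    intro v
    rw [← hh_mulVec, Matrix.mulVec_mulVec, ← inc_comp, ← hcomp, inc_iter]
    have := ht_pow_mulVec P n v
    rw [ht_eq, ht_eq] at this
    exact this
  have hψa : ∀ c, hh (pull P.ell t₀) (ab (W c)) = P.lam ^ n * P.ell c := by
    intro c
    rw [ab_subst, hψ, hh_ev]
  obtain ⟨H, hH, hzf⟩ := hzf
  obtain ⟨H', hH', hzf₀⟩ := hzf₀
  have hlamn : 0 < P.lam ^ n := pow_pos hlam n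
  have hV : ZF P.ell H (iter (compList l) n b) := by
    have := hzf (n2 + 1) b
    rw [compList_flatten] at this
    rw [hn]
    exact this
  have hVh : ∀ v, hh P.ell ((inc (iter (compList l) n)).mulVec v) = P.lam ^ n * hh P.ell v := by
    intro v
    rw [inc_iter]
    have := ht_pow_mulVec P n v
    rw [ht_eq, ht_eq] at this
    exact this
  have hVab : ∀ c, hh P.ell (ab (iter (compList l) n c)) = P.lam ^ n * P.ell c := by
    intro c
    rw [ab_subst, hVh, hh_ev]
  obtain ⟨e, he, f, hf, he2, hf2, hef⟩ := search3 P.ell_pos hle ht₀ hpq₀ hle₀ hH hH'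
    (x' := 0) (y := (inc (iter (compList l) n)).mulVec v) (W := W a)
    (V := iter (compList l) n b) (by rw [hW]; exact hzf₀ n2 a) hV (P.lam ^ n * P0)
    (by rw [hh_zero]; exact mul_nonneg hlamn.le hP0)
    (by rw [hVh]; exact mul_le_mul_of_nonneg_left hP1 hlamn.le)
    (by
      rw [hh_zero, hψa, zero_add]
      have := mul_le_mul_of_nonneg_left hP2 hlamn.le
      linarith)
    (by
      rw [hVh, hVab]
      have := mul_le_mul_of_nonneg_left hP3 hlamn.le
      linarith)
  -- the second part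
  obtain ⟨y, hy⟩ : ∃ y, y = f.1 - e.1 := ⟨_, rfl⟩
  rw [← hy] at hef
  obtain ⟨n1, hn1⟩ : ∃ n1 : ℕ, Co (iter (compList l) n1) y := by
    have hT : ∀ r, ∃ n₀ : ℕ, P.lam * |hh P.ell r| ≤
        (((inc t₁ 0 0 : ℤ) : ℝ) - 1) * pull P.ell (compList l₁) 0 →
        ∀ n ≥ n₀, Ex P.ell ((List.replicate n l).flatten) r := by
      intro r
      by_cases hr : P.lam * |hh P.ell r| ≤
        (((inc t₁ 0 0 : ℤ) : ℝ) - 1) * pull P.ell (compList l₁) 0
      · obtain ⟨n₀, h⟩ := hex r hr
        exact ⟨n₀, fun _ => h⟩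
      · exact ⟨0, fun h => absurd h hr⟩
    choose g hg using hT
    obtain ⟨N, hN⟩ : ∃ N, N = g y + g (-y) + g (y - ev 0) + g (-y - ev 0) := ⟨_, rfl⟩
    refine ⟨N + 1, ?_⟩
    have hsplit1 : (List.replicate (N+1) l).flatten =
        ((List.replicate N l).flatten ++ l₁) ++ [t₁] := by
      rw [flatten_succ', List.append_assoc, ← h₁]
    have hpull1 : ∀ i, pull P.ell (compList ((List.replicate N l).flatten ++ l₁)) i =
        P.lam ^ N * pull P.ell (compList l₁) i := by
      intro i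
      rw [compList_append, pull_comp, compList_flatten]
      have : pull P.ell (iter (compList l) N) = fun j => P.lam ^ N * P.ell j := by
        funext j; exact pull_iter P N j
      rw [this, pull_smul_fun]
    have hpull2 : pull P.ell (compList (((List.replicate N l).flatten ++ l₁) ++ [t₁])) =
        fun j => P.lam ^ (N+1) * P.ell j := by
      rw [← hsplit1, compList_flatten]
      funext j; exact pull_iter P (N+1) j
    have hlamN : 0 < P.lam ^ N := pow_pos hlam N
    have hlv : LvL ((List.replicate N l).flatten ++ l₁) := by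
      intro t ht
      rw [List.mem_append] at ht
      rcases ht with h | h
      · exact hl t (mem_flatten_replicate h)
      · exact hl t (by rw [h₁]; simp [h])
    have := start (φ := P.ell) P.ell_pos (l := (List.replicate N l).flatten ++ l₁) (t := t₁) hlv
      ht₁ hpq₁
      (by
        intro i
        rw [hpull1, hpull1]
        exact mul_le_mul_of_nonneg_left (hle₁ i) hlamN.le)
      (y := y) (fun r => r = y ∨ r = -y ∨ r = y - ev 0 ∨ r = -y - ev 0)
      ⟨by simp, by simp, by simp, by simp⟩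
      (by
        intro r hr hb
        rw [hpull1, hpull2, hh_smul_fun, abs_mul, abs_of_pos (pow_pos hlam (N+1))] at hb
        have hb2 : P.lam * |hh P.ell r| ≤
            (((inc t₁ 0 0 : ℤ) : ℝ) - 1) * pull P.ell (compList l₁) 0 := by
          refine le_of_mul_le_mul_left ?_ hlamN
          rw [pow_succ] at hb
          linarith
        rw [← hsplit1]
        refine hg r hb2 (N + 1) ?_
        rcases hr with h | h | h | h <;> rw [h] <;> omega)
      (by
        rw [hpull2, hh_smul_fun, abs_mul, abs_of_pos (pow_pos hlam (N+1))]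
        have := mul_le_mul_of_nonneg_left hef (pow_pos hlam (N+1)).le
        linarith)
    rw [← hsplit1, compList_flatten] at this
    exact this
  obtain ⟨g, hg1, hg2⟩ := hn1
  refine ⟨n1 + n, (g.1 + (inc (iter (compList l) n1)).mulVec e.1, g.2), ?_, ?_⟩
  · rw [iter_add']
    refine JComp_mem0 (S := iter (compList l) n1) (T := iter (compList l) n) (g := e) ?_ (h := g) ?_
    · have h1 := he
      rw [Matrix.mulVec_zero] at h1
      rw [hcomp]
      exact h1
    · rw [he2]; exact hg1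
  · rw [iter_add']
    refine JComp_mem1 (S := iter (compList l) n1) (T := iter (compList l) n) (g := e) (f := f) hf
      (h := g) ?_
    rw [hf2, ← hy]
    exact hg2


/-- compositions of dominated companion substitutions with Pisot matrix -/
theorem dom_coinc (hm : 1 ≤ m) {l : List (Fin (m+1) → List (Fin (m+1)))} (hne : l ≠ [])
    (hD : DmL l) (hM : PisotMat (inc (compList l))) : Coinc (compList l) := by
  have hnn : ∀ i j, 0 ≤ inc (compList l) i j := fun i j => by unfold inc; positivity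
  obtain ⟨lam, u, hlam, hu, husum⟩ := exists_u (inc (compList l)) hnn hM
  obtain ⟨P, -, -⟩ := exists_PD (inc (compList l)) hnn hM lam hlam u hu husum
  have hdet : IsUnit (inc (compList l)).det := by
    rcases hM.2.1 with h | h
    · rw [h]; exact isUnit_one
    · rw [h]; exact isUnit_one.neg
  obtain ⟨t₀, l₀, h₀⟩ := List.exists_cons_of_ne_nil hne
  obtain ⟨l₁, t₁, h₁⟩ : ∃ l₁ t₁, l = l₁ ++ [t₁] :=
    ⟨l.dropLast, l.getLast hne, (List.dropLast_append_getLast hne).symm⟩
  have hsg := hD.ell hm hne P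
  have hsgle : sg P.ell ≤ 1 * P.ell 0 := by rw [one_mul]; exact hsg.le
  obtain ⟨a₀, ha₀⟩ := hD t₀ (by rw [h₀]; simp)
  obtain ⟨a₁, ha₁⟩ := hD t₁ (by rw [h₁]; simp)
  obtain ⟨p₀, q₀, hpq₀, hLv₀⟩ := ha₀.cmp.lv hm
  obtain ⟨p₁, q₁, hpq₁, hLv₁⟩ := ha₁.cmp.lv hm
  have h50 := ha₀.five
  have h51 := ha₁.five
  have hD₁ : DmL l₁ := fun t ht => hD t (by rw [h₁]; simp [ht])
  have hs₀ := ha₀.step P.ell_pos le_rfl hsgle
  rw [one_mul] at hs₀
  have hpos₀ : ∀ i, 0 < pull P.ell t₀ i := pull_pos' hLv₀.ne P.ell_pos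
  have hnr : ∀ l' : List (Fin (m+1) → List (Fin (m+1))), DmL l' → ∀ c, NR (compList l' c) := by
    intro l' hl' c
    refine nr_compList (fun t ht => ?_) c
    obtain ⟨a, ha⟩ := hl' t ht
    exact ⟨a, ha.cmp, by have := ha.five; omega⟩
  refine gcc_of_cm P ?_
  refine abstractC h₀ h₁ (hD.lv hm) hLv₀ ?_ hLv₁ ?_ P hdet (le_of_sg P.ell_pos hsg.le)
    (le_of_sg hpos₀ hs₀.le) ?_ ?_ ?_ ?_
  · rcases le_total p₀ q₀ with h | h
    · rw [max_eq_right h]; omega
    · rw [max_eq_left h]; omega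
  · rcases le_total p₁ q₁ with h | h
    · rw [max_eq_right h]; omega
    · rw [max_eq_left h]; omega
  · refine le_of_sg ((hD₁.lv hm).pos P.ell_pos) ?_
    have := (hD₁.le hm P.ell_pos le_rfl hsgle).1
    rwa [one_mul] at this
  · refine ⟨sg P.ell, by linarith [P.ell_pos 0], fun n b => ?_⟩
    refine (hnr _ ?_ b).zf P.ell_pos
    intro t ht
    exact hD t (mem_flatten_replicate ht)
  · refine ⟨sg (pull P.ell t₀), by linarith [hpos₀ 0], fun n a => ?_⟩
    refine (hnr _ ?_ a).zf hpos₀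
    intro t ht
    rw [List.mem_append] at ht
    rcases ht with h | h
    · exact hD t (by rw [h₀]; simp [h])
    · exact hD t (mem_flatten_replicate h)
  · intro r hr
    obtain ⟨U, hU⟩ := exists_nat_bound r
    refine ⟨(m + 1) * U + 1, fun n hn => ?_⟩
    refine exA hm P.ell_pos hsg _ (fun t ht => hD t (mem_flatten_replicate ht)) r ?_
      (long_bound h₁ P hr (by omega))
    refine ⟨U, 0, by omega, ?_, hU, fun j hj => absurd hj (Nat.not_lt_zero _)⟩
    rw [flatten_length, add_zero]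
    have h7 : 1 ≤ l.length := List.length_pos_iff.2 hne
    calc (m + 1) * U ≤ n := by omega
      _ = n * 1 := (mul_one n).symm
      _ ≤ n * l.length := Nat.mul_le_mul_left _ h7


theorem dec_coinc {a : Fin (m+1) → ℕ} (h : DC a) {l : List (Fin (m+1) → List (Fin (m+1)))}
    (hne : l ≠ []) (hl : CL a l) :
    PisotMat (inc (compList l)) ∧ Coinc (compList l) := by
  obtain ⟨t₀, l₀, h₀⟩ := List.exists_cons_of_ne_nil hne
  obtain ⟨l₁, t₁, h₁⟩ : ∃ l₁ t₁, l = l₁ ++ [t₁] :=
    ⟨l.dropLast, l.getLast hne, (List.dropLast_append_getLast hne).symm⟩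
  have ht₀ : IsCompanion a t₀ := hl t₀ (by rw [h₀]; simp)
  have ht₁ : IsCompanion a t₁ := hl t₁ (by rw [h₁]; simp)
  have hpis : PisotMat (cMat a) := by
    rw [← ht₀.inc]; exact dec_pisIrr h ht₀
  have hnn : ∀ i j, 0 ≤ cMat a i j := by
    intro i j
    rw [← ht₀.inc]
    unfold Pool.Agent.H812R2.PI.inc
    positivity
  have hinc : inc (compList l) = cMat a ^ l.length := inc_compList _ _ fun t ht => (hl t ht).inc
  have hlen : l.length ≠ 0 := fun h => hne (List.length_eq_zero_iff.1 h)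
  have hpisk : PisotMat (inc (compList l)) := by
    rw [hinc]
    exact Pool.Agent.TH100.Pisot.pisotMat_pow _ hnn hpis _ (by omega)
  refine ⟨hpisk, ?_⟩
  obtain ⟨lam, u, hlam, hu, husum⟩ := exists_u (cMat a) hnn hpis
  obtain ⟨Q, -, -⟩ := exists_PD (cMat a) hnn hpis lam hlam u hu husum
  obtain ⟨C, hCM, hCA⟩ := h.exists_ctx
  have hlamQ : 0 < Q.lam := lt_trans one_pos Q.lam_gt
  -- comparison of `Q` and `C`
  have hβ : C.β = Q.lam := by
    have h1 : ∀ j, ∑ i, C.e i * (cMat a i j : ℝ) = C.β * C.e j := by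
      intro j
      have h1 := C.hM (ev j)
      rw [hCM, hh_ev] at h1
      rw [← h1]
      simp [hh, Matrix.mulVec, dotProduct, ev]
    have h2 : ∑ i, C.e i * (Q.lam * Q.u i) = ∑ j, (C.β * C.e j) * Q.u j := by
      simp only [← Q.M_u, ← h1, Finset.mul_sum, Finset.sum_mul]
      rw [Finset.sum_comm]
      exact Finset.sum_congr rfl fun i _ => Finset.sum_congr rfl fun j _ => by ring
    have h3 : 0 < ∑ i, C.e i * Q.u i :=
      Finset.sum_pos (fun i _ => mul_pos (C.e_pos i) (Q.u_pos i)) ⟨0, Finset.mem_univ _⟩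
    have h4 : Q.lam * ∑ i, C.e i * Q.u i = C.β * ∑ i, C.e i * Q.u i := by
      rw [Finset.mul_sum, Finset.mul_sum]
      calc ∑ i, Q.lam * (C.e i * Q.u i) = ∑ i, C.e i * (Q.lam * Q.u i) :=
            Finset.sum_congr rfl fun i _ => by ring
        _ = _ := h2
        _ = _ := Finset.sum_congr rfl fun i _ => by ring
    exact (mul_right_cancel₀ h3.ne' h4).symm
  have hrecQ : ∀ j : Fin (m+1), Q.lam * Q.ell j = a j * Q.ell 0 + nx Q.ell j := by
    intro j
    have h1 := congrFun (pull_eq Q ht₀ 1) j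
    simp only [one_mul, mul_one] at h1
    have h2 : pull Q.ell t₀ j = a j * Q.ell 0 + nx Q.ell j := (ht₀.cmp h.last).pull h.last _ j
    rw [← h2, ← h1]
  have hrecC : ∀ j : Fin (m+1), Q.lam * C.e j = a j + nx C.e j := by
    intro j
    have h1 := C.El_rec j
    rw [C.El_fin, hβ] at h1
    have h2 : C.El ((j : ℕ) + 1) = nx C.e j := by
      unfold nx
      split_ifs with hj
      · rw [hj]
        exact C.El_big (by simp)
      · rw [← C.El_fin, Fin.val_add_one_of_lt (Fin.lt_last_iff_ne_last.2 hj)]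
    rw [h1, h2, hCA, An_fin]
  have hQ : ∀ i, Q.ell i = Q.ell 0 * C.e i := by
    have h1 : ∀ n : ℕ, ∀ j : Fin (m+1), (j : ℕ) = n → Q.ell j = Q.ell 0 * C.e j := by
      intro n
      induction n with
      | zero =>
        intro j hj
        have : j = 0 := Fin.ext (by simpa using hj)
        rw [this, C.e_zero, mul_one]
      | succ n ih =>
        intro j hj
        rcases zero_or_succ j with h2 | ⟨j', h3, h4, h5⟩
        · rw [h2] at hj; simp at hj
        · have h6 := hrecQ j'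
          have h7 := hrecC j'
          rw [ih j' (by omega)] at h6
          unfold nx at h6 h7
          rw [if_neg h3, ← h4] at h6 h7
          linear_combination -h6 + Q.ell 0 * h7
    exact fun i => h1 _ i rfl
  have hfi : ∀ z, 0 ≤ hh C.e z → C.Fi z := fun z hz => C.fi hCM Q hQ hz
  have hE1 := C.El_one_lt
  have hle : ∀ i, Q.ell i ≤ Q.ell 0 := by
    intro i
    rw [hQ i]
    have h1 := C.El_le_one i
    rw [C.El_fin] at h1
    exact mul_le_of_le_one_right (Q.ell_pos 0).le h1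
  have hB : ∀ i, i ≠ 0 → Q.ell i ≤ Q.ell 0 * C.El 1 := by
    intro i hi
    rw [hQ i, ← C.El_fin]
    refine mul_le_mul_of_nonneg_left (C.El_anti' ?_) (Q.ell_pos 0).le
    rcases Nat.eq_zero_or_pos (i : ℕ) with h1 | h1
    · exact absurd (Fin.ext h1) hi
    · exact h1
  have hB0 : 0 ≤ Q.ell 0 * C.El 1 := mul_nonneg (Q.ell_pos 0).le (C.El_nonneg 1)
  have hB2 : 2 * (Q.ell 0 * C.El 1) < 2 * Q.ell 0 := by
    have := mul_lt_mul_of_pos_left hE1 (Q.ell_pos 0)
    linarith
  have hP := PD_pow Q hlen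
  rw [← hinc] at hP
  obtain ⟨P, hP1, hP2⟩ := hP
  have hdet : IsUnit (inc (compList l)).det := by
    rcases hpisk.2.1 with h | h
    · rw [h]; exact isUnit_one
    · rw [h]; exact isUnit_one.neg
  obtain ⟨p₀, q₀, hpq₀, hLv₀⟩ := (ht₀.cmp h.last).lv h.hm
  obtain ⟨p₁, q₁, hpq₁, hLv₁⟩ := (ht₁.cmp h.last).lv h.hm
  have h5 := h.five
  have hCL₁ : CL a l₁ := fun t ht => hl t (by rw [h₁]; simp [ht])
  have hpull₀ : pull Q.ell t₀ = fun j => Q.lam * Q.ell j := by
    have := pull_eq Q ht₀ 1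
    simpa using this
  have hpull₁ := pull_list' Q hCL₁
  refine gcc_of_cm P ?_
  refine abstractC h₀ h₁ (CL.lv h hl) hLv₀ ?_ hLv₁ ?_ P hdet ?_ ?_ ?_ ?_ ?_ ?_
  · rcases le_total p₀ q₀ with h | h
    · rw [max_eq_right h]; omega
    · rw [max_eq_left h]; omega
  · rcases le_total p₁ q₁ with h | h
    · rw [max_eq_right h]; omega
    · rw [max_eq_left h]; omega
  · rw [hP1]; exact hle
  · rw [hP1, hpull₀]
    exact fun i => mul_le_mul_of_nonneg_left (hle i) hlamQ.le
  · rw [hP1, hpull₁]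
    exact fun i => mul_le_mul_of_nonneg_left (hle i) (pow_pos hlamQ _).le
  · rw [hP1]
    refine ⟨2 * (Q.ell 0 * C.El 1), hB2, fun n b => ?_⟩
    refine zf_list h (fun t ht => hl t (mem_flatten_replicate ht)) ?_ hB0 hB b
    intro hcon
    rw [flatten_succ] at hcon
    exact hne (List.append_eq_nil_iff.1 hcon).1
  · rw [hP1, hpull₀]
    refine ⟨2 * (Q.lam * (Q.ell 0 * C.El 1)), ?_, fun n b => ?_⟩
    · have := mul_lt_mul_of_pos_left hB2 hlamQ
      linarith
    · refine zf_list h (fun t ht => ?_) ?_ (mul_nonneg hlamQ.le hB0)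
        (fun i hi => mul_le_mul_of_nonneg_left (hB i hi) hlamQ.le) b
      · rw [List.mem_append] at ht
        rcases ht with h | h
        · exact hl t (by rw [h₀]; simp [h])
        · exact hl t (mem_flatten_replicate h)
      · intro hcon
        have h6 := (List.append_eq_nil_iff.1 hcon).2
        rw [flatten_succ] at h6
        exact hne (List.append_eq_nil_iff.1 h6).1
  · intro r hr
    rw [hP1, hP2, hpull₁] at hr
    have h6 : hh Q.ell r = Q.ell 0 * hh C.e r := by
      rw [← hh_smul_fun]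
      congr 1
      funext i
      exact hQ i
    have h7 : ((inc t₁ 0 0 : ℤ) : ℝ) = C.A 0 := by
      rw [hLv₁.inc00, hCA]
      have h8 := An_fin a 0
      simp only [Fin.val_zero] at h8
      rw [h8, ← hpq₁]
      push_cast
      ring
    have h8 : l.length = l₁.length + 1 := by rw [h₁]; simp
    have h9 : C.β * |hh C.e r| ≤ C.A 0 - 1 := by
      rw [h6, h7, h8, abs_mul, abs_of_pos (Q.ell_pos 0), pow_succ] at hr
      simp only at hr
      refine le_of_mul_le_mul_left ?_ (mul_pos (pow_pos hlamQ l₁.length) (Q.ell_pos 0))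
      rw [hβ]
      linarith
    obtain ⟨n₀, hn₀⟩ := C.gx hfi h9
    refine ⟨n₀, fun n hn => ?_⟩
    rw [hP1]
    refine ex_of_gx Q C hCM hCA hβ hQ n₀ r hn₀ _ ?_
      (fun t ht => hl t (mem_flatten_replicate ht))
    rw [flatten_length]
    calc n₀ ≤ n := hn
      _ = n * 1 := (mul_one n).symm
      _ ≤ n * l.length := Nat.mul_le_mul_left _ (by omega)


end Pool.Agent.Helper43K9.AC
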