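import Pool.Agent.Helper65K9.PSC.Main

/-!
Substitutions with a dominating letter `0` and an acyclic graph of the other letters: definitions and
the statements of the leaves.
-/

set_option autoImplicit false

namespace Pool.Agent.Helper43K9.AC
open Pool.Agent.H812R2.PI Pool.Agent.Y316.Pisot Pool.Agent.Helper65K9.PSC
open scoped BigOperators

variable {m : ℕ}

/-- the block of the letters different from `0` -/
def Nz (M : Matrix (Fin (m+1)) (Fin (m+1)) ℤ) : Matrix (Fin (m+1)) (Fin (m+1)) ℤ :=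
  fun i j => if i = 0 ∨ j = 0 then 0 else M i j

/-- column `0` without the entry `0` -/
def col (M : Matrix (Fin (m+1)) (Fin (m+1)) ℤ) : Fin (m+1) → ℤ := fun i => if i = 0 then 0 else M i 0

/-- `b ⬝ x`, `b` the row `0` without the entry `0` -/
def rw0 (M : Matrix (Fin (m+1)) (Fin (m+1)) ℤ) (x : Fin (m+1) → ℤ) : ℤ :=
  ∑ j, if j = 0 then 0 else M 0 j * x j

/-- `b N^s x` -/
def qq (M : Matrix (Fin (m+1)) (Fin (m+1)) ℤ) (s : ℕ) (x : Fin (m+1) → ℤ) : ℤ :=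
  rw0 M ((Nz M ^ s).mulVec x)

/-- `c_{s+1} = b N^s a` -/
def cc (M : Matrix (Fin (m+1)) (Fin (m+1)) ℤ) (s : ℕ) : ℤ := qq M s (col M)

/-- `∑_{s ≤ l < ν} c_{l+1}` -/
def CC (M : Matrix (Fin (m+1)) (Fin (m+1)) ℤ) (ν s : ℕ) : ℤ := ∑ l ∈ Finset.Ico s ν, cc M l

/-- the hypotheses on the matrix -/
structure Ac (M : Matrix (Fin (m+1)) (Fin (m+1)) ℤ) (ν : ℕ) : Prop where
  nn : ∀ i j, 0 ≤ M i j
  nil : Nz M ^ ν = 0
  dom : 8 * (CC M ν 0 + 1) ≤ M 0 0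
  det : M.det = 1 ∨ M.det = -1

/-- the weight of a vector: `∑_i (∑_{s < ν} (b N^s)_i) |x_i|` over `i ≠ 0` -/
def wt (M : Matrix (Fin (m+1)) (Fin (m+1)) ℤ) (ν : ℕ) (x : Fin (m+1) → ℤ) : ℤ :=
  ∑ s ∈ Finset.range ν, qq M s (fun i => if i = 0 then 0 else |x i|)

/-! ### leaves -/

/-- [PIS] the matrix is unimodular, irreducible and Pisot. Proof: `pisIrr_of_key` (PSC/PisAbs). For
`M u = μ u`, `|μ| ≥ 1`, put `z_s = b N^s u'` (`u'` without the coordinate `0`):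
`μ z_s = u_0 c_{s+1} + z_{s+1}`, so `∑ |z_s| ≤ W |u_0| / (|μ| - 1)`, `|z_0| ≤ W |u_0|`,
`W = CC M ν 0`, hence `|μ| ≥ a_0 - W` if `u_0 ≠ 0` (and `u = 0` if `u_0 = 0`). For
`M x = ν x + α u`, `x_0 = 0`: `y_s = b N^s x`, `ν y_s = y_{s+1} - α z_s`, so
`|α u_0| = |y_0| ≤ |α| ∑ |z_s| < |α u_0|` unless `α u_0 = 0`. -/
def S_PIS : Prop := ∀ (m : ℕ) (M : Matrix (Fin (m+1)) (Fin (m+1)) ℤ) (ν : ℕ), Ac M ν → PisotMat M

/-- [POW] powers of unimodular irreducible Pisot matrices are again unimodular irreducible Pisot.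
(Compare `Pis (M ^ k) (lam ^ k)` in the starting library, MP_e732b0_an.AlmostAllSubstitutions.) -/
def S_POW : Prop := ∀ (m : ℕ) (M : Matrix (Fin (m+1)) (Fin (m+1)) ℤ), (∀ i j, 0 ≤ M i j) → PisotMat M →
  ∀ k : ℕ, 1 ≤ k → PisotMat (M ^ k)

/-- [ZF] factors without the letter `0` are short. Proof: a factor `F` without `0` of `ext t W` has
`ab F ≤ N (ab F') + 2 a` (coordinatewise) for a factor `F'` of `W` without `0` (first for prefixes, with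
`N (ab F') + a`); so for `L` of length `≥ ν` it is `≤ 2 ∑_{t < ν} N^t a`, and
`β h(x) = φ_0 b x + h(N x)` for `x_0 = 0` gives `h(∑ N^t a) ≤ φ_0 W / (β - 1) ≤ φ_0 / 8`. -/
def S_ZF : Prop := ∀ (m : ℕ) (M : Matrix (Fin (m+1)) (Fin (m+1)) ℤ) (ν : ℕ), Ac M ν →
  ∀ (φ : Fin (m+1) → ℝ) (β : ℝ), (∀ i, 0 < φ i) → (∀ j, ∑ i, φ i * (M i j : ℝ) = β * φ j) →
  ∀ L : List (Fin (m+1) → List (Fin (m+1))), (∀ t ∈ L, inc t = M) → ν ≤ L.length →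
    ∀ b, ZF φ (φ 0 / 4) (compList L b)

/-- [STR] pairs of letters `0` in the image of `0`. (1) at any distance `k < a_0`, (2) for
`1 ≤ k` with few letters different from `0` in between (in a stretch `[j k, (j+1) k]` of zeros). -/
def S_STR : Prop := ∀ (m : ℕ) (M : Matrix (Fin (m+1)) (Fin (m+1)) ℤ) (ν : ℕ), Ac M ν →
  ∀ t : Fin (m+1) → List (Fin (m+1)), inc t = M → ∀ k : ℕ,
    ((k : ℤ) < M 0 0 → ∃ x y : Fin (m+1) → ℤ, (x, (0 : Fin (m+1))) ∈ edges 0 (t 0) ∧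
      (y, (0 : Fin (m+1))) ∈ edges 0 (t 0) ∧ y 0 - x 0 = k ∧
      (∀ i, i ≠ 0 → 0 ≤ y i - x i ∧ y i - x i ≤ col M i)) ∧
    (1 ≤ k → (k : ℤ) + CC M ν 0 < M 0 0 → ∃ x y : Fin (m+1) → ℤ,
      (x, (0 : Fin (m+1))) ∈ edges 0 (t 0) ∧ (y, (0 : Fin (m+1))) ∈ edges 0 (t 0) ∧ y 0 - x 0 = k ∧
      (∀ i, i ≠ 0 → 0 ≤ y i - x i ∧ y i - x i ≤ col M i) ∧ wt M ν (y - x) < k)

/-- [DYN] pairs of edges `0` with offset at most three quarters of the length lead to a common edge. -/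
def S_DYN : Prop := ∀ (m : ℕ) (M : Matrix (Fin (m+1)) (Fin (m+1)) ℤ) (ν : ℕ), Ac M ν →
  ∀ (φ : Fin (m+1) → ℝ) (β : ℝ), (∀ i, 0 < φ i) → (∀ j, ∑ i, φ i * (M i j : ℝ) = β * φ j) →
  ∀ v : Fin (m+1) → ℤ, 4 * |hh φ v| ≤ 3 * φ 0 → ∃ n₀ : ℕ,
    ∀ L : List (Fin (m+1) → List (Fin (m+1))), (∀ t ∈ L, inc t = M) → n₀ ≤ L.length →
      Co (compList L) v

/-- [SRCH] long overlapping paths contain a pair of edges `0` with small offset; use `next_edge`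
(PSC/Free) twice: first an edge `0` of `W` at height in `(P + φ_0, P + 2 φ_0 + H]`, then one of `V` within
`(φ_0 + H) / 2` of it. -/
def S_SRCH : Prop := ∀ (m : ℕ) (φ : Fin (m+1) → ℝ), (∀ i, 0 < φ i) → (∀ i, φ i ≤ φ 0) →
  ∀ (W V : List (Fin (m+1))), ZF φ (φ 0 / 4) W → ZF φ (φ 0 / 4) V →
  ∀ (x y : Fin (m+1) → ℤ) (P : ℝ), hh φ x ≤ P → hh φ y ≤ P → P + 8 * φ 0 ≤ hh φ x + hh φ (ab W) →
    P + 8 * φ 0 ≤ hh φ y + hh φ (ab V) →
    ∃ e ∈ edges x W, ∃ f ∈ edges y V, e.2 = 0 ∧ f.2 = 0 ∧ 4 * |hh φ (f.1 - e.1)| ≤ 3 * φ 0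

end Pool.Agent.Helper43K9.AC
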