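import Pool.Agent.Helper43K9.AC.Bas

/-!
Pairs of edges `0` with a small offset lead to a common edge, for all orders of the letters.
-/

set_option autoImplicit false

namespace Pool.Agent.Helper43K9.AC
open Pool.Agent.H812R2.PI Pool.Agent.Y316.Pisot Pool.Agent.Helper65K9.PSC
open scoped BigOperators

variable {m : ℕ} {M : Matrix (Fin (m+1)) (Fin (m+1)) ℤ} {ν : ℕ} {φ : Fin (m+1) → ℝ} {β : ℝ}

/-- a common edge after `n` steps, for all orders of the letters -/
def Good (M : Matrix (Fin (m+1)) (Fin (m+1)) ℤ) (n : ℕ) (v : Fin (m+1) → ℤ) : Prop :=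
  ∀ L : List (Fin (m+1) → List (Fin (m+1))), (∀ t ∈ L, inc t = M) → n ≤ L.length →
    Co (compList L) v

theorem Good.mono {n n' : ℕ} {v : Fin (m+1) → ℤ} (h : Good M n v) (hn : n ≤ n') : Good M n' v :=
  fun L hL hn' => h L hL (hn.trans hn')

theorem inc_ne (hdet : M.det ≠ 0) {t : Fin (m+1) → List (Fin (m+1))} (ht : inc t = M)
    (j : Fin (m+1)) : t j ≠ [] := by
  intro h
  apply hdet
  rw [← ht]
  exact Matrix.det_eq_zero_of_column_eq_zero j fun i => by simp [inc, h]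

theorem compList_ne {L : List (Fin (m+1) → List (Fin (m+1)))} (h : ∀ t ∈ L, ∀ j, t j ≠ []) :
    ∀ j, compList L j ≠ [] := by
  induction L with
  | nil => intro j; simp [compList]
  | cons t L ih =>
    intro j
    have h1 := ih (fun t' h' => h t' (List.mem_cons_of_mem _ h')) j
    obtain ⟨a, w, hw⟩ := List.exists_cons_of_ne_nil h1
    simp only [compList, comp]
    rw [hw, ext_cons]
    intro hcon
    exact h t (List.mem_cons_self ..) a (List.append_eq_nil_iff.1 hcon).1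

theorem Good.zero (hdet : M.det ≠ 0) (n : ℕ) : Good M n 0 := fun _ hL _ =>
  co_zero (compList_ne (fun t ht => inc_ne hdet (hL t ht)) 0)

theorem Good.step {n : ℕ} {v : Fin (m+1) → ℤ} (h : ∀ t : Fin (m+1) → List (Fin (m+1)), inc t = M →
    ∃ x y : Fin (m+1) → ℤ, (x, (0 : Fin (m+1))) ∈ edges 0 (t 0) ∧
      (y, (0 : Fin (m+1))) ∈ edges 0 (t 0) ∧ Good M n (M.mulVec v + (y - x))) :
    Good M (n+1) v := by
  intro L hL hn
  have hne : L ≠ [] := by rintro rfl; simp at hn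
  obtain ⟨L', t, rfl⟩ : ∃ L' t, L = L' ++ [t] :=
    ⟨L.dropLast, L.getLast hne, (List.dropLast_append_getLast hne).symm⟩
  rw [List.length_append, List.length_singleton] at hn
  have ht : inc t = M := hL t (by simp)
  obtain ⟨x, y, hx, hy, hg⟩ := h t ht
  rw [compList_snoc]
  refine co_child (y := M.mulVec v + y) hx ?_ ?_
  · have := JComp_mem_translate (t := M.mulVec v) hy
    rw [zero_add] at this
    rw [ht, add_comm (M.mulVec v) y]
    exact this
  · have := hg L' (fun t' h' => hL t' (by simp [h'])) (by omega)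
    rwa [add_sub_assoc]

/-! ### moves -/

theorem move1 (hs : S_STR) (h : Ac M ν) {t : Fin (m+1) → List (Fin (m+1))} (ht : inc t = M)
    {k : ℤ} (hk : |k| < M 0 0) :
    ∃ x y : Fin (m+1) → ℤ, (x, (0 : Fin (m+1))) ∈ edges 0 (t 0) ∧
      (y, (0 : Fin (m+1))) ∈ edges 0 (t 0) ∧ (y - x) 0 = k ∧
      (∀ i, i ≠ 0 → |(y - x) i| ≤ col M i) := by
  obtain ⟨x, y, hx, hy, h0, hi⟩ := (hs m M ν h t ht k.natAbs).1
    (by rw [Int.natCast_natAbs]; exact hk)
  rw [Int.natCast_natAbs] at h0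
  rcases le_total 0 k with hk0 | hk0
  · refine ⟨x, y, hx, hy, ?_, fun i hi' => ?_⟩
    · rw [Pi.sub_apply, h0, abs_of_nonneg hk0]
    · obtain ⟨h1, h2⟩ := hi i hi'
      rw [Pi.sub_apply, abs_of_nonneg h1]
      exact h2
  · refine ⟨y, x, hy, hx, ?_, fun i hi' => ?_⟩
    · rw [Pi.sub_apply]
      rw [abs_of_nonpos hk0] at h0
      omega
    · obtain ⟨h1, h2⟩ := hi i hi'
      rw [Pi.sub_apply, abs_sub_comm, abs_of_nonneg h1]
      exact h2

theorem move2 (hs : S_STR) (h : Ac M ν) {t : Fin (m+1) → List (Fin (m+1))} (ht : inc t = M)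
    {k : ℤ} (hk1 : k ≠ 0) (hk : |k| + CC M ν 0 < M 0 0) :
    ∃ x y : Fin (m+1) → ℤ, (x, (0 : Fin (m+1))) ∈ edges 0 (t 0) ∧
      (y, (0 : Fin (m+1))) ∈ edges 0 (t 0) ∧ (y - x) 0 = k ∧
      (∀ i, i ≠ 0 → |(y - x) i| ≤ col M i) ∧ wt M ν (y - x) < |k| := by
  obtain ⟨x, y, hx, hy, h0, hi, hw⟩ := (hs m M ν h t ht k.natAbs).2
    (Int.natAbs_pos.2 hk1) (by rw [Int.natCast_natAbs]; exact hk)
  rw [Int.natCast_natAbs] at h0 hw
  rcases le_total 0 k with hk0 | hk0
  · refine ⟨x, y, hx, hy, ?_, fun i hi' => ?_, hw⟩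
    · rw [Pi.sub_apply, h0, abs_of_nonneg hk0]
    · obtain ⟨h1, h2⟩ := hi i hi'
      rw [Pi.sub_apply, abs_of_nonneg h1]
      exact h2
  · refine ⟨y, x, hy, hx, ?_, fun i hi' => ?_, ?_⟩
    · rw [Pi.sub_apply]
      rw [abs_of_nonpos hk0] at h0
      omega
    · obtain ⟨h1, h2⟩ := hi i hi'
      rw [Pi.sub_apply, abs_sub_comm, abs_of_nonneg h1]
      exact h2
    · have : wt M ν (x - y) = wt M ν (y - x) := by
        simp only [wt, Pi.sub_apply, abs_sub_comm]
      rw [this]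
      exact hw

theorem sum_abs_qq_le (hM : ∀ i j, 0 ≤ M i j) (d : Fin (m+1) → ℤ) :
    ∑ s ∈ Finset.range ν, |qq M s d| ≤ wt M ν d := by
  refine Finset.sum_le_sum fun s _ => abs_qq_le hM s fun i hi => ?_
  rw [if_neg hi]

/-- the coordinates after a step -/
theorem abs_qq_step (h : Ac M ν) {v d : Fin (m+1) → ℤ} (hd : ∀ i, i ≠ 0 → |d i| ≤ col M i)
    (s : ℕ) : |qq M s (M.mulVec v + d)| ≤ |v 0| * cc M s + |qq M (s+1) v| + cc M s := by
  rw [qq_add, qq_mulVec]
  have h1 : |qq M s d| ≤ cc M s := abs_qq_le h.nn s hd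
  have h2 : |v 0 * cc M s| = |v 0| * cc M s := by rw [abs_mul, abs_of_nonneg (cc_nonneg h.nn s)]
  have h3 := abs_add_le (v 0 * cc M s + qq M (s+1) v) (qq M s d)
  have h4 := abs_add_le (v 0 * cc M s) (qq M (s+1) v)
  linarith

/-- a step which keeps the height small -/
theorem near_step (hs : S_STR) (h : Hd M ν φ β) {v : Fin (m+1) → ℤ}
    (hv : 4 * |hh φ v| ≤ 3 * φ 0) {n : ℕ}
    (H : ∀ v', 8 * |hh φ v'| ≤ 5 * φ 0 →
      (∀ s, |qq M s v'| ≤ |v 0| * cc M s + |qq M (s+1) v| + cc M s) → Good M n v') :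
    Good M (n+1) v := by
  obtain ⟨k, hk⟩ : ∃ k : ℤ, k = -round (β * hh φ v / φ 0) := ⟨_, rfl⟩
  have h0 := h.pos 0
  have hr := abs_sub_round (β * hh φ v / φ 0)
  have h1 : |β * hh φ v + k * φ 0| ≤ φ 0 / 2 := by
    have h2 : β * hh φ v + k * φ 0 =
        (β * hh φ v / φ 0 - round (β * hh φ v / φ 0)) * φ 0 := by
      rw [hk]
      push_cast
      rw [sub_mul, div_mul_cancel₀ _ h0.ne']
      ring
    rw [h2, abs_mul, abs_of_pos h0]
    linarith [mul_le_mul_of_nonneg_right hr h0.le]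
  have hβ := h.beta_le
  have hdom := h.dom
  have hW := h.W0
  have hβ0 := h.beta_one
  have h2 : |k| < M 0 0 := by
    have h3 : |(k : ℝ)| * φ 0 ≤ β * |hh φ v| + φ 0 / 2 := by
      have h4 : |(k : ℝ)| * φ 0 = |(k : ℝ) * φ 0| := by rw [abs_mul, abs_of_pos h0]
      have h5 : β * |hh φ v| = |β * hh φ v| := by rw [abs_mul, abs_of_pos (by linarith : 0 < β)]
      have h6 : (k : ℝ) * φ 0 = (β * hh φ v + k * φ 0) - β * hh φ v := by ring
      rw [h4, h5, h6]
      refine (abs_sub _ _).trans ?_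
      linarith
    have h4 := mul_le_mul_of_nonneg_left hv (by linarith : (0:ℝ) ≤ β)
    have h5 : |(k : ℝ)| * φ 0 < (M 0 0 : ℝ) * φ 0 := by nlinarith
    have h6 := lt_of_mul_lt_mul_right h5 h0.le
    exact_mod_cast h6
  refine Good.step fun t ht => ?_
  obtain ⟨x, y, hx, hy, hk0, hi⟩ := move1 hs h.ac ht h2
  refine ⟨x, y, hx, hy, H _ ?_ (abs_qq_step h.ac hi)⟩
  obtain ⟨w, hw⟩ : ∃ w : Fin (m+1) → ℤ, w = (y - x) - k • ev 0 := ⟨_, rfl⟩
  have hw0 : w 0 = 0 := by
    rw [hw, Pi.sub_apply, hk0]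
    simp [ev]
  have hwi : ∀ i, i ≠ 0 → |w i| ≤ col M i := by
    intro i hi'
    have : w i = (y - x) i := by rw [hw]; simp [ev, hi']
    rw [this]
    exact hi i hi'
  have h3 := h.small_col hw0 hwi
  have h4 : hh φ (M.mulVec v + (y - x)) = (β * hh φ v + k * φ 0) + hh φ w := by
    rw [hh_add, hh_M h.eig, hw, hh_sub φ (y - x), hh_smul', hh_ev]
    ring
  rw [h4]
  have := abs_add_le (β * hh φ v + k * φ 0) (hh φ w)
  linarith

/-- a step to a vector without coordinate `0` -/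
theorem zero_step (hs : S_STR) (h : Hd M ν φ β) {v : Fin (m+1) → ℤ} (h1 : |v 0| ≤ 1)
    (hq : ∀ s, |qq M s v| ≤ 2 * CC M ν s) (hv : 8 * |hh φ v| ≤ 5 * φ 0) {n : ℕ}
    (H : ∀ v', v' 0 = 0 → (∀ s, |qq M s v'| ≤ 2 * CC M ν s) → Good M n v') :
    Good M (n+1) v := by
  obtain ⟨k, hk⟩ : ∃ k : ℤ, k = -(M.mulVec v 0) := ⟨_, rfl⟩
  have h0 := h.pos 0
  have hβ := h.beta_le
  have hdom := h.dom
  have hW := h.W0
  have hβ0 := h.beta_one
  have hqM : ∀ s, |qq M s (M.mulVec v)| ≤ 2 * CC M ν s := by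
    intro s
    rw [qq_mulVec]
    refine (abs_add_le _ _).trans ?_
    rw [abs_mul, abs_of_nonneg (cc_nonneg h.ac.nn s)]
    have h2 := mul_le_mul_of_nonneg_right h1 (cc_nonneg h.ac.nn s)
    have h3 := hq (s+1)
    have h4 := CC_succ h.ac.nil s
    have h5 := cc_nonneg h.ac.nn s
    linarith
  obtain ⟨w, hw⟩ : ∃ w : Fin (m+1) → ℤ, w = M.mulVec v - M.mulVec v 0 • ev 0 := ⟨_, rfl⟩
  have hw0 : w 0 = 0 := by rw [hw]; simp [ev]
  have hwq : ∀ s, |qq M s w| ≤ 2 * CC M ν 0 := by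
    intro s
    rw [qq_congr (y := M.mulVec v) s fun i hi => by rw [hw]; simp [ev, hi]]
    have := CC_le h.ac.nn h.ac.nil s
    linarith [hqM s]
  have hsm := h.small hw0 (by have := h.ac.W0; linarith) hwq
  have hw4 : 4 * |hh φ w| ≤ φ 0 := by
    push_cast at hsm
    have h4 : (8 * (CC M ν 0 : ℝ) + 7) * (4 * |hh φ w|) ≤ (8 * (CC M ν 0 : ℝ) + 7) * φ 0 := by
      nlinarith
    exact le_of_mul_le_mul_left h4 (by linarith)
  have h2 : |k| < M 0 0 := by
    have h3 : |(k : ℝ)| * φ 0 ≤ β * |hh φ v| + φ 0 / 4 := by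
      have h4 : |(k : ℝ)| * φ 0 = |(k : ℝ) * φ 0| := by rw [abs_mul, abs_of_pos h0]
      have h5 : β * |hh φ v| = |β * hh φ v| := by rw [abs_mul, abs_of_pos (by linarith : 0 < β)]
      have h6 : (k : ℝ) * φ 0 = hh φ w - β * hh φ v := by
        rw [hw, hh_sub, hh_M h.eig, hh_smul', hh_ev, hk]
        push_cast
        ring
      rw [h4, h5, h6]
      refine (abs_sub _ _).trans ?_
      linarith
    have h4 := mul_le_mul_of_nonneg_left hv (by linarith : (0:ℝ) ≤ β)
    have h5 : |(k : ℝ)| * φ 0 < (M 0 0 : ℝ) * φ 0 := by nlinarith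
    have h6 := lt_of_mul_lt_mul_right h5 h0.le
    exact_mod_cast h6
  refine Good.step fun t ht => ?_
  obtain ⟨x, y, hx, hy, hk0, hi⟩ := move1 hs h.ac ht h2
  refine ⟨x, y, hx, hy, H _ ?_ fun s => ?_⟩
  · rw [Pi.add_apply, hk0, hk]; ring
  · refine (abs_qq_step h.ac hi s).trans ?_
    have h2 := mul_le_mul_of_nonneg_right h1 (cc_nonneg h.ac.nn s)
    have h3 := hq (s+1)
    have h4 := CC_succ h.ac.nil s
    linarith

/-! ### vectors without coordinate `0` -/

/-- the potential -/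
def Phi (M : Matrix (Fin (m+1)) (Fin (m+1)) ℤ) (ν : ℕ) (C : ℤ) (v : Fin (m+1) → ℤ) : ℤ :=
  ∑ s ∈ Finset.range ν, (C + s) * |qq M s v|

theorem Phi_shift (h : Nz M ^ ν = 0) (C : ℤ) (v : Fin (m+1) → ℤ) :
    ∑ s ∈ Finset.range ν, (C + s) * |qq M (s+1) v| =
      Phi M ν C v - C * |qq M 0 v| - ∑ s ∈ Finset.range ν, |qq M (s+1) v| := by
  have h1 := Finset.sum_range_succ (fun s : ℕ => (C + s) * |qq M s v|) ν
  have h2 := Finset.sum_range_succ' (fun s : ℕ => (C + s) * |qq M s v|) ν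
  rw [qq_ge h le_rfl, abs_zero, mul_zero, add_zero] at h1
  rw [h1] at h2
  unfold Phi
  rw [h2]
  have h3 : ∑ s ∈ Finset.range ν, (C + ((s + 1 : ℕ) : ℤ)) * |qq M (s+1) v| =
      ∑ s ∈ Finset.range ν, (C + s) * |qq M (s+1) v| + ∑ s ∈ Finset.range ν, |qq M (s+1) v| := by
    rw [← Finset.sum_add_distrib]
    refine Finset.sum_congr rfl fun s _ => ?_
    push_cast
    ring
  rw [h3]
  push_cast
  ring

theorem phi_zero (h : Ac M ν) {C : ℤ} (hC : 1 ≤ C) {v : Fin (m+1) → ℤ} (h0 : v 0 = 0)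
    (hP : Phi M ν C v ≤ 0) : v = 0 := by
  have hnn : ∀ s ∈ Finset.range ν, 0 ≤ (C + s) * |qq M s v| := fun s _ =>
    mul_nonneg (by positivity) (abs_nonneg _)
  have h1 : Phi M ν C v = 0 := le_antisymm hP (Finset.sum_nonneg hnn)
  have h2 := (Finset.sum_eq_zero_iff_of_nonneg hnn).1 h1
  refine eq_zero_of_qq h.det_ne h.nil h0 fun s => ?_
  rcases lt_or_ge s ν with hs | hs
  · have h3 := h2 s (Finset.mem_range.2 hs)
    rcases mul_eq_zero.1 h3 with h4 | h4
    · have : (0:ℤ) ≤ s := by positivity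
      omega
    · exact abs_eq_zero.1 h4
  · exact qq_ge h.nil hs v

theorem phase3 (hs : S_STR) (h : Ac M ν) (n : ℕ) : ∀ v : Fin (m+1) → ℤ, v 0 = 0 →
    (∀ s, |qq M s v| ≤ 2 * CC M ν s) → Phi M ν (2 * ν * CC M ν 0 + 1) v ≤ n → Good M n v := by
  have hW := h.W0
  obtain ⟨W, hWd⟩ : ∃ W, W = CC M ν 0 := ⟨_, rfl⟩
  rw [← hWd] at hW ⊢
  have hC : 1 ≤ 2 * (ν : ℤ) * W + 1 := by
    have : 0 ≤ 2 * (ν : ℤ) * W := by positivity
    linarith
  induction n with
  | zero =>
    intro v h0 _ hP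
    rw [phi_zero h hC h0 (by exact_mod_cast hP)]
    exact Good.zero h.det_ne _
  | succ n ih =>
    intro v h0 hq hP
    by_cases hv : v = 0
    · rw [hv]; exact Good.zero h.det_ne _
    have hqd : ∀ d : Fin (m+1) → ℤ, (∀ i, i ≠ 0 → |d i| ≤ col M i) → ∀ s,
        |qq M s (M.mulVec v + d)| ≤ 2 * CC M ν s := by
      intro d hd s
      refine (abs_qq_step h hd s).trans ?_
      have h3 := hq (s+1)
      have h4 := CC_succ h.nil s
      have h5 := cc_nonneg h.nn s
      rw [h0, abs_zero, zero_mul]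
      linarith
    have hM0 : M.mulVec v 0 = qq M 0 v := by rw [mulVec_zero', h0, qq_zero]; ring
    have hT : 0 ≤ ∑ s ∈ Finset.range ν, |qq M (s+1) v| := Finset.sum_nonneg fun _ _ => abs_nonneg _
    have hdom := h.dom
    have hq0 := hq 0
    rw [← hWd] at hdom hq0
    refine Good.step fun t ht => ?_
    by_cases hK : qq M 0 v = 0
    · obtain ⟨x, y, hx, -, -, -⟩ := move1 hs h ht (k := 0) (by rw [abs_zero]; linarith)
      refine ⟨x, x, hx, hx, ?_⟩
      rw [sub_self, add_zero]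
      have hT1 : 1 ≤ ∑ s ∈ Finset.range ν, |qq M (s+1) v| := by
        by_contra hcon
        have h1 : ∑ s ∈ Finset.range ν, |qq M (s+1) v| = 0 := by omega
        have h2 := (Finset.sum_eq_zero_iff_of_nonneg (fun s _ => abs_nonneg _)).1 h1
        apply hv
        refine eq_zero_of_qq h.det_ne h.nil h0 fun s => ?_
        rcases s with _ | s
        · exact hK
        · rcases lt_or_ge s ν with hs | hs
          · exact abs_eq_zero.1 (h2 s (Finset.mem_range.2 hs))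
          · exact qq_ge h.nil (by omega) v
      refine ih _ (by rw [hM0, hK]) (fun s => ?_) ?_
      · have := hqd 0 (fun i _ => by simpa using col_nonneg h.nn i) s
        rwa [add_zero] at this
      · have h1 : Phi M ν (2 * ν * W + 1) (M.mulVec v) =
            ∑ s ∈ Finset.range ν, ((2 * ν * W + 1) + s) * |qq M (s+1) v| := by
          unfold Phi
          refine Finset.sum_congr rfl fun s _ => ?_
          rw [qq_mulVec, h0, zero_mul, zero_add]
        rw [h1, Phi_shift h.nil, hK, abs_zero, mul_zero]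
        push_cast at hP
        linarith
    · obtain ⟨x, y, hx, hy, hk0, hi, hw⟩ := move2 hs h ht (k := -qq M 0 v) (by simpa using hK)
        (by rw [abs_neg, ← hWd]; linarith)
      rw [abs_neg] at hw
      obtain ⟨d, hd⟩ : ∃ d, d = y - x := ⟨_, rfl⟩
      refine ⟨x, y, hx, hy, ih _ ?_ (hqd _ hi) ?_⟩
      · rw [Pi.add_apply, hM0, hk0]; ring
      · rw [← hd] at hw ⊢
        have h1 : Phi M ν (2 * ν * W + 1) (M.mulVec v + d) ≤
            ∑ s ∈ Finset.range ν, ((2 * ν * W + 1) + s) * |qq M (s+1) v| +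
              ((2 * ν * W + 1) + ν) * ∑ s ∈ Finset.range ν, |qq M s d| := by
          unfold Phi
          rw [Finset.mul_sum, ← Finset.sum_add_distrib]
          refine Finset.sum_le_sum fun s hs' => ?_
          have hs2 : (s : ℤ) ≤ ν := by
            have := Finset.mem_range.1 hs'
            omega
          rw [qq_add, qq_mulVec, h0, zero_mul, zero_add]
          have h2 := abs_add_le (qq M (s+1) v) (qq M s d)
          have h3 := mul_le_mul_of_nonneg_left h2
            (by positivity : (0:ℤ) ≤ (2 * ν * W + 1) + s)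
          have h4 := mul_le_mul_of_nonneg_right
            (by linarith : (2 * (ν:ℤ) * W + 1) + s ≤ (2 * ν * W + 1) + ν) (abs_nonneg (qq M s d))
          linarith
        have h2 := sum_abs_qq_le (ν := ν) h.nn d
        have h3 : ∑ s ∈ Finset.range ν, |qq M s d| ≤ |qq M 0 v| - 1 := by omega
        rw [Phi_shift h.nil] at h1
        have h4 := mul_le_mul_of_nonneg_left h3
          (by positivity : (0:ℤ) ≤ (2 * ν * W + 1) + ν)
        have h5 : (ν : ℤ) * |qq M 0 v| ≤ ν * (2 * W) :=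
          mul_le_mul_of_nonneg_left hq0 (by positivity)
        have h6 : (0:ℤ) ≤ ν := by positivity
        push_cast at hP
        nlinarith

theorem phase3' (hs : S_STR) (h : Ac M ν) : ∃ n : ℕ, ∀ v : Fin (m+1) → ℤ, v 0 = 0 →
    (∀ s, |qq M s v| ≤ 2 * CC M ν s) → Good M n v := by
  have hW := h.W0
  obtain ⟨C, hC⟩ : ∃ C, C = 2 * (ν : ℤ) * CC M ν 0 + 1 := ⟨_, rfl⟩
  have hC0 : 0 ≤ C := by rw [hC]; positivity
  refine ⟨(∑ s ∈ Finset.range ν, (C + s) * (2 * CC M ν 0)).toNat, fun v h0 hq => ?_⟩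
  refine phase3 hs h _ v h0 hq ?_
  rw [← hC, Int.toNat_of_nonneg (Finset.sum_nonneg fun s _ => by positivity)]
  refine Finset.sum_le_sum fun s _ => ?_
  refine mul_le_mul_of_nonneg_left ?_ (by positivity)
  have := CC_le h.nn h.nil s
  linarith [hq s]

/-! ### large coordinates `0` -/

/-- a uniform number of steps for all vectors with `|v 0| ≤ R` in the standard region -/
def GR (M : Matrix (Fin (m+1)) (Fin (m+1)) ℤ) (ν : ℕ) (φ : Fin (m+1) → ℝ) (R : ℤ) : Prop :=
  ∃ n : ℕ, ∀ v : Fin (m+1) → ℤ, |v 0| ≤ R → (∀ s, |qq M s v| ≤ (R + 1) * CC M ν s) →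
    8 * |hh φ v| ≤ 5 * φ 0 → Good M n v

theorem gr_one (hs : S_STR) (h : Hd M ν φ β) : GR M ν φ 1 := by
  obtain ⟨n, hn⟩ := phase3' hs h.ac
  exact ⟨n + 1, fun v h1 hq hv => zero_step hs h h1 (fun s => by have := hq s; linarith) hv hn⟩

theorem gr_reach (hs : S_STR) (h : Hd M ν φ β) {R U : ℤ} (hR : 1 ≤ R) (hU0 : 0 ≤ U)
    (hU : U ≤ 4 * (CC M ν 0 + 1) * R) {n : ℕ}
    (hn : ∀ v : Fin (m+1) → ℤ, |v 0| ≤ R → (∀ s, |qq M s v| ≤ (R + 1) * CC M ν s) →
      8 * |hh φ v| ≤ 5 * φ 0 → Good M n v) (j : ℕ) :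
    ∀ v : Fin (m+1) → ℤ, |v 0| ≤ R →
      (∀ s, |qq M s v| ≤ (R + 1) * CC M ν s + if s < j then U else 0) →
      8 * |hh φ v| ≤ 5 * φ 0 → Good M (n + j) v := by
  have hW := h.ac.W0
  have h0 := h.pos 0
  induction j with
  | zero =>
    intro v h1 hq hv
    exact hn v h1 (fun s => by simpa using hq s) hv
  | succ j ih =>
    intro v h1 hq hv
    refine near_step hs h (by linarith [abs_nonneg (hh φ v)]) fun v' hv' hq' => ?_
    have hq2 : ∀ s, |qq M s v'| ≤ (R + 1) * CC M ν s + if s < j then U else 0 := by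
      intro s
      refine (hq' s).trans ?_
      have h2 := hq (s+1)
      have h3 := CC_succ h.ac.nil s
      have h4 := mul_le_mul_of_nonneg_right h1 (cc_nonneg h.ac.nn s)
      have h5 : (if s + 1 < j + 1 then U else 0) = if s < j then U else 0 := by simp
      rw [h5] at h2
      rw [h3]
      linarith
    refine ih v' ?_ hq2 hv'
    have hA : ∀ s, |qq M s v'| ≤ (R + 1) * CC M ν 0 + U := by
      intro s
      have h2 := hq2 s
      have h3 := mul_le_mul_of_nonneg_left (CC_le h.ac.nn h.ac.nil s) (by linarith : 0 ≤ R + 1)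
      split_ifs at h2 <;> linarith
    have h2 := h.coord (by positivity) hA hv'
    by_contra hcon
    have h3 : R + 1 ≤ |v' 0| := by omega
    have h4 := mul_le_mul_of_nonneg_left h3
      (by positivity : 0 ≤ 8 * (8 * CC M ν 0 + 7))
    nlinarith

theorem gr_succ (hs : S_STR) (h : Hd M ν φ β) {R : ℤ} (hR : 1 ≤ R) (hg : GR M ν φ R) :
    GR M ν φ (R + 1) := by
  have hW := h.ac.W0
  have h0 := h.pos 0
  obtain ⟨n, hn⟩ := hg
  refine ⟨n + ν + 1, fun v h1 hq hv => ?_⟩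
  refine near_step hs h (by linarith [abs_nonneg (hh φ v)]) fun v' hv' hq' => ?_
  have hq2 : ∀ s, |qq M s v'| ≤ (R + 2) * CC M ν s := by
    intro s
    refine (hq' s).trans ?_
    have h2 := hq (s+1)
    have h3 := CC_succ h.ac.nil s
    have h4 := mul_le_mul_of_nonneg_right h1 (cc_nonneg h.ac.nn s)
    rw [h3]
    linarith
  refine gr_reach hs h hR hW (by nlinarith) hn ν v' ?_ (fun s => ?_) hv'
  · have hA : ∀ s, |qq M s v'| ≤ (R + 2) * CC M ν 0 := fun s =>
      (hq2 s).trans (mul_le_mul_of_nonneg_left (CC_le h.ac.nn h.ac.nil s) (by linarith))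
    have h2 := h.coord (by positivity) hA hv'
    by_contra hcon
    have h3 : R + 1 ≤ |v' 0| := by omega
    have h4 := mul_le_mul_of_nonneg_left h3
      (by positivity : 0 ≤ 8 * (8 * CC M ν 0 + 7))
    nlinarith
  · have h2 := hq2 s
    split_ifs with hsν
    · have := CC_le h.ac.nn h.ac.nil s
      linarith
    · rw [CC_ge (by omega)] at h2 ⊢
      linarith

theorem gr_all (hs : S_STR) (h : Hd M ν φ β) (R : ℕ) : GR M ν φ ((R : ℤ) + 1) := by
  induction R with
  | zero => simpa using gr_one hs h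
  | succ R ih =>
    have := gr_succ hs h (by omega) ih
    push_cast
    exact this

theorem dyn (hs : S_STR) : S_DYN := by
  intro m M ν hac φ β hpos heig v hv
  have h : Hd M ν φ β := ⟨hac, hpos, heig⟩
  have hW := h.ac.W0
  have h0 := h.pos 0
  obtain ⟨U, hU⟩ : ∃ U, U = ∑ s ∈ Finset.range ν, |qq M s v| + (|v 0| + 1) * CC M ν 0 := ⟨_, rfl⟩
  have hS0 : 0 ≤ ∑ s ∈ Finset.range ν, |qq M s v| := Finset.sum_nonneg fun _ _ => abs_nonneg _
  have hU0 : 0 ≤ U := by rw [hU]; positivity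
  obtain ⟨n, hn⟩ := gr_all hs h U.toNat
  rw [Int.toNat_of_nonneg hU0] at hn
  refine ⟨n + ν + 1, ?_⟩
  refine near_step hs h hv fun v' hv' hq' => ?_
  have hqU : ∀ s, |qq M s v'| ≤ U := by
    intro s
    refine (hq' s).trans ?_
    have h1 : |qq M (s+1) v| ≤ ∑ s ∈ Finset.range ν, |qq M s v| := by
      rcases lt_or_ge (s+1) ν with hsν | hsν
      · exact Finset.single_le_sum (f := fun s => |qq M s v|) (fun _ _ => abs_nonneg _)
          (Finset.mem_range.2 hsν)
      · rw [qq_ge hac.nil hsν, abs_zero]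
        exact hS0
    have h2 := mul_le_mul_of_nonneg_left (cc_le hac.nn hac.nil s)
      (by positivity : 0 ≤ |v 0| + 1)
    rw [hU]
    linarith
  refine gr_reach hs h (by linarith) hU0 (by nlinarith) hn ν v' ?_ (fun s => ?_) hv'
  · have h2 := h.coord hU0 hqU hv'
    by_contra hcon
    have h3 : U + 2 ≤ |v' 0| := by omega
    have h4 := mul_le_mul_of_nonneg_left h3
      (by positivity : 0 ≤ 8 * (8 * CC M ν 0 + 7))
    nlinarith
  · split_ifs with hsν
    · have h1 := CC_nonneg hac.nn ν s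
      have h2 : 0 ≤ (U + 1 + 1) * CC M ν s := by positivity
      linarith [hqU s]
    · rw [qq_ge hac.nil (by omega), CC_ge (by omega)]
      simp

end Pool.Agent.Helper43K9.AC
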