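import Pool.Agent.Helper43K9.AC.CmpC

/-!
Explicit matrices for which all compositions of substitutions have coincidences, in all letter orders.
-/

set_option autoImplicit false

namespace Pool.Agent.Helper43K9.AC
open Pool.Agent.H812R2.PI Pool.Agent.Helper65K9.PSC
open Pool.Agent.R889.PZ (Coinc)
open scoped BigOperators

variable {m : ℕ}

/-- every nonnegative matrix is the incidence matrix of a substitution -/
theorem exists_inc (A : Matrix (Fin (m+1)) (Fin (m+1)) ℤ) (hA : ∀ i j, 0 ≤ A i j) :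
    ∃ t : Fin (m+1) → List (Fin (m+1)), inc t = A := by
  refine ⟨fun j => (List.finRange (m+1)).flatMap fun i => List.replicate (A i j).toNat i, ?_⟩
  funext i j
  simp only [inc]
  rw [List.count_flatMap, ← Fin.sum_univ_def]
  simp only [Function.comp, List.count_replicate]
  simp [hA i j]

/-- Explicit matrices. Either the block `Nz A` of the letters different from `0` is nilpotent, the
determinant is `± 1` and `A 0 0 ≥ 8 (W + 1)`, `W = ∑ b N^s a` (see `AcyclicSmallLetters`), or `A` is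
the companion matrix of a vector `a` with `a_m = 1`, `a_0 ≥ 5` and either `a_0 ≥ a_1 + ... + a_m + 2` or
`a_1 ≥ ... ≥ a_m`, `a_0 ≥ a_1 + 3`. -/
def Explicit (A : Matrix (Fin (m+1)) (Fin (m+1)) ℤ) : Prop :=
  (∃ ν : ℕ, (∀ i j, 0 ≤ A i j) ∧ (A.det = 1 ∨ A.det = -1) ∧ Nz A ^ ν = 0 ∧
    8 * ((∑ s ∈ Finset.range ν, rw0 A ((Nz A ^ s).mulVec (col A))) + 1) ≤ A 0 0) ∨
  (1 ≤ m ∧ ∃ a : Fin (m+1) → ℕ, A = cMat a ∧ a (Fin.last m) = 1 ∧ 5 ≤ a 0 ∧
    (∑ j ∈ Finset.univ.erase (0 : Fin (m+1)), a j + 2 ≤ a 0 ∨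
      ((∀ i j : Fin (m+1), 1 ≤ i → i ≤ j → a j ≤ a i) ∧ ∀ j : Fin (m+1), 1 ≤ j → a j + 3 ≤ a 0)))

theorem cMat_nonneg (a : Fin (m+1) → ℕ) (i j : Fin (m+1)) : 0 ≤ cMat a i j := by
  unfold cMat
  positivity

theorem isCompanion_of {a : Fin (m+1) → ℕ} {t : Fin (m+1) → List (Fin (m+1))}
    (h : inc t = cMat a) : IsCompanion a t := fun i j => congrFun (congrFun h i) j

theorem explicit_ok {A : Matrix (Fin (m+1)) (Fin (m+1)) ℤ} (h : Explicit A) :
    (∀ i j, 0 ≤ A i j) ∧ PisotMat A ∧ CoincAll {t | inc t = A} := by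
  rcases h with ⟨ν, hnn, hdet, hnil, hdom⟩ | ⟨hm, a, rfl, hlast, h5, h⟩
  · have h : Ac A ν := ⟨hnn, hnil, by
      unfold CC cc qq
      rw [Nat.Ico_zero_eq_range]
      exact hdom, hdet⟩
    exact ⟨hnn, pis m A ν h, coincAll_of_ac h⟩
  · obtain ⟨t, ht⟩ := exists_inc (cMat a) (cMat_nonneg a)
    rcases h with h | ⟨h6, h7⟩
    · have hD : ∀ l : List (Fin (m+1) → List (Fin (m+1))), (∀ t ∈ l, inc t = cMat a) →
          DmL l := fun l hl t ht => ⟨a, (isCompanion_of (hl t ht)).cmp hlast, hlast, h5, h⟩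
      refine ⟨cMat_nonneg a, ?_, fun l hne hl => ?_⟩
      · have h1 := dom_pisot (l := [t]) (by simp) (hD [t] (by simpa using ht))
        rw [inc_compList (cMat a) [t] (by simpa using ht)] at h1
        simpa using h1
      · have hl' := hD l fun t ht => hl t ht
        exact dom_coinc hm hne hl' (dom_pisot hne hl')
    · have hDC : DC a := ⟨hm, hlast, h6, h5, h7⟩
      refine ⟨cMat_nonneg a, ?_, fun l hne hl => ?_⟩
      · rw [← ht]
        exact dec_pisIrr hDC (isCompanion_of ht)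
      · exact (dec_coinc hDC hne fun t ht => isCompanion_of (hl t ht)).2

end Pool.Agent.Helper43K9.AC
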