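import Pool.Agent.Helper43K9.AC.Dyn
import Pool.Agent.TH100.Pisot.Pow

/-!
The Pisot conjecture for substitutions with a dominating letter and an acyclic graph of the other
letters: assembly.
-/

set_option autoImplicit false

namespace Pool.Agent.Helper43K9.AC
open Pool.Agent.H812R2.PI Pool.Agent.Y316.Pisot Pool.Agent.Helper65K9.PSC
open scoped BigOperators

variable {m : ℕ} {M : Matrix (Fin (m+1)) (Fin (m+1)) ℤ} {ν : ℕ} {φ : Fin (m+1) → ℝ} {β : ℝ}

theorem Nz_pow_col (k : ℕ) {i : Fin (m+1)} (hi : i ≠ 0) : (Nz M ^ k) i 0 = 0 := by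
  cases k with
  | zero => rw [pow_zero, Matrix.one_apply_ne hi]
  | succ k =>
    rw [pow_succ, Matrix.mul_apply]
    exact Finset.sum_eq_zero fun j _ => by simp [Nz]

/-- every letter is reached from `0` -/
theorem reach (h : Ac M ν) {i : Fin (m+1)} (hi : i ≠ 0) :
    ∃ s, (Nz M ^ s).mulVec (col M) i ≠ 0 := by
  by_contra hcon
  push Not at hcon
  have key : ∀ k l, (M ^ k) i l = (Nz M ^ k) i l := by
    intro k
    induction k with
    | zero => intro l; rw [pow_zero, pow_zero]
    | succ k ih =>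
      intro l
      by_cases hl : l = 0
      · rw [hl, Nz_pow_col _ hi, pow_succ, Matrix.mul_apply, ← hcon k]
        simp only [Matrix.mulVec, dotProduct, col]
        refine Finset.sum_congr rfl fun j _ => ?_
        rw [ih j]
        by_cases hj : j = 0
        · rw [hj, Nz_pow_col _ hi]; simp
        · rw [if_neg hj]
      · rw [pow_succ, pow_succ, Matrix.mul_apply, Matrix.mul_apply]
        refine Finset.sum_congr rfl fun j _ => ?_
        rw [ih j]
        by_cases hj : j = 0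
        · rw [hj, Nz_pow_col _ hi]; simp
        · congr 1
          simp [Nz, hj, hl]
  have h1 : (M ^ ν).det = 0 :=
    Matrix.det_eq_zero_of_row_eq_zero i fun l => by rw [key, h.nil]; rfl
  rw [Matrix.det_pow] at h1
  exact pow_ne_zero _ h.det_ne h1

theorem Nz_pow_col_nonneg (hM : ∀ i j, 0 ≤ M i j) (s : ℕ) (i : Fin (m+1)) :
    0 ≤ (Nz M ^ s).mulVec (col M) i := by
  induction s generalizing i with
  | zero => rw [pow_zero, Matrix.one_mulVec]; exact col_nonneg hM i
  | succ s ih =>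
    rw [pow_succ', ← Matrix.mulVec_mulVec]
    simp only [Matrix.mulVec, dotProduct] at ih ⊢
    refine Finset.sum_nonneg fun j _ => mul_nonneg ?_ (ih j)
    unfold Nz
    split_ifs
    · exact le_rfl
    · exact hM _ _

theorem Hd.le0 (h : Hd M ν φ β) (i : Fin (m+1)) : φ i ≤ φ 0 := by
  by_cases hi : i = 0
  · rw [hi]
  obtain ⟨s, hs⟩ := reach h.ac hi
  have hnn := Nz_pow_col_nonneg h.ac.nn s
  have h1 : ∀ s', |qq M s' (ev i)| ≤ CC M ν 0 := by
    intro s'
    refine (abs_qq_le h.ac.nn s' (y := (Nz M ^ s).mulVec (col M)) fun j _ => ?_).trans ?_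
    · by_cases hj : j = i
      · rw [hj]
        have h2 := hnn i
        simp only [ev, if_true, abs_one]
        omega
      · simp only [ev, if_neg hj, abs_zero]
        exact hnn j
    · have h2 : qq M s' ((Nz M ^ s).mulVec (col M)) = cc M (s' + s) := by
        unfold cc qq
        rw [Matrix.mulVec_mulVec, ← pow_add]
      rw [h2]
      exact cc_le h.ac.nn h.ac.nil _
  have h3 := h.small (x := ev i) (by simp [ev, Ne.symm hi]) h.ac.W0 h1
  rw [hh_ev, abs_of_pos (h.pos i)] at h3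
  have h4 := h.W0
  have h5 := h.pos 0
  have h6 : (8 * (CC M ν 0 : ℝ) + 7) * φ i ≤ (8 * (CC M ν 0 : ℝ) + 7) * φ 0 := by nlinarith
  exact le_of_mul_le_mul_left h6 (by linarith)

theorem inc_mem {l : List (Fin (m+1) → List (Fin (m+1)))} (hl : ∀ τ ∈ l, inc τ = M) (n : ℕ) :
    ∀ τ ∈ (List.replicate n l).flatten, inc τ = M := fun τ hτ => hl τ (mem_flatten_replicate hτ)

theorem len_flatten {α : Type*} (l : List α) (n : ℕ) :
    ((List.replicate n l).flatten).length = n * l.length := by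
  simp

/-- assembly -/
theorem main (hPIS : S_PIS) (hZF : S_ZF) (hSTR : S_STR) (hSRCH : S_SRCH) (h : Ac M ν)
    {l : List (Fin (m+1) → List (Fin (m+1)))} (hne : l ≠ []) (hl : ∀ τ ∈ l, inc τ = M) :
    PisotMat (inc (compList l)) ∧ SemiConjToral (compList l) := by
  have hpis : PisotMat M := hPIS m M ν h
  have hlen : 1 ≤ l.length := List.length_pos_iff.2 hne
  have hinc : inc (compList l) = M ^ l.length := inc_compList _ _ hl
  have hpisk : PisotMat (inc (compList l)) := by
    rw [hinc]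
    exact Pool.Agent.TH100.Pisot.pisotMat_pow _ h.nn hpis _ hlen
  refine ⟨hpisk, ?_⟩
  obtain ⟨lam, u, hlam, hu, husum⟩ := exists_u M h.nn hpis
  obtain ⟨P, -, -⟩ := exists_PD M h.nn hpis lam hlam u hu husum
  obtain ⟨Q, hQ⟩ : ∃ Q : PD (inc (compList l)), Q.ell = P.ell := by
    rw [hinc]
    exact ⟨P.pow _ hlen, rfl⟩
  have hd : Hd M ν Q.ell P.lam := by
    rw [hQ]
    exact ⟨h, P.ell_pos, P.ell_M⟩
  have hle := hd.le0
  have hne' : ∀ j, compList l j ≠ [] := compList_ne fun t ht => inc_ne h.det_ne (hl t ht)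
  have hdet : IsUnit (inc (compList l)).det := Int.isUnit_iff.2 hpisk.2.1
  refine semi_of_cm hne' Q hdet fun a b v hov => ?_
  have hlam0 : 0 < Q.lam := lt_trans one_pos Q.lam_gt
  -- the overlap
  obtain ⟨δ, hδ, P0, hP0, hP1, hP2, hP3⟩ : ∃ δ : ℝ, 0 < δ ∧ ∃ P0 : ℝ, 0 ≤ P0 ∧ hh Q.ell v ≤ P0 ∧
      P0 + δ ≤ Q.ell a ∧ P0 + δ ≤ hh Q.ell v + Q.ell b := by
    unfold PD.OV ovl at hov
    simp only [ht_zero, zero_add] at hov
    rw [ht_eq] at hov
    rcases lt_max_iff.1 hov with h | h
    · exact absurd h (lt_irrefl _)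
    · refine ⟨_, h, max 0 (hh Q.ell v), le_max_left _ _, le_max_right _ _, ?_, ?_⟩
      · have := min_le_left (Q.ell a) (hh Q.ell v + Q.ell b)
        linarith
      · have := min_le_right (Q.ell a) (hh Q.ell v + Q.ell b)
        linarith
  obtain ⟨n2, hn2⟩ : ∃ n2 : ℕ, 8 * Q.ell 0 ≤ Q.lam ^ n2 * δ := by
    have h2 : Filter.Tendsto (fun n : ℕ => Q.lam ^ n * δ) Filter.atTop Filter.atTop :=
      (tendsto_pow_atTop_atTop_of_one_lt Q.lam_gt).atTop_mul_const hδ
    exact (h2.eventually (Filter.eventually_ge_atTop (8 * Q.ell 0))).exists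
  obtain ⟨n, hn⟩ : ∃ n, n = n2 + ν := ⟨_, rfl⟩
  have hn3 : 8 * Q.ell 0 ≤ Q.lam ^ n * δ := by
    refine hn2.trans (mul_le_mul_of_nonneg_right ?_ hδ.le)
    exact pow_le_pow_right₀ Q.lam_gt.le (by omega)
  have hnK : ν ≤ ((List.replicate n l).flatten).length := by
    rw [len_flatten]
    calc ν ≤ n := by omega
      _ ≤ n * l.length := Nat.le_mul_of_pos_right _ hlen
  have hzf : ∀ c, ZF Q.ell (Q.ell 0 / 4) (iter (compList l) n c) := by
    intro c
    rw [← compList_flatten]
    exact hZF m M ν h Q.ell P.lam Q.ell_pos hd.eig _ (inc_mem hl n) hnK c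
  have hlamn : 0 < Q.lam ^ n := pow_pos hlam0 n
  have hVh : ∀ v, hh Q.ell ((inc (iter (compList l) n)).mulVec v) = Q.lam ^ n * hh Q.ell v := by
    intro v
    rw [inc_iter]
    have := ht_pow_mulVec Q n v
    rw [ht_eq, ht_eq] at this
    exact this
  have hVab : ∀ c, hh Q.ell (ab (iter (compList l) n c)) = Q.lam ^ n * Q.ell c := by
    intro c
    rw [ab_subst, hVh, hh_ev]
  obtain ⟨e, he, f, hf, he2, hf2, hef⟩ := hSRCH m Q.ell Q.ell_pos hle
    (iter (compList l) n a) (iter (compList l) n b) (hzf a) (hzf b)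
    0 ((inc (iter (compList l) n)).mulVec v) (Q.lam ^ n * P0)
    (by rw [hh_zero]; exact mul_nonneg hlamn.le hP0)
    (by rw [hVh]; exact mul_le_mul_of_nonneg_left hP1 hlamn.le)
    (by
      rw [hh_zero, hVab, zero_add]
      have := mul_le_mul_of_nonneg_left hP2 hlamn.le
      linarith)
    (by
      rw [hVh, hVab]
      have := mul_le_mul_of_nonneg_left hP3 hlamn.le
      linarith)
  obtain ⟨n1, hn1⟩ := dyn hSTR m M ν h Q.ell P.lam Q.ell_pos hd.eig (f.1 - e.1) hef
  have hCo := hn1 _ (inc_mem hl n1) (by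
    rw [len_flatten]
    exact Nat.le_mul_of_pos_right _ hlen)
  rw [compList_flatten] at hCo
  obtain ⟨g, hg1, hg2⟩ := hCo
  refine ⟨n1 + n, (g.1 + (inc (iter (compList l) n1)).mulVec e.1, g.2), ?_, ?_⟩
  · rw [iter_add']
    refine JComp_mem0 (S := iter (compList l) n1) (T := iter (compList l) n) (g := e) he (h := g) ?_
    rw [he2]
    exact hg1
  · rw [iter_add']
    refine JComp_mem1 (S := iter (compList l) n1) (T := iter (compList l) n) (g := e) (f := f) hf
      (h := g) ?_
    rw [hf2]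
    exact hg2

end Pool.Agent.Helper43K9.AC
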