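import Pool.Agent.Helper43K9.AC.Bas
import Pool.Agent.Helper65K9.PSC.PisAbs

/-!
AC [PIS]: acyclic matrices with a large entry are unimodular, irreducible and Pisot.
-/

set_option autoImplicit false

namespace Pool.Agent.Helper43K9.AC
open Pool.Agent.H812R2.PI Pool.Agent.Y316.Pisot Pool.Agent.Helper65K9.PSC
open scoped BigOperators

variable {m : ℕ} {M : Matrix (Fin (m+1)) (Fin (m+1)) ℤ} {ν : ℕ}

/-- complex form of `rw0` -/
noncomputable def PisL.rc (M : Matrix (Fin (m+1)) (Fin (m+1)) ℤ) (x : Fin (m+1) → ℂ) : ℂ :=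
  ∑ j, if j = 0 then 0 else (M 0 j : ℂ) * x j

theorem PisL.rc_add (x y : Fin (m+1) → ℂ) : rc M (x + y) = rc M x + rc M y := by
  unfold rc
  rw [← Finset.sum_add_distrib]
  refine Finset.sum_congr rfl fun j _ => ?_
  split_ifs
  · simp
  · rw [Pi.add_apply]; ring

theorem PisL.rc_smul (c : ℂ) (x : Fin (m+1) → ℂ) : rc M (c • x) = c * rc M x := by
  unfold rc
  rw [Finset.mul_sum]
  refine Finset.sum_congr rfl fun j _ => ?_
  split_ifs
  · simp
  · rw [Pi.smul_apply, smul_eq_mul]; ring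

theorem PisL.mc_zero' (x : Fin (m+1) → ℂ) : mc M x 0 = (M 0 0 : ℂ) * x 0 + rc M x := by
  simp only [mc, Matrix.mulVec, dotProduct, rc, Matrix.map_apply]
  rw [Fin.sum_univ_succ, Fin.sum_univ_succ (f := fun j => if j = 0 then 0 else (M 0 j : ℂ) * x j)]
  simp [Fin.succ_ne_zero]

theorem PisL.mc_pos' {i : Fin (m+1)} (hi : i ≠ 0) (x : Fin (m+1) → ℂ) :
    mc M x i = x 0 * (col M i : ℂ) + mc (Nz M) x i := by
  simp only [mc, Matrix.mulVec, dotProduct, Nz, col, Matrix.map_apply]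
  rw [Fin.sum_univ_succ, Fin.sum_univ_succ
    (f := fun j => (((if i = 0 ∨ j = 0 then 0 else M i j : ℤ)) : ℂ) * x j)]
  simp [Fin.succ_ne_zero, hi, mul_comm]

theorem PisL.Nc_zero (x : Fin (m+1) → ℂ) : mc (Nz M) x 0 = 0 := by
  simp [mc, Matrix.mulVec, dotProduct, Nz]

theorem PisL.Nc_congr {x y : Fin (m+1) → ℂ} (h : ∀ i, i ≠ 0 → x i = y i) :
    mc (Nz M) x = mc (Nz M) y := by
  funext i
  simp only [mc, Matrix.mulVec, dotProduct, Nz, Matrix.map_apply]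
  refine Finset.sum_congr rfl fun j _ => ?_
  by_cases hj : j = 0
  · simp [hj]
  · rw [h j hj]

theorem PisL.rc_congr {x y : Fin (m+1) → ℂ} (h : ∀ i, i ≠ 0 → x i = y i) : rc M x = rc M y := by
  unfold rc
  refine Finset.sum_congr rfl fun j _ => ?_
  by_cases hj : j = 0
  · simp [hj]
  · rw [h j hj]

theorem PisL.mc_mul (A B : Matrix (Fin (m+1)) (Fin (m+1)) ℤ) (x : Fin (m+1) → ℂ) :
    mc (A * B) x = mc A (mc B x) := by
  have h : (A * B).map (Int.cast : ℤ → ℂ) = A.map (Int.cast : ℤ → ℂ) * B.map (Int.cast : ℤ → ℂ) :=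
    Matrix.map_mul (f := Int.castRingHom ℂ)
  unfold mc
  rw [h, Matrix.mulVec_mulVec]

/-- `b N^s x` -/
noncomputable def PisL.zq (M : Matrix (Fin (m+1)) (Fin (m+1)) ℤ) (s : ℕ) (x : Fin (m+1) → ℂ) : ℂ :=
  rc M (mc (Nz M ^ s) x)

theorem PisL.mc_one (x : Fin (m+1) → ℂ) :
    mc (1 : Matrix (Fin (m+1)) (Fin (m+1)) ℤ) x = x := by
  unfold mc
  rw [Matrix.map_one _ (by simp) (by simp), Matrix.one_mulVec]

theorem PisL.zq_zero (x : Fin (m+1) → ℂ) : zq M 0 x = rc M x := by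
  unfold zq
  rw [pow_zero, mc_one]

theorem PisL.zq_succ (s : ℕ) (x : Fin (m+1) → ℂ) : zq M (s+1) x = zq M s (mc (Nz M) x) := by
  unfold zq
  rw [pow_succ, mc_mul]

theorem PisL.zq_add (s : ℕ) (x y : Fin (m+1) → ℂ) : zq M s (x + y) = zq M s x + zq M s y := by
  unfold zq
  rw [mc_add, rc_add]

theorem PisL.zq_smul (s : ℕ) (c : ℂ) (x : Fin (m+1) → ℂ) : zq M s (c • x) = c * zq M s x := by
  unfold zq
  rw [mc_smul, rc_smul]

theorem PisL.zq_congr {x y : Fin (m+1) → ℂ} (s : ℕ) (h : ∀ i, i ≠ 0 → x i = y i) :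
    zq M s x = zq M s y := by
  cases s with
  | zero => rw [zq_zero, zq_zero, rc_congr h]
  | succ s => rw [zq_succ, zq_succ, Nc_congr h]

theorem PisL.zq_int (s : ℕ) : ∀ x : Fin (m+1) → ℤ, zq M s (fun i => (x i : ℂ)) = (qq M s x : ℂ) := by
  induction s with
  | zero =>
    intro x
    rw [zq_zero, qq_zero]
    unfold rc rw0
    push_cast
    refine Finset.sum_congr rfl fun j _ => ?_
    split_ifs
    · simp
    · simp
  | succ s ih =>
    intro x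
    rw [zq_succ, qq_succ, ← ih]
    congr 1
    funext i
    simp [mc, Matrix.mulVec, dotProduct]

theorem PisL.zq_mc (s : ℕ) (v : Fin (m+1) → ℂ) :
    zq M s (mc M v) = v 0 * (cc M s : ℂ) + zq M (s+1) v := by
  rw [zq_congr (y := v 0 • (fun i => (col M i : ℂ)) + mc (Nz M) v) s fun i hi => by
    rw [mc_pos' hi]; rfl, zq_add, zq_smul, zq_int, zq_succ]
  rfl

theorem PisL.zq_nil (h : Nz M ^ ν = 0) (x : Fin (m+1) → ℂ) : zq M ν x = 0 := by
  unfold zq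
  rw [h]
  simp [mc, rc, Matrix.mulVec, dotProduct]

theorem PisL.tel (z c : ℕ → ℝ) (u μ : ℝ) (n : ℕ) (hz : ∀ s, μ * z s ≤ u * c s + z (s+1))
    (h0 : z n = 0) :
    (μ - 1) * ∑ s ∈ Finset.range n, z s + z 0 ≤ u * ∑ s ∈ Finset.range n, c s := by
  have h1 := Finset.sum_le_sum (fun s (_ : s ∈ Finset.range n) => hz s)
  rw [← Finset.mul_sum, Finset.sum_add_distrib, ← Finset.mul_sum] at h1
  have h2 : ∑ s ∈ Finset.range n, z (s+1) + z 0 = ∑ s ∈ Finset.range n, z s + z n :=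
    (Finset.sum_range_succ' z n).symm.trans (Finset.sum_range_succ z n)
  linarith

/-- estimates for an eigenvector -/
theorem PisL.eigv (h : Ac M ν) {μ : ℂ} {u : Fin (m+1) → ℂ} (hu : mc M u = μ • u) :
    (‖μ‖ - 1) * ∑ s ∈ Finset.range ν, ‖zq M s u‖ + ‖rc M u‖ ≤ ‖u 0‖ * (CC M ν 0 : ℝ) := by
  have h1 := tel (fun s => ‖zq M s u‖) (fun s => (cc M s : ℝ)) ‖u 0‖ ‖μ‖ ν (fun s => by
    have h2 := zq_mc (M := M) s u
    rw [hu, zq_smul] at h2
    have h3 : ‖μ * zq M s u‖ = ‖u 0 * (cc M s : ℂ) + zq M (s+1) u‖ := by rw [h2]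
    rw [norm_mul] at h3
    rw [h3]
    refine (norm_add_le _ _).trans ?_
    rw [norm_mul]
    have h4 : ‖((cc M s : ℤ) : ℂ)‖ = (cc M s : ℝ) := by
      rw [Complex.norm_intCast, abs_of_nonneg]
      exact_mod_cast cc_nonneg h.nn s
    rw [h4]) (by simp only [zq_nil h.nil, norm_zero])
  have h2 : ∑ s ∈ Finset.range ν, (cc M s : ℝ) = (CC M ν 0 : ℝ) := by
    unfold CC
    rw [Finset.range_eq_Ico]
    push_cast
    rfl
  rw [h2] at h1
  simp only [zq_zero] at h1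
  exact h1

theorem PisL.dom' (h : Ac M ν) : 8 * ((CC M ν 0 : ℝ) + 1) ≤ (M 0 0 : ℝ) := by
  exact_mod_cast h.dom

theorem PisL.W0' (h : Ac M ν) : (0:ℝ) ≤ (CC M ν 0 : ℝ) := by exact_mod_cast h.W0

theorem PisL.zero_of (h : Ac M ν) {μ : ℂ} {u : Fin (m+1) → ℂ} (hμ : 1 ≤ ‖μ‖)
    (hu : mc M u = μ • u) (h0 : u 0 = 0) : u = 0 := by
  have h1 := eigv h hu
  rw [h0, norm_zero, zero_mul] at h1
  have h2 : 0 ≤ ∑ s ∈ Finset.range ν, ‖zq M s u‖ := Finset.sum_nonneg fun _ _ => norm_nonneg _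
  have h3 : 0 ≤ (‖μ‖ - 1) * ∑ s ∈ Finset.range ν, ‖zq M s u‖ := mul_nonneg (by linarith) h2
  have h5 : mc (Nz M) u = μ • u := by
    funext i
    by_cases hi : i = 0
    · rw [hi, Nc_zero, Pi.smul_apply, h0, smul_zero]
    · rw [← hu, mc_pos' (M := M) hi, h0, zero_mul, zero_add]
  have h6 : mc (Nz M ^ ν) u = μ ^ ν • u := by
    have : ∀ n : ℕ, mc (Nz M ^ n) u = μ ^ n • u := by
      intro n
      induction n with
      | zero => rw [pow_zero, pow_zero, mc_one, one_smul]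
      | succ n ih => rw [pow_succ, mc_mul, h5, mc_smul, ih, smul_smul, pow_succ, mul_comm]
    exact this ν
  rw [h.nil] at h6
  have h7 : μ ^ ν • u = 0 := by
    rw [← h6]
    funext i
    simp [mc, Matrix.mulVec, dotProduct]
  have hμ0 : μ ≠ 0 := by
    rintro rfl
    rw [norm_zero] at hμ
    linarith
  rcases smul_eq_zero.1 h7 with h8 | h8
  · exact absurd h8 (pow_ne_zero _ hμ0)
  · exact h8

theorem PisL.big (h : Ac M ν) {μ : ℂ} {u : Fin (m+1) → ℂ} (hμ : 1 ≤ ‖μ‖)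
    (hu : mc M u = μ • u) (h0 : u 0 ≠ 0) :
    ∑ s ∈ Finset.range ν, ‖zq M s u‖ < ‖u 0‖ := by
  have h1 := eigv h hu
  have hd := dom' h
  have hW := W0' h
  have hu0 : 0 < ‖u 0‖ := norm_pos_iff.2 h0
  obtain ⟨S, hS⟩ : ∃ S, S = ∑ s ∈ Finset.range ν, ‖zq M s u‖ := ⟨_, rfl⟩
  have hS0 : 0 ≤ S := by rw [hS]; exact Finset.sum_nonneg fun _ _ => norm_nonneg _
  rw [← hS] at h1 ⊢
  have h2 : μ * u 0 = (M 0 0 : ℂ) * u 0 + rc M u := by
    rw [← mc_zero', hu]; rfl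
  have h3 : ‖(M 0 0 : ℂ) * u 0‖ ≤ ‖μ * u 0‖ + ‖rc M u‖ := by
    have : (M 0 0 : ℂ) * u 0 = μ * u 0 - rc M u := by rw [h2]; ring
    rw [this]
    exact norm_sub_le _ _
  rw [norm_mul, norm_mul, Complex.norm_intCast, abs_of_nonneg (by linarith : (0:ℝ) ≤ (M 0 0 : ℝ))]
    at h3
  have h4 : 0 ≤ (‖μ‖ - 1) * S := mul_nonneg (by linarith) hS0
  have h5 : ((M 0 0 : ℝ) - (CC M ν 0 : ℝ)) * ‖u 0‖ ≤ ‖μ‖ * ‖u 0‖ := by linarith
  have h6 := le_of_mul_le_mul_right h5 hu0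
  have h7 := norm_nonneg (rc M u)
  by_contra hcon
  push Not at hcon
  have h8 : (7 * (CC M ν 0 : ℝ) + 7) * ‖u 0‖ ≤ (‖μ‖ - 1) * S :=
    mul_le_mul (by linarith) hcon hu0.le (by linarith)
  nlinarith

theorem PisL.key (h : Ac M ν) (κ μ α : ℂ) (u x : Fin (m+1) → ℂ) (hκ : 1 ≤ ‖κ‖) (hμ : 1 ≤ ‖μ‖)
    (hu : mc M u = μ • u) (hx : mc M x = κ • x + α • u) (h0 : x 0 = 0) : x = 0 := by
  have hα : α • u = 0 := by
    by_cases hu0 : u 0 = 0
    · rw [zero_of h hμ hu hu0, smul_zero]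
    have h1 := big h hμ hu hu0
    have h2 := tel (fun s => ‖zq M s x‖) (fun s => ‖zq M s u‖) ‖α‖ 1 ν (fun s => by
      have h3 := zq_mc (M := M) s x
      rw [hx, zq_add, zq_smul, zq_smul, h0, zero_mul, zero_add] at h3
      have h4 : κ * zq M s x = zq M (s+1) x - α * zq M s u := by rw [← h3]; ring
      have h5 : ‖κ‖ * ‖zq M s x‖ ≤ ‖zq M (s+1) x‖ + ‖α‖ * ‖zq M s u‖ := by
        rw [← norm_mul, h4, ← norm_mul]
        exact norm_sub_le _ _
      have h6 : 1 * ‖zq M s x‖ ≤ ‖κ‖ * ‖zq M s x‖ := mul_le_mul_of_nonneg_right hκ (norm_nonneg _)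
      linarith) (by simp only [zq_nil h.nil, norm_zero])
    simp only [sub_self, zero_mul, zero_add, zq_zero] at h2
    have h3 : α * u 0 = rc M x := by
      have h4 := mc_zero' (M := M) x
      rw [hx, h0, mul_zero, zero_add] at h4
      simpa [h0] using h4
    rw [← h3, norm_mul] at h2
    by_cases hα : α = 0
    · rw [hα, zero_smul]
    · exfalso
      have h4 := le_of_mul_le_mul_left h2 (norm_pos_iff.2 hα)
      linarith
  exact zero_of h hκ (by rw [hx, hα, add_zero]) h0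

theorem pis : S_PIS := by
  intro m M ν h
  obtain ⟨h1, h2⟩ := pisIrr_of_key M h.det_ne (PisL.key h) (fun lam y hlam hy hy0 => by
    have hn : ‖((lam : ℝ) : ℂ)‖ = |lam| := by rw [Complex.norm_real, Real.norm_eq_abs]
    have h1 := PisL.eigv h hy
    have h3 : 0 ≤ (‖((lam : ℝ) : ℂ)‖ - 1) * ∑ s ∈ Finset.range ν, ‖PisL.zq M s (cr y)‖ :=
      mul_nonneg (by rw [hn]; linarith) (Finset.sum_nonneg fun _ _ => norm_nonneg _)
    have h4 := PisL.mc_zero' (M := M) (cr y)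
    rw [hy] at h4
    have h5 : PisL.rc M (cr y) = (((lam - (M 0 0 : ℝ)) * y 0 : ℝ) : ℂ) := by
      have : (lam : ℂ) * (y 0 : ℂ) = (M 0 0 : ℂ) * (y 0 : ℂ) + PisL.rc M (cr y) := by
        simpa [cr] using h4
      push_cast
      linear_combination -this
    have h6 : ‖cr y 0‖ = y 0 := by
      unfold cr
      rw [Complex.norm_real, Real.norm_eq_abs, abs_of_pos hy0]
    have h10 : ‖PisL.rc M (cr y)‖ = |lam - (M 0 0 : ℝ)| * y 0 := by
      rw [h5, Complex.norm_real, Real.norm_eq_abs, abs_mul, abs_of_pos hy0]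
    rw [h6, h10] at h1
    have h7 : |lam - (M 0 0 : ℝ)| * y 0 ≤ (CC M ν 0 : ℝ) * y 0 := by linarith
    have h8 := le_of_mul_le_mul_right h7 hy0
    have h9 := (abs_le.1 h8).1
    have hd := PisL.dom' h
    have hW := PisL.W0' h
    linarith)
  exact ⟨h1, h.det, h2⟩

end Pool.Agent.Helper43K9.AC
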