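import Pool.Agent.Helper43K9.AC.Defs

/-!
# [SRCH]
-/

set_option autoImplicit false

namespace Pool.Agent.Helper43K9.AC
open Pool.Agent.H812R2.PI Pool.Agent.Y316.Pisot Pool.Agent.Helper65K9.PSC
open scoped BigOperators

theorem srch : S_SRCH := by
  intro m φ hφ hle W V hW hV x y P hPx hPy hQx hQy
  have h0 := hφ 0
  obtain ⟨z, r, h1, h2, h3⟩ := next_edge hφ hle hW x (P + φ 0) (by linarith) (by linarith)
  obtain ⟨z2, r2, h4, h5, h6⟩ := next_edge hφ hle hV y (hh φ x + hh φ (ab z) - 5 * φ 0 / 8)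
    (by linarith) (by linarith)
  refine ⟨(x + ab z, 0), ?_, (y + ab z2, 0), ?_, rfl, rfl, ?_⟩
  · rw [h1]
    exact edge_mem x z 0 r
  · rw [h4]
    exact edge_mem y z2 0 r2
  · have h7 : hh φ ((y + ab z2) - (x + ab z)) = hh φ y + hh φ (ab z2) - (hh φ x + hh φ (ab z)) := by
      rw [hh_sub, hh_add, hh_add]
    change 4 * |hh φ ((y + ab z2) - (x + ab z))| ≤ 3 * φ 0
    rw [h7]
    have h8 : |hh φ y + hh φ (ab z2) - (hh φ x + hh φ (ab z))| ≤ 5 * φ 0 / 8 := by
      rw [abs_le]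
      constructor <;> linarith
    linarith

end Pool.Agent.Helper43K9.AC
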