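import Pool.Agent.Helper43K9.AC.Defs

/-!
# [STR]
-/

set_option autoImplicit false

namespace Pool.Agent.Helper43K9.AC
open Pool.Agent.H812R2.PI Pool.Agent.Y316.Pisot Pool.Agent.Helper65K9.PSC
open scoped BigOperators

variable {m : ℕ}

/-- the prefix before a letter `0` -/
theorem StrL_pre (w : List (Fin (m+1))) (j : ℕ) (hj : j < w.count 0) :
    ∃ u v, w = u ++ 0 :: v ∧ u.count 0 = j := by
  induction w generalizing j with
  | nil => simp at hj
  | cons a w ih =>
    by_cases ha : a = 0
    · subst ha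
      rcases j with _ | j
      · exact ⟨[], w, by simp, by simp⟩
      · rw [List.count_cons_self] at hj
        obtain ⟨u, v, h1, h2⟩ := ih j (by omega)
        exact ⟨0 :: u, v, by rw [h1]; rfl, by rw [List.count_cons_self, h2]⟩
    · rw [List.count_cons_of_ne ha] at hj
      obtain ⟨u, v, h1, h2⟩ := ih j hj
      exact ⟨a :: u, v, by rw [h1]; rfl, by rw [List.count_cons_of_ne ha, h2]⟩

theorem StrL_mono {w u v u' v' : List (Fin (m+1))} (h : w = u ++ 0 :: v) (h' : w = u' ++ 0 :: v')
    (hc : u.count 0 < u'.count 0) (i : Fin (m+1)) : ab u i ≤ ab u' i := by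
  have h1 : u <+: w := ⟨0 :: v, h.symm⟩
  have h2 : u' <+: w := ⟨0 :: v', h'.symm⟩
  have h3 : u <+: u' := by
    rcases List.prefix_or_prefix_of_prefix h1 h2 with h3 | h3
    · exact h3
    · exfalso
      have := h3.sublist.count_le 0
      omega
  have h4 := h3.sublist.count_le i
  change ((u.count i : ℕ) : ℤ) ≤ ((u'.count i : ℕ) : ℤ)
  exact_mod_cast h4

theorem StrL_le {w u v : List (Fin (m+1))} (h : w = u ++ 0 :: v) (i : Fin (m+1)) :
    ab u i ≤ ab w i := by
  have h1 : u <+: w := ⟨0 :: v, h.symm⟩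
  have h4 := h1.sublist.count_le i
  change ((u.count i : ℕ) : ℤ) ≤ ((w.count i : ℕ) : ℤ)
  exact_mod_cast h4

theorem StrL_nn (u : List (Fin (m+1))) (i : Fin (m+1)) : 0 ≤ ab u i := by
  change (0 : ℤ) ≤ ((u.count i : ℕ) : ℤ)
  positivity

/-- `b N^s` is monotone -/
theorem StrL_qq {M : Matrix (Fin (m+1)) (Fin (m+1)) ℤ} (hM : ∀ i j, 0 ≤ M i j) (s : ℕ)
    {x y : Fin (m+1) → ℤ} (h : ∀ i, x i ≤ y i) : qq M s x ≤ qq M s y := by
  have hN : ∀ i j, 0 ≤ Nz M i j := by
    intro i j
    unfold Nz
    split_ifs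
    · exact le_rfl
    · exact hM i j
  have hv : ∀ (s : ℕ) (x y : Fin (m+1) → ℤ), (∀ i, x i ≤ y i) → ∀ i,
      ((Nz M ^ s).mulVec x) i ≤ ((Nz M ^ s).mulVec y) i := by
    intro s
    induction s with
    | zero =>
      intro x y h i
      simpa using h i
    | succ s ih =>
      intro x y h i
      rw [pow_succ', ← Matrix.mulVec_mulVec, ← Matrix.mulVec_mulVec]
      simp only [Matrix.mulVec, dotProduct]
      exact Finset.sum_le_sum fun j _ => mul_le_mul_of_nonneg_left (ih x y h j) (hN i j)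
  unfold qq rw0
  refine Finset.sum_le_sum fun j _ => ?_
  split_ifs
  · exact le_rfl
  · exact mul_le_mul_of_nonneg_left (hv s x y h j) (hM 0 j)

theorem StrL_add (M : Matrix (Fin (m+1)) (Fin (m+1)) ℤ) (s : ℕ) (x y : Fin (m+1) → ℤ) :
    qq M s (x + y) = qq M s x + qq M s y := by
  unfold qq rw0
  rw [Matrix.mulVec_add, ← Finset.sum_add_distrib]
  refine Finset.sum_congr rfl fun j _ => ?_
  split_ifs
  · simp
  · rw [Pi.add_apply, mul_add]

theorem StrL_zero (M : Matrix (Fin (m+1)) (Fin (m+1)) ℤ) (s : ℕ) : qq M s 0 = 0 := by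
  unfold qq rw0
  rw [Matrix.mulVec_zero]
  refine Finset.sum_eq_zero fun j _ => ?_
  split_ifs
  · rfl
  · simp

theorem StrL_sum (M : Matrix (Fin (m+1)) (Fin (m+1)) ℤ) (s : ℕ) (J : ℕ)
    (f : ℕ → Fin (m+1) → ℤ) : ∑ j ∈ Finset.range J, qq M s (f j) = qq M s (∑ j ∈ Finset.range J, f j) := by
  induction J with
  | zero => simp [StrL_zero]
  | succ J ih => rw [Finset.sum_range_succ, Finset.sum_range_succ, ih, StrL_add]

theorem str : S_STR := by
  intro m M ν hA t ht k
  have hcnt : ∀ i, ab (t 0) i = M i 0 := by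
    intro i
    rw [← ht]
    rfl
  have hn : (((t 0).count 0 : ℕ) : ℤ) = M 0 0 := hcnt 0
  -- the prefixes
  have hex : ∀ j : ℕ, ∃ u : List (Fin (m+1)), j < (t 0).count 0 →
      ∃ v, t 0 = u ++ 0 :: v ∧ u.count 0 = j := by
    intro j
    by_cases hj : j < (t 0).count 0
    · obtain ⟨u, v, h1, h2⟩ := StrL_pre (t 0) j hj
      exact ⟨u, fun _ => ⟨v, h1, h2⟩⟩
    · exact ⟨[], fun h => absurd h hj⟩
  choose p hp using hex
  have hedge : ∀ j, j < (t 0).count 0 → (ab (p j), (0 : Fin (m+1))) ∈ edges 0 (t 0) := by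
    intro j hj
    obtain ⟨v, h1, h2⟩ := hp j hj
    have := edge_mem (0 : Fin (m+1) → ℤ) (p j) 0 v
    rw [zero_add, ← h1] at this
    exact this
  have hp0 : ∀ j, j < (t 0).count 0 → ab (p j) 0 = j := by
    intro j hj
    obtain ⟨v, h1, h2⟩ := hp j hj
    change (((p j).count 0 : ℕ) : ℤ) = j
    rw [h2]
  have hmono : ∀ j j', j ≤ j' → j' < (t 0).count 0 → ∀ i, ab (p j) i ≤ ab (p j') i := by
    intro j j' hjj hj' i
    rcases eq_or_lt_of_le hjj with h | h
    · rw [h]
    · obtain ⟨v, h1, h2⟩ := hp j (h.trans hj')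
      obtain ⟨v', h1', h2'⟩ := hp j' hj'
      exact StrL_mono h1 h1' (by rw [h2, h2']; exact h) i
  have hup : ∀ j, j < (t 0).count 0 → ∀ i, ab (p j) i ≤ M i 0 := by
    intro j hj i
    obtain ⟨v, h1, h2⟩ := hp j hj
    rw [← hcnt i]
    exact StrL_le h1 i
  have hcol : ∀ j j', j ≤ j' → j' < (t 0).count 0 → ∀ i, i ≠ 0 →
      0 ≤ ab (p j') i - ab (p j) i ∧ ab (p j') i - ab (p j) i ≤ col M i := by
    intro j j' hjj hj' i hi
    have h1 := hmono j j' hjj hj' i
    have h2 := hup j' hj' i
    have h3 := StrL_nn (p j) i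
    have h4 : col M i = M i 0 := by
      unfold col
      rw [if_neg hi]
    rw [h4]
    constructor <;> linarith
  constructor
  · intro hk
    have hk' : k < (t 0).count 0 := by
      rw [← hn] at hk
      exact_mod_cast hk
    refine ⟨ab (p 0), ab (p k), hedge 0 (by omega), hedge k hk', ?_, hcol 0 k (by omega) hk'⟩
    rw [hp0 k hk', hp0 0 (by omega)]
    simp
  · intro hk1 hk
    have hkn : k < (t 0).count 0 := by
      have hC0 : 0 ≤ CC M ν 0 := by
        unfold CC
        refine Finset.sum_nonneg fun s _ => ?_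
        unfold cc
        rw [← StrL_zero M s]
        apply StrL_qq hA.nn
        intro i
        unfold col
        split_ifs
        · exact le_rfl
        · exact hA.nn i 0
      omega
    set J : ℕ := ((t 0).count 0 - 1) / k with hJ
    have hJk : J * k ≤ (t 0).count 0 - 1 := Nat.div_mul_le_self _ _
    have hJk2 : (t 0).count 0 - 1 < (J + 1) * k := by
      have h1 := Nat.lt_mul_div_succ ((t 0).count 0 - 1) hk1
      rw [mul_comm]
      exact h1
    have hlt : ∀ j ≤ J, j * k < (t 0).count 0 := by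
      intro j hj
      have : j * k ≤ J * k := Nat.mul_le_mul_right k hj
      omega
    by_contra hcon
    push Not at hcon
    have hge : ∀ j ∈ Finset.range J, (k : ℤ) ≤ wt M ν (ab (p ((j + 1) * k)) - ab (p (j * k))) := by
      intro j hj
      rw [Finset.mem_range] at hj
      have h1 := hlt j hj.le
      have h2 := hlt (j + 1) hj
      have h3 : j * k ≤ (j + 1) * k := Nat.mul_le_mul_right k (by omega)
      by_contra h4
      push Not at h4
      have h5 := hcon (ab (p (j * k))) (ab (p ((j + 1) * k))) (hedge _ h1) (hedge _ h2) (by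
        rw [hp0 _ h1, hp0 _ h2]
        push_cast
        ring) (hcol _ _ h3 h2)
      omega
    have hwt : ∀ j ∈ Finset.range J, wt M ν (ab (p ((j + 1) * k)) - ab (p (j * k))) =
        ∑ s ∈ Finset.range ν, qq M s (fun i => if i = 0 then 0 else
          ab (p ((j + 1) * k)) i - ab (p (j * k)) i) := by
      intro j hj
      rw [Finset.mem_range] at hj
      have h3 : j * k ≤ (j + 1) * k := Nat.mul_le_mul_right k (by omega)
      unfold wt
      refine Finset.sum_congr rfl fun s _ => ?_
      congr 1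
      funext i
      split_ifs with hi
      · rfl
      · rw [Pi.sub_apply, abs_of_nonneg (hcol _ _ h3 (hlt (j + 1) hj) i hi).1]
    have htot : ∑ j ∈ Finset.range J, wt M ν (ab (p ((j + 1) * k)) - ab (p (j * k))) ≤ CC M ν 0 := by
      rw [Finset.sum_congr rfl hwt, Finset.sum_comm]
      unfold CC
      rw [← Finset.range_eq_Ico]
      refine Finset.sum_le_sum fun s _ => ?_
      rw [StrL_sum]
      unfold cc
      apply StrL_qq hA.nn
      intro i
      rw [Finset.sum_apply]
      by_cases hi : i = 0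
      · rw [hi]
        simp [col]
      · have h1 : ∑ j ∈ Finset.range J, (if i = 0 then (0 : ℤ) else
            ab (p ((j + 1) * k)) i - ab (p (j * k)) i) =
            ∑ j ∈ Finset.range J, (ab (p ((j + 1) * k)) i - ab (p (j * k)) i) := by
          refine Finset.sum_congr rfl fun j _ => ?_
          rw [if_neg hi]
        rw [h1, Finset.sum_range_sub (fun j => ab (p (j * k)) i)]
        have h2 := (hcol (0 * k) (J * k) (Nat.mul_le_mul_right k (Nat.zero_le J)) (hlt J le_rfl) i hi).2
        exact h2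
    have hfin : (J : ℤ) * k ≤ CC M ν 0 := by
      refine le_trans ?_ htot
      have h1 := Finset.sum_le_sum hge
      rw [Finset.sum_const, Finset.card_range, nsmul_eq_mul] at h1
      exact h1
    have h6 : (((t 0).count 0 : ℕ) : ℤ) ≤ (J + 1) * k := by
      have : (t 0).count 0 ≤ (J + 1) * k := by omega
      exact_mod_cast this
    rw [← hn] at hk
    nlinarith

end Pool.Agent.Helper43K9.AC
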