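import Pool.Agent.Helper43K9.AC.Bas

/-!
AC [ZF]: factors without the letter `0` are short.
-/

set_option autoImplicit false

namespace Pool.Agent.Helper43K9.AC
open Pool.Agent.H812R2.PI Pool.Agent.Y316.Pisot Pool.Agent.Helper65K9.PSC
open scoped BigOperators

variable {m : ℕ} {M : Matrix (Fin (m+1)) (Fin (m+1)) ℤ} {ν : ℕ}

theorem ZfL.Nz_mono (hM : ∀ i j, 0 ≤ M i j) {x y : Fin (m+1) → ℤ}
    (h : ∀ i, i ≠ 0 → x i ≤ y i) (i : Fin (m+1)) :
    (Nz M).mulVec x i ≤ (Nz M).mulVec y i := by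
  simp only [Matrix.mulVec, dotProduct, Nz]
  refine Finset.sum_le_sum fun j _ => ?_
  by_cases hj : j = 0
  · simp [hj]
  · by_cases hi : i = 0
    · simp [hi]
    · rw [if_neg (by tauto)]
      exact mul_le_mul_of_nonneg_left (h j hj) (hM i j)

theorem ZfL.Nz_nonneg (hM : ∀ i j, 0 ≤ M i j) {x : Fin (m+1) → ℤ}
    (h : ∀ i, i ≠ 0 → 0 ≤ x i) (i : Fin (m+1)) : 0 ≤ (Nz M).mulVec x i := by
  have h1 := Nz_mono (M := M) hM (x := 0) (y := x) h i
  rwa [Matrix.mulVec_zero] at h1

theorem ZfL.Nz_ev {c : Fin (m+1)} (hc : c ≠ 0) {i : Fin (m+1)} (hi : i ≠ 0) :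
    (Nz M).mulVec (ev c) i = M i c := by
  simp only [Matrix.mulVec, dotProduct, Nz, ev]
  rw [Finset.sum_eq_single c]
  · simp [hc, hi]
  · intro j _ hj
    simp [hj]
  · intro h
    exact absurd (Finset.mem_univ c) h

theorem ZfL.ab_le {F W : List (Fin (m+1))} (h : List.Sublist F W) (i : Fin (m+1)) :
    ab F i ≤ ab W i := by
  simp only [ab]
  exact_mod_cast h.count_le i

theorem ZfL.ab_img {t : Fin (m+1) → List (Fin (m+1))} (ht : inc t = M) (c i : Fin (m+1)) :
    ab (t c) i = M i c := by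
  rw [← ht]
  rfl

theorem ZfL.ab_nonneg (F : List (Fin (m+1))) (i : Fin (m+1)) : 0 ≤ ab F i := by
  simp only [ab]
  positivity

/-- a factor inside one image -/
theorem ZfL.one {t : Fin (m+1) → List (Fin (m+1))} (ht : inc t = M) (hM : ∀ i j, 0 ≤ M i j)
    {c : Fin (m+1)} {F : List (Fin (m+1))} (h : List.Sublist F (t c)) :
    (c = 0 ∧ ∀ i, i ≠ 0 → ab F i ≤ col M i) ∨
    (c ≠ 0 ∧ ∀ i, i ≠ 0 → ab F i ≤ (Nz M).mulVec (ev c) i) := by
  by_cases hc : c = 0
  · refine Or.inl ⟨hc, fun i hi => ?_⟩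
    refine (ab_le h i).trans (le_of_eq ?_)
    rw [ab_img ht, hc]
    simp [col, hi]
  · refine Or.inr ⟨hc, fun i hi => ?_⟩
    refine (ab_le h i).trans (le_of_eq ?_)
    rw [ab_img ht, Nz_ev hc hi]

theorem ZfL.zero_mem {t : Fin (m+1) → List (Fin (m+1))} (ht : inc t = M) (hA : Ac M ν) :
    (0 : Fin (m+1)) ∈ t 0 := by
  have h1 : ab (t 0) 0 = M 0 0 := ab_img ht 0 0
  have h2 := hA.dom
  have h3 := hA.W0
  simp only [ab] at h1
  have h4 : 0 < (t 0).count 0 := by
    have : (0:ℤ) < ((t 0).count 0 : ℤ) := by rw [h1]; linarith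
    exact_mod_cast this
  exact List.count_pos_iff.1 h4

theorem ZfL.pre {t : Fin (m+1) → List (Fin (m+1))} (ht : inc t = M) (hA : Ac M ν)
    (W : List (Fin (m+1))) : ∀ F : List (Fin (m+1)), F <+: ext t W → (∀ x ∈ F, x ≠ 0) →
    ∃ F', F' <+: W ∧ (∀ x ∈ F', x ≠ 0) ∧
      ∀ i, i ≠ 0 → ab F i ≤ (Nz M).mulVec (ab F') i + col M i := by
  induction W with
  | nil =>
    intro F hF _
    have h1 : F = [] := by
      have : ext t [] = ([] : List (Fin (m+1))) := rfl
      rw [this] at hF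
      exact List.prefix_nil.1 hF
    refine ⟨[], List.prefix_rfl, by simp, fun i _ => ?_⟩
    rw [h1, ab_nil, Matrix.mulVec_zero, Pi.zero_apply, zero_add]
    exact col_nonneg hA.nn i
  | cons c W ih =>
    rintro F ⟨r, hr⟩ hF0
    rw [ext_cons, List.append_eq_append_iff] at hr
    rcases hr with ⟨a', h1, h2⟩ | ⟨c', h1, h2⟩
    · have h3 : List.Sublist F (t c) := by rw [h1]; exact List.sublist_append_left _ _
      rcases one ht hA.nn h3 with ⟨hc, h4⟩ | ⟨hc, h4⟩
      · refine ⟨[], List.nil_prefix, by simp, fun i hi => ?_⟩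
        rw [ab_nil, Matrix.mulVec_zero, Pi.zero_apply, zero_add]
        exact h4 i hi
      · refine ⟨[c], ⟨W, rfl⟩, by simpa using hc, fun i hi => ?_⟩
        rw [ab_single]
        have := h4 i hi
        have := col_nonneg hA.nn i
        linarith
    · have hc : c ≠ 0 := by
        rintro rfl
        exact hF0 0 (by rw [h1]; exact List.mem_append_left _ (zero_mem ht hA)) rfl
      obtain ⟨F', h3, h4, h5⟩ := ih c' ⟨r, h2.symm⟩ fun x hx => hF0 x (by
        rw [h1]; exact List.mem_append_right _ hx)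
      refine ⟨c :: F', (List.cons_prefix_cons.2 ⟨rfl, h3⟩), ?_, fun i hi => ?_⟩
      · intro x hx
        rcases List.mem_cons.1 hx with h | h
        · rw [h]; exact hc
        · exact h4 x h
      · rw [h1, ab_append, ab_cons, Matrix.mulVec_add, Pi.add_apply, Pi.add_apply, ab_img ht,
          Nz_ev hc hi]
        have := h5 i hi
        linarith

theorem ZfL.inf {t : Fin (m+1) → List (Fin (m+1))} (ht : inc t = M) (hA : Ac M ν)
    (W : List (Fin (m+1))) : ∀ F : List (Fin (m+1)), F <:+: ext t W → (∀ x ∈ F, x ≠ 0) →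
    ∃ F', F' <:+: W ∧ (∀ x ∈ F', x ≠ 0) ∧
      ∀ i, i ≠ 0 → ab F i ≤ (Nz M).mulVec (ab F') i + 2 * col M i := by
  induction W with
  | nil =>
    intro F hF _
    have h1 : F = [] := by
      have : ext t [] = ([] : List (Fin (m+1))) := rfl
      rw [this] at hF
      exact List.infix_nil.1 hF
    refine ⟨[], List.infix_rfl, by simp, fun i _ => ?_⟩
    rw [h1, ab_nil, Matrix.mulVec_zero, Pi.zero_apply, zero_add]
    have := col_nonneg hA.nn i
    linarith
  | cons c W ih =>
    rintro F ⟨s, r, hr⟩ hF0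
    rw [ext_cons, List.append_eq_append_iff] at hr
    rcases hr with ⟨a', h1, h2⟩ | ⟨c', h1, h2⟩
    · have h3 : List.Sublist F (t c) := by
        rw [h1, List.append_assoc]
        exact (List.sublist_append_left _ _).trans (List.sublist_append_right _ _)
      rcases one ht hA.nn h3 with ⟨hc, h4⟩ | ⟨hc, h4⟩
      · refine ⟨[], List.nil_infix, by simp, fun i hi => ?_⟩
        rw [ab_nil, Matrix.mulVec_zero, Pi.zero_apply, zero_add]
        have := h4 i hi
        have := col_nonneg hA.nn i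
        linarith
      · refine ⟨[c], ⟨[], W, rfl⟩, by simpa using hc, fun i hi => ?_⟩
        rw [ab_single]
        have := h4 i hi
        have := col_nonneg hA.nn i
        linarith
    · rw [List.append_eq_append_iff] at h1
      rcases h1 with ⟨a', h3, h4⟩ | ⟨c'', h3, h4⟩
      · -- `F = a' ++ c'`
        obtain ⟨F', h5, h6, h7⟩ := pre ht hA W c' ⟨r, h2.symm⟩ fun x hx => hF0 x (by
          rw [h4]; exact List.mem_append_right _ hx)
        have h8 : List.Sublist a' (t c) := by rw [h3]; exact List.sublist_append_right _ _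
        rcases one ht hA.nn h8 with ⟨hc, h9⟩ | ⟨hc, h9⟩
        · refine ⟨F', h5.isInfix.trans ⟨[c], [], by simp⟩, h6, fun i hi => ?_⟩
          rw [h4, ab_append, Pi.add_apply]
          have := h7 i hi
          have := h9 i hi
          linarith
        · refine ⟨c :: F', (List.cons_prefix_cons.2 ⟨rfl, h5⟩ : c :: F' <+: c :: W).isInfix, ?_,
            fun i hi => ?_⟩
          · intro x hx
            rcases List.mem_cons.1 hx with h | h
            · rw [h]; exact hc
            · exact h6 x h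
          · rw [h4, ab_append, ab_cons, Matrix.mulVec_add, Pi.add_apply, Pi.add_apply]
            have := h7 i hi
            have := h9 i hi
            have := col_nonneg hA.nn i
            linarith
      · obtain ⟨F', h5, h6, h7⟩ := ih F ⟨c'', r, by rw [h2, h4]⟩ hF0
        exact ⟨F', h5.trans ⟨[c], [], by simp⟩, h6, h7⟩

/-- `∑_{k < n} N^k a` -/
def ZfL.XX (M : Matrix (Fin (m+1)) (Fin (m+1)) ℤ) : ℕ → (Fin (m+1) → ℤ)
  | 0 => 0
  | n + 1 => (Nz M).mulVec (XX M n) + col M

theorem ZfL.XX_zero (n : ℕ) : XX M n 0 = 0 := by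
  cases n with
  | zero => rfl
  | succ n =>
    show (Nz M).mulVec (XX M n) 0 + col M 0 = 0
    rw [Nz_zero]
    simp [col]

theorem ZfL.qq_XX (hA : Ac M ν) (n : ℕ) : ∀ s, 0 ≤ qq M s (XX M n) ∧
    qq M s (XX M n) ≤ CC M ν s := by
  induction n with
  | zero =>
    intro s
    show 0 ≤ qq M s 0 ∧ qq M s 0 ≤ CC M ν s
    rw [qq_zero_vec]
    exact ⟨le_rfl, CC_nonneg hA.nn _ _⟩
  | succ n ih =>
    intro s
    have h1 : qq M s (XX M (n+1)) = qq M (s+1) (XX M n) + cc M s := by
      show qq M s ((Nz M).mulVec (XX M n) + col M) = _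
      rw [qq_add, qq_succ]
      rfl
    have h2 := ih (s+1)
    have h3 := CC_succ hA.nil s
    have h4 := cc_nonneg hA.nn s
    rw [h1]
    constructor <;> linarith [h2.1, h2.2]

theorem ZfL.list (hA : Ac M ν) (L : List (Fin (m+1) → List (Fin (m+1)))) (b : Fin (m+1)) :
    (∀ t ∈ L, inc t = M) → ∀ F : List (Fin (m+1)), F <:+: compList L b → (∀ x ∈ F, x ≠ 0) →
    ∃ F' : List (Fin (m+1)), ∀ i, i ≠ 0 →
      ab F i ≤ (Nz M ^ L.length).mulVec (ab F') i + 2 * XX M L.length i := by
  induction L with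
  | nil =>
    intro _ F _ _
    refine ⟨F, fun i _ => ?_⟩
    rw [List.length_nil, pow_zero, Matrix.one_mulVec]
    show ab F i ≤ ab F i + 2 * 0
    linarith
  | cons t L ih =>
    intro hL F hF hF0
    obtain ⟨F1, h1, h2, h3⟩ := inf (hL t (List.mem_cons_self ..)) hA (compList L b) F hF hF0
    obtain ⟨F', h4⟩ := ih (fun t' h' => hL t' (List.mem_cons_of_mem _ h')) F1 h1 h2
    refine ⟨F', fun i hi => (h3 i hi).trans ?_⟩
    have h5 := Nz_mono hA.nn (x := ab F1)
      (y := (Nz M ^ L.length).mulVec (ab F') + (2:ℤ) • XX M L.length) (fun j hj => by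
        have := h4 j hj
        simpa using this) i
    rw [Matrix.mulVec_add, Matrix.mulVec_mulVec, ← pow_succ', Matrix.mulVec_smul, Pi.add_apply,
      Pi.smul_apply, smul_eq_mul] at h5
    have h6 : XX M (t :: L).length i = (Nz M).mulVec (XX M L.length) i + col M i := rfl
    rw [h6, List.length_cons]
    linarith

theorem zf : S_ZF := by
  intro m M ν hA φ β hφ hβ L hL hlen b F hF hF0
  have hd : Hd M ν φ β := ⟨hA, hφ, hβ⟩
  obtain ⟨F', h1⟩ := ZfL.list hA L b hL F hF hF0
  obtain ⟨k, hk⟩ := Nat.exists_eq_add_of_le hlen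
  have h2 : Nz M ^ L.length = 0 := by rw [hk, pow_add, hA.nil, zero_mul]
  rw [h2] at h1
  obtain ⟨x, hx⟩ : ∃ x, x = ZfL.XX M L.length := ⟨_, rfl⟩
  rw [← hx] at h1
  have hx0 : x 0 = 0 := by rw [hx]; exact ZfL.XX_zero _
  have h3 := hd.small hx0 hA.W0 (fun s => by
    have h4 := ZfL.qq_XX hA L.length s
    rw [← hx] at h4
    rw [abs_of_nonneg h4.1]
    exact h4.2.trans (CC_le hA.nn hA.nil s))
  have h5 : hh φ (ab F) ≤ 2 * hh φ x := by
    unfold hh
    rw [Finset.mul_sum]
    refine Finset.sum_le_sum fun i _ => ?_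
    have h6 : ((ab F i : ℤ) : ℝ) ≤ 2 * (x i : ℝ) := by
      by_cases hi : i = 0
      · rw [hi, hx0]
        have : ab F 0 = 0 := by
          simp only [ab]
          rw [List.count_eq_zero.2 fun h0 => hF0 0 h0 rfl]
          rfl
        rw [this]
        simp
      · have h7 := h1 i hi
        rw [Matrix.zero_mulVec, Pi.zero_apply, zero_add] at h7
        exact_mod_cast h7
    have := mul_le_mul_of_nonneg_left h6 (hφ i).le
    linarith
  have h6 := hd.W0
  have h7 := hd.pos 0
  have h8 : (8 * (CC M ν 0 : ℝ) + 7) * (8 * |hh φ x|) ≤ (8 * (CC M ν 0 : ℝ) + 7) * φ 0 := by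
    nlinarith
  have h9 := le_of_mul_le_mul_left h8 (by linarith)
  have h10 := le_abs_self (hh φ x)
  linarith

end Pool.Agent.Helper43K9.AC
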