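import Pool.Agent.Helper43K9.AC.Main
import Pool.Agent.Helper43K9.AC.Pis
import Pool.Agent.Helper43K9.AC.Zf
import Pool.Agent.Helper43K9.AC.Str
import Pool.Agent.Helper43K9.AC.Srch

/-!
Uniform coincidences for acyclic dominating matrices: long compositions in all letter orders.
-/

set_option autoImplicit false

namespace Pool.Agent.Helper43K9.AC
open Pool.Agent.H812R2.PI Pool.Agent.Y316.Pisot Pool.Agent.Helper65K9.PSC
open scoped BigOperators

variable {m : ℕ} {M : Matrix (Fin (m+1)) (Fin (m+1)) ℤ} {ν : ℕ}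

theorem edges_bound {z : Fin (m+1) → ℤ} {w : List (Fin (m+1))}
    {e : (Fin (m+1) → ℤ) × Fin (m+1)} (he : e ∈ edges z w) (i : Fin (m+1)) :
    z i ≤ e.1 i ∧ e.1 i ≤ z i + ab w i := by
  obtain ⟨k, hk, rfl⟩ := mem_edges.1 he
  simp only [Pi.add_apply, ab]
  have h1 : (w.take k).count i ≤ w.count i := (List.take_sublist k w).count_le i
  constructor
  · have : (0 : ℤ) ≤ ((w.take k).count i : ℤ) := by positivity
    linarith
  · have : ((w.take k).count i : ℤ) ≤ (w.count i : ℤ) := by exact_mod_cast h1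
    linarith

/-- a uniform number of steps for one overlapping pair -/
theorem unif_pair (h : Ac M ν) (P : PD M) (a b : Fin (m+1)) (v : Fin (m+1) → ℤ)
    (hov : 0 < P.OV (0, a) (v, b)) : ∃ K : ℕ, ∀ L : List (Fin (m+1) → List (Fin (m+1))),
      (∀ t ∈ L, inc t = M) → K ≤ L.length →
      ∃ e, e ∈ edges 0 (compList L a) ∧ e ∈ edges ((inc (compList L)).mulVec v) (compList L b) := by
  classical
  have hd : Hd M ν P.ell P.lam := ⟨h, P.ell_pos, P.ell_M⟩
  have hle := hd.le0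
  have hlam0 : 0 < P.lam := lt_trans one_pos P.lam_gt
  obtain ⟨δ, hδ, P0, hP0, hP1, hP2, hP3⟩ : ∃ δ : ℝ, 0 < δ ∧ ∃ P0 : ℝ, 0 ≤ P0 ∧ hh P.ell v ≤ P0 ∧
      P0 + δ ≤ P.ell a ∧ P0 + δ ≤ hh P.ell v + P.ell b := by
    unfold PD.OV ovl at hov
    simp only [ht_zero, zero_add] at hov
    rw [ht_eq] at hov
    rcases lt_max_iff.1 hov with h | h
    · exact absurd h (lt_irrefl _)
    · refine ⟨_, h, max 0 (hh P.ell v), le_max_left _ _, le_max_right _ _, ?_, ?_⟩
      · have := min_le_left (P.ell a) (hh P.ell v + P.ell b)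
        linarith
      · have := min_le_right (P.ell a) (hh P.ell v + P.ell b)
        linarith
  obtain ⟨n2, hn2⟩ : ∃ n2 : ℕ, 8 * P.ell 0 ≤ P.lam ^ n2 * δ := by
    have h2 : Filter.Tendsto (fun n : ℕ => P.lam ^ n * δ) Filter.atTop Filter.atTop :=
      (tendsto_pow_atTop_atTop_of_one_lt P.lam_gt).atTop_mul_const hδ
    exact (h2.eventually (Filter.eventually_ge_atTop (8 * P.ell 0))).exists
  obtain ⟨n, hn⟩ : ∃ n, n = n2 + ν := ⟨_, rfl⟩
  have hn3 : 8 * P.ell 0 ≤ P.lam ^ n * δ := by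
    refine hn2.trans (mul_le_mul_of_nonneg_right ?_ hδ.le)
    exact pow_le_pow_right₀ P.lam_gt.le (by omega)
  -- the offsets which may occur
  obtain ⟨C, hC⟩ : ∃ C : Fin (m+1) → ℤ, C = fun i => |(M ^ n).mulVec v i| + |(M ^ n) i a| +
      |(M ^ n) i b| := ⟨_, rfl⟩
  have hfin : (Set.Icc (-C) C).Finite := Set.finite_Icc _ _
  have hT : ∀ w : Fin (m+1) → ℤ, ∃ n₀ : ℕ, 4 * |hh P.ell w| ≤ 3 * P.ell 0 →
      ∀ L : List (Fin (m+1) → List (Fin (m+1))), (∀ t ∈ L, inc t = M) → n₀ ≤ L.length →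
        Co (compList L) w := by
    intro w
    by_cases hw : 4 * |hh P.ell w| ≤ 3 * P.ell 0
    · obtain ⟨n0, h0⟩ := dyn str m M ν h P.ell P.lam P.ell_pos hd.eig w hw
      exact ⟨n0, fun _ => h0⟩
    · exact ⟨0, fun hw' => absurd hw' hw⟩
  choose g hg using hT
  obtain ⟨N, hN⟩ : ∃ N : ℕ, ∀ w ∈ Set.Icc (-C) C, g w ≤ N := by
    obtain ⟨N, hN⟩ := (hfin.image g).bddAbove
    exact ⟨N, fun w hw => hN ⟨w, hw, rfl⟩⟩
  refine ⟨N + n, fun L hL hlen => ?_⟩
  obtain ⟨L1, L2, rfl, hL2⟩ : ∃ L1 L2, L = L1 ++ L2 ∧ L2.length = n :=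
    ⟨L.take (L.length - n), L.drop (L.length - n), (List.take_append_drop _ _).symm, by
      rw [List.length_drop]; omega⟩
  have hL1' : ∀ t ∈ L1, inc t = M := fun t ht => hL t (List.mem_append_left _ ht)
  have hL2' : ∀ t ∈ L2, inc t = M := fun t ht => hL t (List.mem_append_right _ ht)
  have hinc2 : inc (compList L2) = M ^ n := by rw [inc_compList M L2 hL2', hL2]
  have hzf : ∀ c, ZF P.ell (P.ell 0 / 4) (compList L2 c) :=
    zf m M ν h P.ell P.lam P.ell_pos hd.eig L2 hL2' (by omega)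
  have hlamn : 0 < P.lam ^ n := pow_pos hlam0 n
  have hVh : ∀ v, hh P.ell ((inc (compList L2)).mulVec v) = P.lam ^ n * hh P.ell v := by
    intro v
    rw [hinc2]
    have := ht_pow_mulVec P n v
    rw [ht_eq, ht_eq] at this
    exact this
  have hVab : ∀ c, hh P.ell (ab (compList L2 c)) = P.lam ^ n * P.ell c := by
    intro c
    rw [ab_subst, hVh, hh_ev]
  obtain ⟨e, he, f, hf, he2, hf2, hef⟩ := srch m P.ell P.ell_pos hle
    (compList L2 a) (compList L2 b) (hzf a) (hzf b)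
    0 ((inc (compList L2)).mulVec v) (P.lam ^ n * P0)
    (by rw [hh_zero]; exact mul_nonneg hlamn.le hP0)
    (by rw [hVh]; exact mul_le_mul_of_nonneg_left hP1 hlamn.le)
    (by
      rw [hh_zero, hVab, zero_add]
      have := mul_le_mul_of_nonneg_left hP2 hlamn.le
      linarith)
    (by
      rw [hVh, hVab]
      have := mul_le_mul_of_nonneg_left hP3 hlamn.le
      linarith)
  have hw : f.1 - e.1 ∈ Set.Icc (-C) C := by
    have key : ∀ i, |f.1 i - e.1 i| ≤ C i := by
      intro i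
      have h1 := edges_bound he i
      have h2 := edges_bound hf i
      have h3 : ∀ c, ab (compList L2 c) i = (M ^ n) i c := by
        intro c
        rw [← hinc2]; rfl
      rw [h3] at h1 h2
      rw [hinc2] at h2
      rw [hC]
      simp only [Pi.zero_apply, zero_add] at h1
      have h4 := neg_abs_le ((M ^ n).mulVec v i)
      have h5 := le_abs_self ((M ^ n).mulVec v i)
      have h6 := le_abs_self ((M ^ n) i a)
      have h7 := le_abs_self ((M ^ n) i b)
      have h8 := abs_nonneg ((M ^ n) i a)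
      have h9 := abs_nonneg ((M ^ n) i b)
      rw [abs_le]
      constructor <;> simp only <;> linarith
    constructor
    · intro i
      exact (abs_le.1 (key i)).1
    · intro i
      exact (abs_le.1 (key i)).2
  have hlen1 : g (f.1 - e.1) ≤ L1.length := by
    rw [List.length_append] at hlen
    have := hN _ hw
    omega
  obtain ⟨q, hq1, hq2⟩ := hg _ hef L1 hL1' hlen1
  refine ⟨(q.1 + (inc (compList L1)).mulVec e.1, q.2), ?_, ?_⟩
  · rw [compList_append]
    refine JComp_mem0 (S := compList L1) (T := compList L2) (g := e) he (h := q) ?_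
    rw [he2]
    exact hq1
  · rw [compList_append]
    refine JComp_mem1 (S := compList L1) (T := compList L2) (g := e) (f := f) hf (h := q) ?_
    rw [hf2]
    exact hq2

/-- uniform coincidences -/
theorem unif_hit (h : Ac M ν) (P : PD M) (D : ℝ) : ∃ K : ℕ,
    ∀ L : List (Fin (m+1) → List (Fin (m+1))), (∀ t ∈ L, inc t = M) → K ≤ L.length →
      P.Hit (compList L) D := by
  classical
  have hfin := Pool.Agent.TH100.Pisot.pairs_finite P D
  have h1 : ∀ t : Fin (m+1) × Fin (m+1) × (Fin (m+1) → ℤ), ∃ K : ℕ,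
      0 < P.OV (0, t.1) (t.2.2, t.2.1) → ∀ L : List (Fin (m+1) → List (Fin (m+1))),
      (∀ t ∈ L, inc t = M) → K ≤ L.length → ∃ e, e ∈ edges 0 (compList L t.1) ∧
        e ∈ edges ((inc (compList L)).mulVec t.2.2) (compList L t.2.1) := by
    intro t
    by_cases ht : 0 < P.OV (0, t.1) (t.2.2, t.2.1)
    · obtain ⟨K, hK⟩ := unif_pair h P _ _ _ ht
      exact ⟨K, fun _ => hK⟩
    · exact ⟨0, fun h => absurd h ht⟩
  choose f hf using h1
  obtain ⟨K, hK⟩ : ∃ K : ℕ, ∀ t ∈ {t : Fin (m+1) × Fin (m+1) × (Fin (m+1) → ℤ) |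
      P.N (rv t.2.2) ≤ D ∧ 0 < P.OV (0, t.1) (t.2.2, t.2.1)}, f t ≤ K := by
    obtain ⟨K, hK⟩ := (hfin.image f).bddAbove
    exact ⟨K, fun t ht => hK ⟨t, ht, rfl⟩⟩
  exact ⟨K, fun L hL hlen a b v hv hov =>
    hf (a, b, v) hov L hL ((hK (a, b, v) ⟨hv, hov⟩).trans hlen)⟩

end Pool.Agent.Helper43K9.AC
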