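import Pool.Agent.Helper43K9.AC.Abs

/-!
If all compositions of substitutions with the incidence matrix `M` have coincidences, then all long
compositions have coincidences at once (finite automaton of sets of overlapping pairs).
-/

set_option autoImplicit false

namespace Pool.Agent.Helper43K9.AC
open Pool.Agent.H812R2.PI Pool.Agent.TH100.Pisot Pool.Agent.R889.PZ
open Pool.Agent.Y316.Pisot (hh Ov hh_zero compList_flatten)
open scoped BigOperators

variable {m : ℕ} {M : Matrix (Fin (m+1)) (Fin (m+1)) ℤ}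

theorem ov_iff (P : PD M) (e f : (Fin (m+1) → ℤ) × Fin (m+1)) :
    0 < P.OV e f ↔ Ov P.ell e f := by
  have h1 := P.ell_pos e.2
  have h2 := P.ell_pos f.2
  have h3 : hh P.ell (f.1 - e.1) = P.ht f.1 - P.ht e.1 := Pool.Agent.Y316.Pisot.hh_sub _ _ _
  unfold PD.OV ovl Ov
  rw [h3, lt_max_iff]
  simp only [lt_irrefl, false_or, sub_pos, max_lt_iff, lt_min_iff]
  constructor
  · rintro ⟨⟨h4, h5⟩, h6, h7⟩
    constructor <;> linarith
  · rintro ⟨h4, h5⟩
    refine ⟨⟨?_, ?_⟩, ?_, ?_⟩ <;> linarith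

/-- overlapping descendants -/
def Dsc (P : PD M) (S : Fin (m+1) → List (Fin (m+1)))
    (p q : Fin (m+1) × Fin (m+1) × (Fin (m+1) → ℤ)) : Prop :=
  ∃ e ∈ edges 0 (S p.1), ∃ f ∈ edges ((inc S).mulVec p.2.2) (S p.2.1), Ov P.ell e f ∧
    q = (e.2, f.2, f.1 - e.1)

/-- a common edge of the images -/
def CE (S : Fin (m+1) → List (Fin (m+1))) (p : Fin (m+1) × Fin (m+1) × (Fin (m+1) → ℤ)) : Prop :=
  ∃ e, e ∈ edges 0 (S p.1) ∧ e ∈ edges ((inc S).mulVec p.2.2) (S p.2.1)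

theorem ce_of_dsc {P : PD M} {S : Fin (m+1) → List (Fin (m+1))}
    {p : Fin (m+1) × Fin (m+1) × (Fin (m+1) → ℤ)} {c : Fin (m+1)} (h : Dsc P S p (c, c, 0)) :
    CE S p := by
  obtain ⟨e, he, f, hf, -, heq⟩ := h
  rw [Prod.ext_iff, Prod.ext_iff] at heq
  obtain ⟨h1, h2, h3⟩ := heq
  simp only at h1 h2 h3
  have : f = e := Prod.ext (sub_eq_zero.1 h3.symm) (h2.symm.trans h1)
  rw [this] at hf
  exact ⟨e, he, hf⟩

theorem dsc_of_ce {P : PD M} {S : Fin (m+1) → List (Fin (m+1))}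
    {p : Fin (m+1) × Fin (m+1) × (Fin (m+1) → ℤ)} (h : CE S p) :
    ∃ c, Dsc P S p (c, c, 0) := by
  obtain ⟨e, he, hf⟩ := h
  refine ⟨e.2, e, he, e, hf, ?_, by rw [sub_self]⟩
  unfold Ov
  rw [sub_self, hh_zero]
  have := P.ell_pos e.2
  constructor <;> linarith

theorem dsc_comp_of {P : PD M} {S T : Fin (m+1) → List (Fin (m+1))}
    {p q r : Fin (m+1) × Fin (m+1) × (Fin (m+1) → ℤ)} (h1 : Dsc P T p q) (h2 : Dsc P S q r) :
    Dsc P (comp S T) p r := by
  obtain ⟨g, hg, g', hg', -, rfl⟩ := h1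
  obtain ⟨e, he, f, hf, hO, rfl⟩ := h2
  refine ⟨_, JComp_mem0 (S := S) (T := T) hg he, _, JComp_mem1 (S := S) (T := T) (g := g) hg' hf,
    ?_, ?_⟩
  · unfold Ov at hO ⊢
    simpa using hO
  · simp

theorem pull_of_pow (P : PD M) {S : Fin (m+1) → List (Fin (m+1))} {k : ℕ} (hS : inc S = M ^ k)
    (j : Fin (m+1)) : Pool.Agent.Y316.Pisot.pull P.ell S j = P.lam ^ k * P.ell j := by
  change hh P.ell (ab (S j)) = _
  rw [ab_subst, hS]
  have h1 := ht_pow_mulVec P k (ev j)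
  rw [ht_ev] at h1
  exact h1

theorem dsc_comp {P : PD M} {S T : Fin (m+1) → List (Fin (m+1))} {k : ℕ} (hS : inc S = M ^ k)
    {p r : Fin (m+1) × Fin (m+1) × (Fin (m+1) → ℤ)} (h : Dsc P (comp S T) p r) :
    ∃ q, Dsc P T p q ∧ Dsc P S q r := by
  obtain ⟨e, he, f, hf, hO, rfl⟩ := h
  have hlam : 0 < P.lam ^ k := pow_pos (lt_trans one_pos P.lam_gt) k
  rw [← Matrix.mulVec_zero (inc S)] at he
  rw [inc_comp, ← Matrix.mulVec_mulVec] at hf
  unfold comp at he hf
  rw [edges_ext] at he hf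
  obtain ⟨g, hg, he⟩ := List.mem_flatMap.1 he
  obtain ⟨g', hg', hf⟩ := List.mem_flatMap.1 hf
  have hOv := Pool.Agent.Y316.Pisot.Ov.parent P.ell_pos he hf hO
  have hOg : Ov P.ell g g' := by
    unfold Ov at hOv ⊢
    rw [pull_of_pow P hS, pull_of_pow P hS] at hOv
    have h3 : hh (Pool.Agent.Y316.Pisot.pull P.ell S) (g'.1 - g.1) =
        P.lam ^ k * hh P.ell (g'.1 - g.1) := by
      simp only [hh, Finset.mul_sum]
      refine Finset.sum_congr rfl fun i _ => ?_
      rw [pull_of_pow P hS]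
      ring
    rw [h3] at hOv
    constructor
    · exact lt_of_mul_lt_mul_left hOv.1 hlam.le
    · have : P.lam ^ k * (-P.ell g'.2) < P.lam ^ k * hh P.ell (g'.1 - g.1) := by
        have := hOv.2
        linarith
      exact lt_of_mul_lt_mul_left this hlam.le
  refine ⟨(g.2, g'.2, g'.1 - g.1), ⟨g, hg, g', hg', hOg, rfl⟩, ?_⟩
  have he2 := JComp_mem_translate (t := -(inc S).mulVec g.1) he
  have hf2 := JComp_mem_translate (t := -(inc S).mulVec g.1) hf
  rw [← sub_eq_add_neg, ← sub_eq_add_neg, sub_self] at he2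
  rw [← sub_eq_add_neg, ← sub_eq_add_neg, ← Matrix.mulVec_sub] at hf2
  refine ⟨_, he2, _, hf2, ?_, ?_⟩
  · unfold Ov at hO ⊢
    simpa using hO
  · simp

/-- the descendants of a set -/
def run (P : PD M) (X : Set (Fin (m+1) × Fin (m+1) × (Fin (m+1) → ℤ))) :
    List (Fin (m+1) → List (Fin (m+1))) → Set (Fin (m+1) × Fin (m+1) × (Fin (m+1) → ℤ))
  | [] => X
  | t :: l => {r | ∃ q ∈ run P X l, Dsc P t q r}

theorem run_append (P : PD M) (X : Set (Fin (m+1) × Fin (m+1) × (Fin (m+1) → ℤ)))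
    (L1 L2 : List (Fin (m+1) → List (Fin (m+1)))) :
    run P X (L1 ++ L2) = run P (run P X L2) L1 := by
  induction L1 with
  | nil => rfl
  | cons t l ih => simp only [List.cons_append, run]; rw [ih]

theorem run_mono (P : PD M) {X Y : Set (Fin (m+1) × Fin (m+1) × (Fin (m+1) → ℤ))} (h : X ⊆ Y)
    (L : List (Fin (m+1) → List (Fin (m+1)))) : run P X L ⊆ run P Y L := by
  induction L with
  | nil => exact h
  | cons t l ih =>
    rintro r ⟨q, hq, hr⟩
    exact ⟨q, ih hq, hr⟩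

theorem run_iff (P : PD M) {p : Fin (m+1) × Fin (m+1) × (Fin (m+1) → ℤ)}
    (hp : Ov P.ell (0, p.1) (p.2.2, p.2.1)) (L : List (Fin (m+1) → List (Fin (m+1))))
    (hL : ∀ t ∈ L, inc t = M) (r : Fin (m+1) × Fin (m+1) × (Fin (m+1) → ℤ)) :
    r ∈ run P {p} L ↔ Dsc P (compList L) p r := by
  induction L generalizing r with
  | nil =>
    simp only [run, compList, Set.mem_singleton_iff]
    constructor
    · rintro rfl
      refine ⟨(0, r.1), by simp [edges], (r.2.2, r.2.1), ?_, hp, ?_⟩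
      · rw [JComp_inc_id, Matrix.one_mulVec]
        simp [edges]
      · simp
    · rintro ⟨e, he, f, hf, -, rfl⟩
      rw [JComp_inc_id, Matrix.one_mulVec] at hf
      simp only [edges, List.mem_singleton] at he hf
      rw [he, hf]
      simp
  | cons t l ih =>
    have hl : ∀ t ∈ l, inc t = M := fun t' h' => hL t' (List.mem_cons_of_mem _ h')
    have ht : inc t = M ^ 1 := by rw [pow_one]; exact hL t (List.mem_cons_self ..)
    simp only [run, compList, Set.mem_setOf_eq]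
    constructor
    · rintro ⟨q, hq, hr⟩
      exact dsc_comp_of ((ih hl q).1 hq) hr
    · intro h
      obtain ⟨q, hq, hr⟩ := dsc_comp ht h
      exact ⟨q, (ih hl q).2 hq, hr⟩

/-- the set of the overlapping pairs of distance at most `D` -/
def Om (P : PD M) (D : ℝ) : Set (Fin (m+1) × Fin (m+1) × (Fin (m+1) → ℤ)) :=
  {t | P.N (rv t.2.2) ≤ D ∧ 0 < P.OV (0, t.1) (t.2.2, t.2.1)}

theorem dsc_om {P : PD M} {t : Fin (m+1) → List (Fin (m+1))} (ht : inc t = M) {B D : ℝ}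
    (hB : ∀ a k, P.N (rv (ab ((t a).take k))) ≤ B) (hD : P.rho * D + 2 * B ≤ D)
    {p q : Fin (m+1) × Fin (m+1) × (Fin (m+1) → ℤ)} (hp : P.N (rv p.2.2) ≤ D)
    (h : Dsc P t p q) : q ∈ Om P D := by
  subst ht
  obtain ⟨e, he, f, hf, hO, rfl⟩ := h
  refine ⟨?_, ?_⟩
  · obtain ⟨k, hk, rfl⟩ := mem_edges.1 he
    obtain ⟨l, hl, rfl⟩ := mem_edges.1 hf
    simp only
    rw [zero_add, add_sub_assoc, rv_add, rv_mulVec, rv_sub]
    have h1 := P.N_add (act (inc t) (rv p.2.2))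
      (rv (ab ((t p.2.1).take l)) - rv (ab ((t p.1).take k)))
    have h2 := N_sub P (rv (ab ((t p.2.1).take l))) (rv (ab ((t p.1).take k)))
    have h3 := P.N_act (rv p.2.2)
    have h4 := mul_le_mul_of_nonneg_left hp P.rho_nonneg
    have h5 := hB p.1 k
    have h6 := hB p.2.1 l
    linarith
  · rw [ov_iff]
    unfold Ov at hO ⊢
    simpa using hO

theorem dsc_exists {P : PD M} {t : Fin (m+1) → List (Fin (m+1))} (ht : inc t = M)
    {p : Fin (m+1) × Fin (m+1) × (Fin (m+1) → ℤ)} (hp : 0 < P.OV (0, p.1) (p.2.2, p.2.1)) {B : ℝ}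
    (hB : ∀ a k, P.N (rv (ab ((t a).take k))) ≤ B) : ∃ q, Dsc P t p q := by
  obtain ⟨e, he, f, hf, hO, -⟩ := ovTo_base P t ht B (P.N (rv p.2.2)) hB p.1 p.2.1 p.2.2 le_rfl hp
  exact ⟨_, e, he, f, hf, (ov_iff P e f).1 hO, rfl⟩

/-- if all compositions of members of `F` have coincidences then all long compositions have them at
once -/
theorem unif_of_set (hnn : ∀ i j, 0 ≤ M i j) (hdet : M.det ≠ 0) (P : PD M)
    (F : Set (Fin (m+1) → List (Fin (m+1)))) (hFM : ∀ t ∈ F, inc t = M)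
    (hall : ∀ l : List (Fin (m+1) → List (Fin (m+1))), l ≠ [] → (∀ t ∈ l, t ∈ F) →
      GCC P.ell (compList l)) (D : ℝ) :
    ∃ K : ℕ, ∀ L : List (Fin (m+1) → List (Fin (m+1))), (∀ t ∈ L, t ∈ F) →
      K ≤ L.length → P.Hit (compList L) D := by
  classical
  have hr : 0 < 1 - P.rho := by linarith [P.rho_lt]
  obtain ⟨B, hB⟩ : ∃ B : ℝ, B = P.c * ∑ i, ∑ j, ((M i j : ℤ) : ℝ) := ⟨_, rfl⟩
  have hpre : ∀ t : Fin (m+1) → List (Fin (m+1)), inc t = M →
      ∀ a k, P.N (rv (ab ((t a).take k))) ≤ B := fun t ht a k => by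
    rw [hB]; exact JFin_BT P hnn t ht a k
  obtain ⟨D0, hD0⟩ : ∃ D0 : ℝ, D0 = max D (2 * B / (1 - P.rho)) := ⟨_, rfl⟩
  have hDD : D ≤ D0 := by rw [hD0]; exact le_max_left _ _
  have hD1 : P.rho * D0 + 2 * B ≤ D0 := by
    have h1 : 2 * B / (1 - P.rho) ≤ D0 := by rw [hD0]; exact le_max_right _ _
    rw [div_le_iff₀ hr] at h1
    linarith
  have hfin : (Om P D0).Finite := pairs_finite P D0
  obtain ⟨Pw, hPw⟩ : ∃ Pw, Pw = hfin.finite_subsets.toFinset := ⟨_, rfl⟩
  refine ⟨Pw.card, fun L hLF hlen a b v hv hov => ?_⟩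
  have hL : ∀ t ∈ L, inc t = M := fun t ht => hFM t (hLF t ht)
  obtain ⟨p, hp⟩ : ∃ p : Fin (m+1) × Fin (m+1) × (Fin (m+1) → ℤ), p = (a, b, v) := ⟨_, rfl⟩
  have hpOm : p ∈ Om P D0 := by rw [hp]; exact ⟨hv.trans hDD, hov⟩
  have hpOv : Ov P.ell (0, p.1) (p.2.2, p.2.1) := (ov_iff P _ _).1 hpOm.2
  have hsub : ∀ (l : List (Fin (m+1) → List (Fin (m+1)))), (∀ t ∈ l, inc t = M) →
      run P {p} l ⊆ Om P D0 ∧ (run P {p} l).Nonempty := by
    intro l
    induction l with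
    | nil =>
      intro _
      exact ⟨by simpa [run] using hpOm, ⟨p, rfl⟩⟩
    | cons t l ih =>
      intro hl
      obtain ⟨h1, q, hq⟩ := ih fun t' h' => hl t' (List.mem_cons_of_mem _ h')
      have ht := hl t (List.mem_cons_self ..)
      constructor
      · rintro r ⟨q', hq', hr'⟩
        exact dsc_om ht (hpre t ht) hD1 (h1 hq').1 hr'
      · obtain ⟨r, hr'⟩ := dsc_exists ht (h1 hq).2 (hpre t ht)
        exact ⟨r, q, hq, hr'⟩
  -- two equal sets
  obtain ⟨G, hG⟩ : ∃ G : ℕ → Set (Fin (m+1) × Fin (m+1) × (Fin (m+1) → ℤ)),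
      G = fun j => run P {p} (L.drop (L.length - j)) := ⟨_, rfl⟩
  have hmaps : ∀ j ∈ Finset.range (Pw.card + 1), G j ∈ Pw := by
    intro j _
    rw [hPw, Set.Finite.mem_toFinset, hG]
    exact (hsub _ fun t ht => hL t (List.mem_of_mem_drop ht)).1
  obtain ⟨i, hi, j, hj, hij, hFij⟩ : ∃ i ∈ Finset.range (Pw.card + 1),
      ∃ j ∈ Finset.range (Pw.card + 1), i < j ∧ G i = G j := by
    obtain ⟨i, hi, j, hj, hne, hFF⟩ := Finset.exists_ne_map_eq_of_card_lt_of_maps_to
      (s := Finset.range (Pw.card + 1)) (t := Pw) (f := G) (by rw [Finset.card_range]; omega) hmaps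
    rcases lt_or_gt_of_ne hne with h | h
    · exact ⟨i, hi, j, hj, h, hFF⟩
    · exact ⟨j, hj, i, hi, h, hFF.symm⟩
  rw [Finset.mem_range] at hi hj
  obtain ⟨A, hA⟩ : ∃ A, A = L.drop (L.length - i) := ⟨_, rfl⟩
  obtain ⟨l, hl⟩ : ∃ l, l = (L.drop (L.length - j)).take (j - i) := ⟨_, rfl⟩
  have hlA : L.drop (L.length - j) = l ++ A := by
    rw [hl, hA]
    conv_lhs => rw [← List.take_append_drop (j - i) (L.drop (L.length - j))]
    rw [List.drop_drop]
    congr 2
    omega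
  have hAM : ∀ t ∈ A, inc t = M := fun t ht => by
    rw [hA] at ht
    exact hL t (List.mem_of_mem_drop ht)
  have hlF : ∀ t ∈ l, t ∈ F := fun t ht => by
    rw [hl] at ht
    exact hLF t (List.mem_of_mem_drop (List.mem_of_mem_take ht))
  have hlM : ∀ t ∈ l, inc t = M := fun t ht => hFM t (hlF t ht)
  have hlne : l ≠ [] := by
    intro h
    have h1 : l.length = j - i := by
      rw [hl, List.length_take, List.length_drop]
      omega
    rw [h, List.length_nil] at h1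
    omega
  obtain ⟨X, hX⟩ : ∃ X, X = run P {p} A := ⟨_, rfl⟩
  have hrun : run P X l = X := by
    rw [hX, ← run_append, ← hlA]
    have := hFij
    rw [hG] at this
    simp only at this
    rw [← this, hA]
  have hrunN : ∀ N : ℕ, run P X (List.replicate N l).flatten = X := by
    intro N
    induction N with
    | zero => rfl
    | succ N ih =>
      rw [List.replicate_succ, List.flatten_cons, run_append, ih, hrun]
  obtain ⟨hXs, q, hq⟩ := hsub A hAM
  rw [← hX] at hXs hq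
  have hqOm := hXs hq
  have hqOv : Ov P.ell (0, q.1) (q.2.2, q.2.1) := (ov_iff P _ _).1 hqOm.2
  obtain ⟨N, e, he1, he2⟩ := hall l hlne hlF q.1 q.2.1 q.2.2 ((ov_pos_iff P _ _ _).1 hqOm.2)
  have hce : CE (compList (List.replicate N l).flatten) q := by
    rw [compList_flatten]
    exact ⟨e, he1, by rw [inc_iter]; exact he2⟩
  obtain ⟨c, hc⟩ := dsc_of_ce (P := P) hce
  have hNM : ∀ t ∈ (List.replicate N l).flatten, inc t = M := inc_mem hlM N
  have hc2 : (c, c, (0 : Fin (m+1) → ℤ)) ∈ X := by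
    rw [← hrunN N]
    refine run_mono P (Set.singleton_subset_iff.2 hq) _ ?_
    exact (run_iff P hqOv _ hNM _).2 hc
  rw [hX] at hc2
  have hcA : CE (compList A) p := ce_of_dsc ((run_iff P hpOv A hAM _).1 hc2)
  have hLA : L = L.take (L.length - i) ++ A := by
    rw [hA, List.take_append_drop]
  have hne : ∀ b, compList (L.take (L.length - i)) b ≠ [] :=
    compList_ne fun t ht => inc_ne hdet (hL t (List.mem_of_mem_take ht))
  have h5 := persist (S := compList (L.take (L.length - i))) (T := compList A) hne hcA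
  rw [← compList_append, ← hLA] at h5
  rw [hp] at h5
  exact h5

end Pool.Agent.Helper43K9.AC
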